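import Pool.Agent.H306R2.EPLim

set_option autoImplicit false

/-! Sums over tuples and convolutions. -/

namespace Pool.Agent.H306R2

open Finset Filter Topology
open scoped ENNReal

noncomputable section

lemma conv_tsum (h : ℕ → ℝ≥0∞) (A B : ArithmeticFunction ℝ≥0∞) :
    ∑' a : ℕ, ∑' b : ℕ, A a * (h (a * b) * B b) = ∑' n, h n * (A * B) n := by
  rw [← ENNReal.tsum_prod (f := fun a b => A a * (h (a * b) * B b))]
  rw [← ENNReal.tsum_fiberwise (fun x : ℕ × ℕ => A x.1 * (h (x.1 * x.2) * B x.2))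
    (fun x : ℕ × ℕ => x.1 * x.2)]
  refine tsum_congr fun n => ?_
  rcases Nat.eq_zero_or_pos n with h0 | h0
  · subst h0
    rw [ArithmeticFunction.map_zero, mul_zero, ENNReal.tsum_eq_zero]
    rintro ⟨⟨a, b⟩, hab⟩
    simp only [Set.mem_preimage, Set.mem_singleton_iff] at hab
    rcases Nat.mul_eq_zero.mp hab with h1 | h1
    · simp [h1]
    · simp [h1]
  · have e1 : (fun x : ℕ × ℕ => x.1 * x.2) ⁻¹' {n} = (n.divisorsAntidiagonal : Set (ℕ × ℕ)) := by
      ext x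
      simp only [Set.mem_preimage, Set.mem_singleton_iff, SetLike.mem_coe,
        Nat.mem_divisorsAntidiagonal]
      exact ⟨fun h => ⟨h, h0.ne'⟩, fun h => h.1⟩
    rw [e1, Finset.tsum_subtype' (n.divisorsAntidiagonal)
      (fun x : ℕ × ℕ => A x.1 * (h (x.1 * x.2) * B x.2)), ArithmeticFunction.mul_apply, mul_sum]
    refine sum_congr rfl fun x hx => ?_
    rw [Nat.mem_divisorsAntidiagonal] at hx
    rw [hx.1]
    ring

lemma tuple_tsum {r : ℕ} (h : ℕ → ℝ≥0∞) (g : Fin r → ArithmeticFunction ℝ≥0∞) :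
    ∑' b : Fin r → ℕ, h (∏ i, b i) * ∏ i, g i (b i) = ∑' n, h n * (∏ i, g i) n := by
  induction r generalizing h with
  | zero =>
    rw [tsum_eq_single (fun _ => 0) (fun b hb => absurd (Subsingleton.elim _ _) hb)]
    rw [tsum_eq_single 1 (fun n hn => by
      rw [Fin.prod_univ_zero, ArithmeticFunction.one_apply_ne hn, mul_zero])]
    simp
  | succ r ih =>
    rw [← (Fin.consEquiv (fun _ : Fin (r+1) => ℕ)).tsum_eq, ENNReal.tsum_prod']
    rw [Fin.prod_univ_succ, ← conv_tsum]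
    refine tsum_congr fun a => ?_
    rw [ENNReal.tsum_mul_left, ← ih (fun n => h (a * n)) (fun i => g i.succ),
      ← ENNReal.tsum_mul_left]
    refine tsum_congr fun b => ?_
    simp only [Fin.consEquiv_apply, Fin.prod_univ_succ, Fin.cons_zero, Fin.cons_succ]
    ring

/-- nonneg real arithmetic function to `ENNReal` -/
def toE (A : ArithmeticFunction ℝ) : ArithmeticFunction ℝ≥0∞ := ⟨fun n => ENNReal.ofReal (A n), by simp⟩

lemma toE_apply (A : ArithmeticFunction ℝ) (n : ℕ) : toE A n = ENNReal.ofReal (A n) := rfl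

lemma toE_one : toE 1 = 1 := by
  ext n
  rw [toE_apply, ArithmeticFunction.one_apply, ArithmeticFunction.one_apply]
  split_ifs <;> simp

lemma toE_mul {A B : ArithmeticFunction ℝ} (hA : ∀ n, 0 ≤ A n) (hB : ∀ n, 0 ≤ B n) :
    toE (A * B) = toE A * toE B := by
  ext n
  rw [toE_apply, ArithmeticFunction.mul_apply, ArithmeticFunction.mul_apply,
    ENNReal.ofReal_sum_of_nonneg fun x _ => mul_nonneg (hA _) (hB _)]
  exact sum_congr rfl fun x _ => ENNReal.ofReal_mul (hA _)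

lemma toE_prod {ι : Type*} (S : Finset ι) (f : ι → ArithmeticFunction ℝ) (hf : ∀ i n, 0 ≤ f i n) :
    toE (∏ i ∈ S, f i) = ∏ i ∈ S, toE (f i) := by
  classical
  induction S using Finset.induction_on with
  | empty => simp [toE_one]
  | insert a S ha ih =>
    rw [prod_insert ha, prod_insert ha, toE_mul (hf a) (fun n => prod_nonneg_af S f hf n), ih]

/-- real version -/
lemma tuple_hasSum {r : ℕ} (h : ℕ → ℝ) (g : Fin r → ArithmeticFunction ℝ) (hh : ∀ n, 0 ≤ h n)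
    (hg : ∀ i n, 0 ≤ g i n) (hs : Summable (fun n => h n * (∏ i, g i) n)) :
    HasSum (fun b : Fin r → ℕ => h (∏ i, b i) * ∏ i, g i (b i)) (∑' n, h n * (∏ i, g i) n) := by
  have hG : ∀ n, 0 ≤ (∏ i, g i) n := fun n => prod_nonneg_af _ g hg n
  have h1 := tuple_tsum (fun n => ENNReal.ofReal (h n)) (fun i => toE (g i))
  rw [← toE_prod _ _ hg] at h1
  have h2 : ∀ b : Fin r → ℕ, ENNReal.ofReal (h (∏ i, b i)) * ∏ i, toE (g i) (b i) =
      ENNReal.ofReal (h (∏ i, b i) * ∏ i, g i (b i)) := by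
    intro b
    rw [ENNReal.ofReal_mul (hh _), ENNReal.ofReal_prod_of_nonneg fun i _ => hg i _]
    rfl
  have h3 : ∀ n : ℕ, ENNReal.ofReal (h n) * toE (∏ i, g i) n =
      ENNReal.ofReal (h n * (∏ i, g i) n) := by
    intro n
    rw [ENNReal.ofReal_mul (hh _)]
    rfl
  simp only [h2, h3] at h1
  have h4 : 0 ≤ ∑' n, h n * (∏ i, g i) n := tsum_nonneg fun n => mul_nonneg (hh n) (hG n)
  rw [← ENNReal.ofReal_tsum_of_nonneg (fun n => mul_nonneg (hh n) (hG n)) hs] at h1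
  have h5 : ∀ b : Fin r → ℕ, 0 ≤ h (∏ i, b i) * ∏ i, g i (b i) :=
    fun b => mul_nonneg (hh _) (prod_nonneg fun i _ => hg i _)
  have h6 : Summable (fun b : Fin r → ℕ => h (∏ i, b i) * ∏ i, g i (b i)) := by
    have h7 := ENNReal.summable_toReal (f := fun b : Fin r → ℕ =>
      ENNReal.ofReal (h (∏ i, b i) * ∏ i, g i (b i))) (by rw [h1]; exact ENNReal.ofReal_ne_top)
    refine h7.congr fun b => ?_
    rw [ENNReal.toReal_ofReal (h5 b)]
  have h8 : ∑' b : Fin r → ℕ, h (∏ i, b i) * ∏ i, g i (b i) = ∑' n, h n * (∏ i, g i) n := by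
    rw [← ENNReal.ofReal_tsum_of_nonneg h5 h6] at h1
    rwa [ENNReal.ofReal_eq_ofReal_iff (tsum_nonneg h5) h4] at h1
  rw [← h8]
  exact h6.hasSum

lemma wt_hasSum {r : ℕ} (e : Fin r → ℝ) (he : ∀ i, 0 < e i)
    (s : Fin r → ℝ) {σ : ℝ} (hσ : 0 < σ) (hs : ∀ i, σ ≤ s i) :
    HasSum (fun b : Fin r → ℕ => wt (∑ i, e i) e b * ∏ i, (b i : ℝ) ^ (-(s i)))
      (∑' n, cf e s n) := by
  have hE : 0 ≤ ∑ i, e i := sum_nonneg fun i _ => (he i).le
  have e1 : cf e s = fun n => (dv (∑ i, e i) n / n) * (∏ i, tw (e i) (s i)) n := by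
    funext n
    unfold cf Gs
    ring
  have hsum := cf_summable (fun i => (he i).le) hσ hs
  rw [e1] at hsum ⊢
  have h := tuple_hasSum (fun n => dv (∑ i, e i) n / n) (fun i => tw (e i) (s i))
    (fun n => div_nonneg (dv_nonneg hE n) (by positivity)) (fun i n => tw_nonneg (he i).le _ n) hsum
  refine h.congr_fun ?_
  intro b
  unfold wt
  simp only [tw_apply]
  rw [Nat.cast_prod, mul_assoc, div_mul_eq_mul_div, mul_div_assoc, ← prod_mul_distrib,
    ← prod_div_distrib]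
  congr 1
  refine prod_congr rfl fun i _ => ?_
  ring

theorem wt_summable {r : ℕ} (e : Fin r → ℝ) (he : ∀ i, 0 < e i) (hr : 0 < r)
    (s : Fin r → ℝ) (hs : ∀ i, 0 < s i) :
    Summable (fun b : Fin r → ℕ => wt (∑ i, e i) e b * ∏ i, (b i : ℝ) ^ (-(s i))) := by
  have : Nonempty (Fin r) := ⟨⟨0, hr⟩⟩
  obtain ⟨i0, -, hi0⟩ := exists_min_image (univ : Finset (Fin r)) s univ_nonempty
  exact (wt_hasSum e he s (hs i0) (fun i => hi0 i (mem_univ i))).summable

theorem wt_tendsto {r : ℕ} (e : Fin r → ℝ) (he : ∀ i, 0 < e i) (hr : 0 < r)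
    (s : Fin r → ℝ) (hs : ∀ i, 0 < s i) :
    Tendsto (fun L : ℝ => (∑' b : Fin r → ℕ,
        wt (∑ i, e i) e b * ∏ i, (b i : ℝ) ^ (-(s i / L))) / L ^ ((∑ i, e i) ^ 2))
      atTop (𝓝 (aF (∑ i, e i) * ∏ i, (s i) ^ (-((∑ i, e i) * e i)))) := by
  have : Nonempty (Fin r) := ⟨⟨0, hr⟩⟩
  refine (cf_tsum_tendsto e he s hs).congr' ?_
  filter_upwards [eventually_gt_atTop 0] with L hL
  obtain ⟨i0, -, hi0⟩ := exists_min_image (univ : Finset (Fin r)) s univ_nonempty
  rw [(wt_hasSum e he (fun i => s i / L) (div_pos (hs i0) hL) (fun i => by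
    have := hi0 i (mem_univ i)
    gcongr)).tsum_eq]

end

end Pool.Agent.H306R2
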