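import Pool.Agent.H306R2.AF

set_option autoImplicit false

/-! The core mean value theorem, uniform version for large `T`. -/

namespace Pool.Agent.H306R2

open Finset Filter Topology MeasureTheory

noncomputable section

lemma small_ev (P : ℕ) (κ η K : ℝ) (hκ : 0 < κ) (hη : 0 < η) :
    ∀ᶠ T : ℝ in atTop, K * (T ^ P * Real.exp (-(κ * T ^ (2 * η)))) ≤ 1 := by
  have h1 := tendsto_rpow_mul_exp_neg_mul_atTop_nhds_zero ((P:ℝ) / (2 * η)) κ hκ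
  have h2 : Tendsto (fun T : ℝ => T ^ (2 * η)) atTop atTop := tendsto_rpow_atTop (by linarith)
  have h3 := (h1.comp h2).const_mul K
  rw [mul_zero] at h3
  have h4 := h3.eventually (gt_mem_nhds one_pos)
  filter_upwards [h4, eventually_gt_atTop 0] with T hT hT0
  simp only [Function.comp] at hT
  have h5 : (T ^ (2 * η)) ^ ((P:ℝ) / (2 * η)) = T ^ P := by
    rw [← Real.rpow_mul hT0.le]
    rw [show 2 * η * ((P:ℝ) / (2 * η)) = P by field_simp]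
    exact Real.rpow_natCast T P
  rw [h5] at hT
  rw [show -(κ * T ^ (2 * η)) = -κ * T ^ (2 * η) by ring]
  exact hT.le

/-- length of the polynomials -/
def Yt (η T : ℝ) : ℝ := T ^ (1 - 2 * η)
/-- width of the window -/
def Ht (η T : ℝ) : ℝ := T ^ (1 - η)

lemma HY_sq (η T : ℝ) (hT : 0 < T) : Ht η T ^ 2 / (32 * Yt η T ^ 2) = T ^ (2 * η) / 32 := by
  unfold Ht Yt
  rw [← Real.rpow_natCast, ← Real.rpow_natCast, ← Real.rpow_mul hT.le, ← Real.rpow_mul hT.le]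
  rw [show T ^ (2 * η) = T ^ ((1 - η) * ((2:ℕ):ℝ)) / T ^ ((1 - 2 * η) * ((2:ℕ):ℝ)) by
    rw [← Real.rpow_sub hT]; congr 1; push_cast; ring]
  have : (0:ℝ) < T ^ ((1 - 2 * η) * ((2:ℕ):ℝ)) := Real.rpow_pos_of_pos hT _
  field_simp

lemma RH_sq (η T a : ℝ) (hT : 0 < T) : (a * T) ^ 2 / Ht η T ^ 2 = a ^ 2 * T ^ (2 * η) := by
  unfold Ht
  rw [← Real.rpow_natCast (T ^ (1 - η)), ← Real.rpow_mul hT.le, mul_pow]
  rw [show T ^ (2 * η) = T ^ 2 / T ^ ((1 - η) * ((2:ℕ):ℝ)) by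
    rw [← Real.rpow_natCast T 2, ← Real.rpow_sub hT]; congr 1; push_cast; ring]
  ring

lemma HY_le (η T K : ℝ) (hT : 0 < T) (hK : K ≤ T) : K * Yt η T ≤ Ht η T ^ 2 := by
  unfold Ht Yt
  rw [← Real.rpow_natCast (T ^ (1 - η)), ← Real.rpow_mul hT.le]
  have : T ^ ((1 - η) * ((2:ℕ):ℝ)) = T * T ^ (1 - 2 * η) := by
    nth_rewrite 2 [← Real.rpow_one T]
    rw [← Real.rpow_add hT]; congr 1; push_cast; ring
  rw [this]
  have : (0:ℝ) < T ^ (1 - 2 * η) := Real.rpow_pos_of_pos hT _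
  gcongr

theorem core_ev (j c0 : ℕ) (η δ : ℝ) (hη : 0 < η) (hη2 : η < 1 / 2) (hδ : 0 < δ) (hδ1 : δ ≤ 1) :
    ∀ᶠ T : ℝ in atTop, ∀ τ : ℝ, δ * T ≤ τ → τ ≤ T → ∀ A G : ArithmeticFunction ℝ,
      PB A c0 → (∀ n : ℕ, T < n → A n = 0) → PB G c0 →
      ‖(∫ t in (τ - δ / 2 * T)..(τ + δ / 2 * T), (riemannZeta (1 / 2 + t * Complex.I) ^ j *
          Dp A T (1 / 2 + t * Complex.I)) *
        (starRingEnd ℂ) (Dp G (Yt η T) (1 / 2 + t * Complex.I)) * (gw τ (Ht η T) t : ℂ)) -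
      ((∑ m ∈ Icc 1 ⌊Yt η T⌋₊, (zR ^ j * A) m * G m / m : ℝ) : ℂ)‖ ≤ 1 := by
  set c : ℕ := j + c0 + 1 with hc
  set κ : ℝ := min (1 / 32) (δ ^ 2 / 8) with hκ
  have hκ0 : 0 < κ := lt_min (by norm_num) (by positivity)
  set P : ℕ := (3 * c + 4) + (c0 + 1) + 2 * j + (2 * c + 3) with hP
  set K : ℝ := Z2 + Z2 * Real.exp (((c:ℝ) + 2) ^ 2) * 2 +
    2 * (((c:ℝ) + 2) * (6 ^ j * ((c:ℝ) + 5) ^ (2 * j) * Real.exp (((c:ℝ) + 2) ^ 2))) with hK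
  filter_upwards [small_ev P κ η K hκ0 hη, eventually_ge_atTop 1, eventually_ge_atTop (2 / δ),
    eventually_ge_atTop (16 * (2 * (c:ℝ) + 3))] with T hsmall hT1 hT2 hT3 τ hτ1 hτ2 A G hA hAX hG
  have hT0 : 0 < T := by linarith
  have hc0 : (0:ℝ) ≤ c := Nat.cast_nonneg c
  have hY1 : 1 ≤ Yt η T := Real.one_le_rpow hT1 (by linarith)
  have hYT : Yt η T ≤ T := by
    unfold Yt
    calc T ^ (1 - 2 * η) ≤ T ^ (1:ℝ) := Real.rpow_le_rpow_of_exponent_le hT1 (by linarith)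
      _ = T := Real.rpow_one T
  have hH1 : 1 ≤ Ht η T := Real.one_le_rpow hT1 (by linarith)
  have hδT : 2 ≤ δ * T := by
    rw [div_le_iff₀ hδ] at hT2
    linarith
  have hf : PB (zR ^ j * A) c := by
    have h1 := (PB_zR.pow j).mul hA
    rw [show j * (0 + 1) + c0 + 1 = c by rw [hc]; ring] at h1
    exact h1
  have hg : PB G c := hG.mono (by omega)
  have hcont := contour (fun s => riemannZeta s ^ j * Dp A T s) (6 ^ j * T ^ (c0 + 1)) (by positivity)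
    (2 * j) ?_ ?_ (fun n => (zR ^ j * A) n) (fun n => G n) (Yt η T) τ (Ht η T) (δ / 2 * T)
    (((c:ℝ) + 5) * T) hY1 hH1 c (by simp) hf hg (HY_le η T _ hT0 hT3) ?_ (by positivity)
    (by linarith) ?_
  rotate_left
  · intro s hs hs1
    have := differentiableAt_riemannZeta hs1
    exact (this.pow j).mul (Dp_differentiable _ T s)
  · intro s hs him
    have h1 : (1:ℝ) / 2 ≤ ‖s - 1‖ := by
      have := Complex.abs_im_le_norm (s - 1)
      simp only [Complex.sub_im, Complex.one_im, sub_zero] at this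
      linarith
    have h2 := zeta_norm_le hs h1
    have h3 := norm_Dp_le (fun n => A n) T hT1 c0 hA s (by linarith)
    rw [norm_mul, norm_pow]
    calc ‖riemannZeta s‖ ^ j * ‖Dp (fun n => A n) T s‖ ≤
        (6 * (‖s‖ + 1) ^ 2) ^ j * T ^ (c0 + 1) := by gcongr
      _ = 6 ^ j * T ^ (c0 + 1) * (‖s‖ + 1) ^ (2 * j) := by
          rw [mul_pow, ← pow_mul]; ring
  · intro y
    have := zetaA_hasSum j A T hAX (((1 / 2 + ((c:ℝ) + 2) : ℝ) : ℂ) + y * Complex.I) (by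
      simp; linarith)
    exact this
  · nlinarith
  refine hcont.trans (le_trans ?_ hsmall)
  -- exponentials
  have hx1 : Real.exp (-(Ht η T ^ 2 / (32 * Yt η T ^ 2))) ≤ Real.exp (-(κ * T ^ (2 * η))) := by
    apply Real.exp_le_exp.mpr
    rw [HY_sq η T hT0]
    have h1 : κ ≤ 1 / 32 := min_le_left _ _
    have h2 : (0:ℝ) < T ^ (2 * η) := Real.rpow_pos_of_pos hT0 _
    nlinarith
  have hx2 : Real.exp (-((δ / 2 * T) ^ 2 / (2 * Ht η T ^ 2))) ≤ Real.exp (-(κ * T ^ (2 * η))) := by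
    apply Real.exp_le_exp.mpr
    have e := RH_sq η T (δ / 2) hT0
    have h0 : (0:ℝ) < Ht η T ^ 2 := by positivity
    rw [show (δ / 2 * T) ^ 2 / (2 * Ht η T ^ 2) = ((δ / 2 * T) ^ 2 / Ht η T ^ 2) / 2 by field_simp, e]
    have h1 : κ ≤ δ ^ 2 / 8 := min_le_right _ _
    have h2 : (0:ℝ) < T ^ (2 * η) := Real.rpow_pos_of_pos hT0 _
    nlinarith
  have hx3 : Real.exp (-((δ / 2 * T) ^ 2 / Ht η T ^ 2)) ≤ Real.exp (-(κ * T ^ (2 * η))) := by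
    refine le_trans ?_ hx2
    apply Real.exp_le_exp.mpr
    have h0 : (0:ℝ) < Ht η T ^ 2 := by positivity
    have : (δ / 2 * T) ^ 2 / (2 * Ht η T ^ 2) ≤ (δ / 2 * T) ^ 2 / Ht η T ^ 2 := by
      gcongr
      linarith
    linarith
  have hx4 : Real.exp (((c:ℝ) + 2) ^ 2 / Ht η T ^ 2) ≤ Real.exp (((c:ℝ) + 2) ^ 2) := by
    apply Real.exp_le_exp.mpr
    apply div_le_self (by positivity)
    exact one_le_pow₀ hH1
  have hZ := Z2_nonneg
  set E := Real.exp (-(κ * T ^ (2 * η))) with hE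
  have hE0 : 0 < E := Real.exp_pos _
  have hYp : ∀ a : ℕ, a ≤ P → Yt η T ^ a ≤ T ^ P := fun a ha =>
    (pow_le_pow_left₀ (by linarith) hYT a).trans (pow_le_pow_right₀ hT1 ha)
  have t1 : Z2 * (Yt η T ^ (3 * c + 4) * Real.exp (-(Ht η T ^ 2 / (32 * Yt η T ^ 2)))) ≤
      Z2 * (T ^ P * E) := by
    have := hYp (3 * c + 4) (by omega)
    gcongr
  have t2 : Z2 * (Yt η T ^ (2 * c + 3) * Real.exp (((c:ℝ) + 2) ^ 2 / Ht η T ^ 2)) *
        (2 * Real.exp (-((δ / 2 * T) ^ 2 / (2 * Ht η T ^ 2)))) ≤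
      Z2 * Real.exp (((c:ℝ) + 2) ^ 2) * 2 * (T ^ P * E) := by
    have := hYp (2 * c + 3) (by omega)
    calc _ ≤ Z2 * (T ^ P * Real.exp (((c:ℝ) + 2) ^ 2)) * (2 * E) := by gcongr
      _ = _ := by ring
  have t3 : 2 * (((c:ℝ) + 2) * (6 ^ j * T ^ (c0 + 1) * (((c:ℝ) + 5) * T) ^ (2 * j) *
        Yt η T ^ (2 * c + 3) *
        (Real.exp (((c:ℝ) + 2) ^ 2 / Ht η T ^ 2) * Real.exp (-((δ / 2 * T) ^ 2 / Ht η T ^ 2))))) ≤
      2 * (((c:ℝ) + 2) * (6 ^ j * ((c:ℝ) + 5) ^ (2 * j) * Real.exp (((c:ℝ) + 2) ^ 2))) *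
        (T ^ P * E) := by
    have h1 : Yt η T ^ (2 * c + 3) ≤ T ^ (2 * c + 3) := pow_le_pow_left₀ (by linarith) hYT _
    have h2 : T ^ (c0 + 1) * T ^ (2 * j) * T ^ (2 * c + 3) ≤ T ^ P := by
      rw [← pow_add, ← pow_add]
      exact pow_le_pow_right₀ hT1 (by omega)
    calc _ ≤ 2 * (((c:ℝ) + 2) * (6 ^ j * T ^ (c0 + 1) * (((c:ℝ) + 5) * T) ^ (2 * j) *
        T ^ (2 * c + 3) * (Real.exp (((c:ℝ) + 2) ^ 2) * E))) := by gcongr
      _ = 2 * (((c:ℝ) + 2) * (6 ^ j * ((c:ℝ) + 5) ^ (2 * j) * Real.exp (((c:ℝ) + 2) ^ 2))) *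
          ((T ^ (c0 + 1) * T ^ (2 * j) * T ^ (2 * c + 3)) * E) := by
          rw [mul_pow]; ring
      _ ≤ _ := by gcongr
  calc _ ≤ Z2 * (T ^ P * E) + Z2 * Real.exp (((c:ℝ) + 2) ^ 2) * 2 * (T ^ P * E) +
      2 * (((c:ℝ) + 2) * (6 ^ j * ((c:ℝ) + 5) ^ (2 * j) * Real.exp (((c:ℝ) + 2) ^ 2))) *
        (T ^ P * E) := add_le_add (add_le_add t1 t2) t3
    _ = K * (T ^ P * E) := by rw [hK]; ring

end

end Pool.Agent.H306R2
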