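import Pool.Agent.H306R2.Holder
import Pool.Agent.H306R2.CoreEv

set_option autoImplicit false

/-! The Hölder step on one window. -/

namespace Pool.Agent.H306R2

open Finset Filter Topology MeasureTheory

noncomputable section

lemma zeta_line_continuous : Continuous (fun t : ℝ => riemannZeta (1 / 2 + t * Complex.I)) := by
  rw [continuous_iff_continuousAt]
  intro t
  have h1 : (1 / 2 + (t:ℂ) * Complex.I) ≠ 1 := by
    intro h
    have := congrArg Complex.re h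
    simp at this

  have h2 := (differentiableAt_riemannZeta h1).continuousAt
  exact ContinuousAt.comp (f := fun t : ℝ => 1 / 2 + (t:ℂ) * Complex.I) h2
    (by fun_prop : Continuous fun t : ℝ => 1 / 2 + (t:ℂ) * Complex.I).continuousAt

lemma Dp_line_continuous (g : ℕ → ℝ) (Y : ℝ) :
    Continuous (fun t : ℝ => Dp g Y (1 / 2 + t * Complex.I)) :=
  (Dp_differentiable g Y).continuous.comp
    (by fun_prop : Continuous fun t : ℝ => 1 / 2 + (t:ℂ) * Complex.I)

/-- Hölder on one window. -/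
theorem window_holder (n : ℕ) (q : Fin n → ℕ) (hq : ∀ i, 1 ≤ q i) (j k : ℕ) (hj : 1 ≤ j) (hk : 1 ≤ k)
    (hjk : (j:ℝ) / k + 1 / 2 + ∑ i, 1 / (2 * (q i : ℝ)) = 1)
    (Z C : ℝ → ℂ) (A : Fin n → ℝ → ℂ) (hZ : Continuous Z) (hC : Continuous C)
    (hA : ∀ i, Continuous (A i)) (w : ℝ → ℝ) (hw : Continuous w) (hw0 : ∀ t, 0 ≤ w t)
    (a b : ℝ) (hab : a ≤ b) (N0 S0 : ℝ) (K0 : Fin n → ℝ)
    (hN0 : 0 < N0) (hS0 : 0 < S0) (hK0 : ∀ i, 0 < K0 i)
    (hN : N0 ≤ ‖∫ t in a..b, (Z t ^ j * ∏ i, A i t) * (starRingEnd ℂ) (C t) * (w t : ℂ)‖)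
    (hS : ∫ t in a..b, ‖C t‖ ^ 2 * w t ≤ S0)
    (hK : ∀ i, ∫ t in a..b, ‖A i t‖ ^ (2 * q i) * w t ≤ K0 i) :
    (N0 / (S0 ^ (1 / 2 : ℝ) * ∏ i, K0 i ^ (1 / (2 * (q i : ℝ))))) ^ ((k:ℝ) / j) ≤
      ∫ t in a..b, ‖Z t‖ ^ k * w t := by
  have hj0 : (0:ℝ) < j := by exact_mod_cast hj
  have hk0 : (0:ℝ) < k := by exact_mod_cast hk
  have hq0 : ∀ i, (0:ℝ) < q i := fun i => by exact_mod_cast hq i
  set J := ∫ t in a..b, ‖Z t‖ ^ k * w t with hJ
  have hJ0 : 0 ≤ J := intervalIntegral.integral_nonneg hab fun t _ =>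
    mul_nonneg (by positivity) (hw0 t)
  -- Hölder
  let F : Option (Option (Fin n)) → ℝ → ℝ := fun o t =>
    match o with
    | none => ‖Z t‖ ^ k
    | some none => ‖C t‖ ^ 2
    | some (some i) => ‖A i t‖ ^ (2 * q i)
  let p : Option (Option (Fin n)) → ℝ := fun o =>
    match o with
    | none => (j:ℝ) / k
    | some none => 1 / 2
    | some (some i) => 1 / (2 * (q i : ℝ))
  have hHol := holder_real (univ : Finset (Option (Option (Fin n)))) F w
    (by
      rintro (_ | _ | i) _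
      · exact hZ.norm.pow k
      · exact hC.norm.pow 2
      · exact (hA i).norm.pow _)
    (by
      rintro (_ | _ | i) _ t
      · exact pow_nonneg (norm_nonneg _) _
      · exact pow_nonneg (norm_nonneg _) _
      · exact pow_nonneg (norm_nonneg _) _)
    hw hw0 p
    (by
      simp only [Fintype.sum_option, p]
      rw [← add_assoc]
      exact hjk)
    (by
      rintro (_ | _ | i) _
      · simp only [p]; positivity
      · simp only [p]; norm_num
      · simp only [p]; positivity)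
    a b hab
  simp only [Fintype.prod_option, F, p] at hHol
  -- pointwise identity
  have hpt : ∀ t, ((‖Z t‖ ^ k) ^ ((j:ℝ) / k) * ((‖C t‖ ^ 2) ^ (1 / 2 : ℝ) *
      ∏ i, (‖A i t‖ ^ (2 * q i)) ^ (1 / (2 * (q i : ℝ))))) * w t =
      ‖(Z t ^ j * ∏ i, A i t) * (starRingEnd ℂ) (C t) * (w t : ℂ)‖ := by
    intro t
    have e1 : (‖Z t‖ ^ k) ^ ((j:ℝ) / k) = ‖Z t‖ ^ j := by
      rw [← Real.rpow_natCast (‖Z t‖) k, ← Real.rpow_mul (norm_nonneg _),
        show (k:ℝ) * ((j:ℝ) / k) = j by field_simp, Real.rpow_natCast]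
    have e2 : (‖C t‖ ^ 2) ^ (1 / 2 : ℝ) = ‖C t‖ := by
      rw [← Real.sqrt_eq_rpow, Real.sqrt_sq (norm_nonneg _)]
    have e3 : ∀ i, (‖A i t‖ ^ (2 * q i)) ^ (1 / (2 * (q i : ℝ))) = ‖A i t‖ := by
      intro i
      rw [← Real.rpow_natCast (‖A i t‖) (2 * q i), ← Real.rpow_mul (norm_nonneg _)]
      have := hq0 i
      rw [show ((2 * q i : ℕ) : ℝ) * (1 / (2 * (q i : ℝ))) = 1 by push_cast; field_simp,
        Real.rpow_one]
    rw [e1, e2, prod_congr rfl fun i _ => e3 i]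
    rw [norm_mul, norm_mul, norm_mul, norm_pow, RCLike.norm_conj, Complex.norm_real,
      Real.norm_of_nonneg (hw0 t), norm_prod]
    ring
  have h1 : N0 ≤ J ^ ((j:ℝ) / k) * ((∫ t in a..b, ‖C t‖ ^ 2 * w t) ^ (1 / 2 : ℝ) *
      ∏ i, (∫ t in a..b, ‖A i t‖ ^ (2 * q i) * w t) ^ (1 / (2 * (q i : ℝ)))) := by
    refine hN.trans (le_trans ?_ hHol)
    refine (intervalIntegral.norm_integral_le_integral_norm hab).trans (le_of_eq ?_)
    refine intervalIntegral.integral_congr fun t _ => ?_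
    exact (hpt t).symm
  have hSn : 0 ≤ ∫ t in a..b, ‖C t‖ ^ 2 * w t := intervalIntegral.integral_nonneg hab fun t _ =>
    mul_nonneg (by positivity) (hw0 t)
  have hKn : ∀ i, 0 ≤ ∫ t in a..b, ‖A i t‖ ^ (2 * q i) * w t := fun i =>
    intervalIntegral.integral_nonneg hab fun t _ => mul_nonneg (by positivity) (hw0 t)
  set D := S0 ^ (1 / 2 : ℝ) * ∏ i, K0 i ^ (1 / (2 * (q i : ℝ))) with hD
  have hD0 : 0 < D := mul_pos (Real.rpow_pos_of_pos hS0 _)
    (prod_pos fun i _ => Real.rpow_pos_of_pos (hK0 i) _)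
  have h2 : N0 ≤ J ^ ((j:ℝ) / k) * D := by
    refine h1.trans ?_
    refine mul_le_mul_of_nonneg_left ?_ (Real.rpow_nonneg hJ0 _)
    refine mul_le_mul (Real.rpow_le_rpow hSn hS (by norm_num)) ?_
      (prod_nonneg fun i _ => Real.rpow_nonneg (hKn i) _) (Real.rpow_nonneg hS0.le _)
    exact prod_le_prod (fun i _ => Real.rpow_nonneg (hKn i) _) fun i _ =>
      Real.rpow_le_rpow (hKn i) (hK i) (by positivity)
  have h3 : N0 / D ≤ J ^ ((j:ℝ) / k) := by rwa [div_le_iff₀ hD0]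
  calc (N0 / D) ^ ((k:ℝ) / j) ≤ (J ^ ((j:ℝ) / k)) ^ ((k:ℝ) / j) :=
        Real.rpow_le_rpow (by positivity) h3 (by positivity)
    _ = J := by
        rw [← Real.rpow_mul hJ0, show (j:ℝ) / k * ((k:ℝ) / j) = 1 by field_simp, Real.rpow_one]

end

end Pool.Agent.H306R2
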