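import Pool.Agent.H306R2.Main

set_option autoImplicit false

/-! The constant for exponents divisible by four. -/

namespace Pool.Agent.H306R2

open Finset Filter Topology

noncomputable section

lemma lc_nat (k : ℕ) (hk : 1 ≤ k) (m : ℕ) : lc (k : ℝ) m = ((m + k - 1).choose m : ℝ) := by
  induction m with
  | zero => rw [lc_zero]; simp
  | succ m ih =>
    rw [lc_succ, ih]
    have h1 : m + 1 + k - 1 = (m + k - 1) + 1 := by omega
    have h2 : ((m + k - 1) + 1) * (m + k - 1).choose m = ((m + k - 1) + 1).choose (m + 1) * (m + 1) :=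
      Nat.add_one_mul_choose_eq (m + k - 1) m
    have h3 : (((m + k - 1 + 1 : ℕ)) : ℝ) = m + k := by
      rw [show m + k - 1 + 1 = m + k by omega]; push_cast; ring
    have h4 : ((m : ℝ) + k) * ((m + k - 1).choose m : ℝ) =
        (((m + k - 1) + 1).choose (m + 1) : ℝ) * ((m : ℝ) + 1) := by
      rw [← h3]
      exact_mod_cast h2
    rw [h1]
    have h5 : (m : ℝ) + 1 ≠ 0 := by positivity
    rw [← mul_div_assoc, div_eq_iff h5]
    rw [← h4]
    ring

lemma aF_nat (k : ℕ) (hk : 1 ≤ k) : aF (k : ℝ) =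
    ∏' p : Nat.Primes, ((1 - 1 / (p : ℝ)) ^ (k ^ 2) *
      ∑' m : ℕ, ((m + k - 1).choose m : ℝ) ^ 2 * (1 / (p : ℝ)) ^ m) := by
  unfold aF
  refine tprod_congr fun p => ?_
  congr 1
  · have h := Real.rpow_natCast (1 - 1 / (p : ℝ)) (k ^ 2)
    rw [Nat.cast_pow] at h
    exact h
  · refine tsum_congr fun m => ?_
    rw [lc_nat k hk]

/-- `N = 2h²`. -/
lemma even_const (h : ℕ) (hh : 1 ≤ h) :
    mB (((4 * h : ℕ) : ℝ) / 2) h (fun _ : Fin 1 => 2) (fun _ => (2 * (h:ℝ) ^ 2 + 1) / (6 * (h:ℝ) ^ 2)) =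
    (1 + 1 / (2 * (h:ℝ) ^ 2)) ^ (4 * h ^ 2) * (16 / 729) ^ (2 * h ^ 2) *
      ((2 * (2 * h ^ 2)).choose (2 * h ^ 2) : ℝ) ^ 3 / ((4 * h ^ 2).factorial : ℝ) := by
  have hh0 : (0:ℝ) < h := by exact_mod_cast hh
  set N : ℕ := 2 * h ^ 2 with hN
  have hNpos : 0 < N := by positivity
  have hN0 : (0:ℝ) < N := by exact_mod_cast hNpos
  have hNr : (N : ℝ) = 2 * (h:ℝ) ^ 2 := by rw [hN]; push_cast; ring
  have e1 : (((4 * h : ℕ) : ℝ) / 2) = 2 * h := by push_cast; ring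
  unfold mB
  rw [e1]
  simp only [univ_unique, prod_const, card_singleton, pow_one, sum_const, one_smul, Nat.cast_ofNat]
  have e2 : (2 * (h:ℝ)) ^ 2 / 2 = N := by rw [hNr]; ring
  have e3 : (2 * (h:ℝ)) ^ 2 = ((2 * N : ℕ) : ℝ) := by push_cast; rw [hNr]; ring
  have e4 : 2 * (h:ℝ) * h = N := by rw [hNr]; ring
  rw [e2, e3, e4]
  rw [Real.Gamma_nat_eq_factorial, Real.Gamma_nat_eq_factorial]
  have e5 : (2 * (h:ℝ) ^ 2 + 1) / (6 * (h:ℝ) ^ 2) = ((N:ℝ) + 1) / (3 * N) := by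
    rw [hNr]
    have : (h:ℝ) ≠ 0 := hh0.ne'
    field_simp
    ring
  rw [e5]
  have e6 : 1 - ((N:ℝ) + 1) / (3 * N) * (N / (N + 1)) = 2 / 3 := by
    field_simp
    ring
  rw [e6]
  have e7 : 2 * (N:ℝ) = ((2 * N : ℕ) : ℝ) := by push_cast; ring
  rw [e7, Real.rpow_natCast, Real.rpow_natCast]
  have e8 : 2 * (h:ℝ) / h = ((2 : ℕ) : ℝ) := by
    push_cast
    field_simp
  rw [e8, Real.rpow_natCast]
  have e9 : (4 * h ^ 2) = 2 * N := by rw [hN]; ring
  rw [e9]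
  have e10 : ((2 * N).choose N : ℝ) = ((2 * N).factorial : ℝ) / ((N.factorial : ℝ) ^ 2) := by
    rw [Nat.choose_eq_factorial_div_factorial (by omega), Nat.cast_div]
    · rw [show 2 * N - N = N by omega]; push_cast; ring
    · exact Nat.factorial_mul_factorial_dvd_factorial (by omega)
    · rw [show 2 * N - N = N by omega]
      positivity
  rw [e10]
  have e11 : 1 + 1 / (2 * (h:ℝ) ^ 2) = ((N:ℝ) + 1) / N := by
    rw [hNr]; field_simp
  rw [e11]
  have f1 : ((2 * N).factorial : ℝ) ≠ 0 := by positivity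
  have f2 : (N.factorial : ℝ) ≠ 0 := by positivity
  have f3 : ((16:ℝ) / 729) ^ N = (1 / 3) ^ (2 * N) * (2 / 3) ^ (2 * N * 2) := by
    rw [pow_mul (1/3 : ℝ) 2 N, show 2 * N * 2 = 4 * N by ring, pow_mul (2/3 : ℝ) 4 N, ← mul_pow]
    norm_num
  rw [f3]
  have f4 : (((N:ℝ) + 1) / (3 * N)) ^ N = (((N:ℝ) + 1) / N) ^ N * (1 / 3) ^ N := by
    rw [← mul_pow]; congr 1; field_simp
  rw [f4]
  rw [show 2 * N = N * 2 by ring]
  simp only [pow_mul, div_pow, mul_pow]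
  field_simp

lemma even_adm (h : ℕ) (hh : 1 ≤ h) :
    Adm (4 * h) h (fun _ : Fin 1 => 2) (fun _ => (2 * (h:ℝ) ^ 2 + 1) / (6 * (h:ℝ) ^ 2)) := by
  have hh0 : (1:ℝ) ≤ h := by exact_mod_cast hh
  refine ⟨hh, fun _ => le_refl _, ?_, fun _ => by positivity, fun _ => ?_, ?_, ?_⟩
  · simp
    field_simp
    norm_num
  · push_cast
    rw [div_le_div_iff₀ (by positivity) (by norm_num)]
    nlinarith
  · simp only [univ_unique, sum_const, card_singleton, one_smul]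
    rw [div_le_one (by positivity)]
    nlinarith
  · push_cast
    nlinarith

end

end Pool.Agent.H306R2
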