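import Pool.Agent.H306R2.Box

set_option autoImplicit false

/-! Lower bound for the limit measure of the region. -/

namespace Pool.Agent.H306R2

open Finset Filter Topology MeasureTheory

noncomputable section

lemma tangent {y t m : ℝ} (hy : 0 ≤ y) (ht : 0 < t) (hm : 1 ≤ m) :
    t ^ m + m * t ^ (m - 1) * (y - t) ≤ y ^ m := by
  have h1 := one_add_mul_self_le_rpow_one_add (s := y / t - 1) (by
    have : 0 ≤ y / t := by positivity
    linarith) hm
  rw [show 1 + (y / t - 1) = y / t by ring, Real.div_rpow hy ht.le, le_div_iff₀ (by positivity)] at h1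
  refine le_trans (le_of_eq ?_) h1
  rw [Real.rpow_sub_one ht.ne']
  field_simp

lemma prod_mul_coord_integral {n : ℕ} (f : Fin n → ℝ → ℝ) (i : Fin n) (c : ℝ)
    (hc : ∫ x, x * f i x = c * ∫ x, f i x) :
    ∫ v : Fin n → ℝ, (∏ l, f l (v l)) * v i = c * ∏ l, ∫ x, f l x := by
  have h1 : ∀ v : Fin n → ℝ, (∏ l, f l (v l)) * v i =
      ∏ l, (fun (l : Fin n) (x : ℝ) => (if l = i then x else 1) * f l x) l (v l) := by
    intro v
    simp only [prod_mul_distrib]
    rw [prod_ite_eq' univ i (fun l => v l), if_pos (mem_univ i)]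
    ring
  simp only [h1]
  rw [integral_fintype_prod_volume_eq_prod (fun (l : Fin n) (x : ℝ) => (if l = i then x else 1) * f l x)]
  have h2 : ∀ l, ∫ x, (if l = i then x else 1) * f l x = (if l = i then c else 1) * ∫ x, f l x := by
    intro l
    by_cases h : l = i
    · subst h
      simp only [if_true]
      exact hc
    · simp only [if_neg h, one_mul]
  simp only [h2]
  rw [prod_mul_distrib, prod_ite_eq' univ i (fun _ => c), if_pos (mem_univ i)]

lemma prod_mul_coord_integrable {n : ℕ} (f : Fin n → ℝ → ℝ) (hf : ∀ i, Integrable (f i)) (i : Fin n)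
    (hi : Integrable (fun x => x * f i x)) :
    Integrable (fun v : Fin n → ℝ => (∏ l, f l (v l)) * v i) := by
  have h1 : (fun v : Fin n → ℝ => (∏ l, f l (v l)) * v i) =
      fun v => ∏ l, (fun (l : Fin n) (x : ℝ) => (if l = i then x else 1) * f l x) l (v l) := by
    funext v
    simp only [prod_mul_distrib]
    rw [prod_ite_eq' univ i (fun l => v l), if_pos (mem_univ i)]
    ring
  rw [h1]
  refine Integrable.fintype_prod (f := fun (l : Fin n) (x : ℝ) => (if l = i then x else 1) * f l x)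
    fun l => ?_
  by_cases h : l = i
  · subst h
    simp only [if_true]
    exact hi
  · simp only [if_neg h, one_mul]
    exact hf l

/-- test function for the region -/
def rt {n : ℕ} (c δ : ℝ) (B d : Fin n → ℝ) (u : Fin (n + 1) → ℝ) : ℝ :=
  sc c δ (∑ i, u i) * ∏ i : Fin n, sc (B i) (d i) (u i.succ)

lemma rt_cont {n : ℕ} (c δ : ℝ) (B d : Fin n → ℝ) : Continuous (rt c δ B d) := by
  unfold rt
  refine Continuous.mul ((sc_cont c δ).comp (by fun_prop)) ?_
  refine continuous_finsetProd _ fun i _ => (sc_cont _ _).comp (by fun_prop)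

lemma rt_nonneg {n : ℕ} (c δ : ℝ) (B d : Fin n → ℝ) (u : Fin (n + 1) → ℝ) : 0 ≤ rt c δ B d u :=
  mul_nonneg (sc_nonneg _ _ _) (prod_nonneg fun i _ => sc_nonneg _ _ _)

lemma rt_le_one {n : ℕ} (c δ : ℝ) (B d : Fin n → ℝ) (u : Fin (n + 1) → ℝ) : rt c δ B d u ≤ 1 :=
  mul_le_one₀ (sc_le_one _ _ _) (prod_nonneg fun i _ => sc_nonneg _ _ _)
    (prod_le_one (fun i _ => sc_nonneg _ _ _) fun i _ => sc_le_one _ _ _)

lemma rt_zero {n : ℕ} {c δ : ℝ} (hδ : 0 < δ) {B d : Fin n → ℝ} (hd : ∀ i, 0 < d i)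
    (u : Fin (n + 1) → ℝ) (h : c + δ ≤ ∑ i, u i ∨ ∃ i, B i + d i ≤ u (Fin.succ i)) :
    rt c δ B d u = 0 := by
  unfold rt
  rcases h with h | ⟨i, hi⟩
  · rw [sc_eq_zero hδ h, zero_mul]
  · rw [prod_eq_zero (mem_univ i) (sc_eq_zero (hd i) hi), mul_zero]

theorem region_lower {n : ℕ} (m : Fin (n + 1) → ℝ) (hm : ∀ i, 0 < m i) (hm0 : 1 ≤ m 0)
    (c δ : ℝ) (hδ : 0 < δ) (B d : Fin n → ℝ) (hB : ∀ i, 0 < B i) (hd : ∀ i, 0 < d i)
    (hBc : ∑ i, B i ≤ c) (hc : 0 < c) :
    (∏ i : Fin n, (B i) ^ (m i.succ) / Real.Gamma (m i.succ + 1)) *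
      ((c - ∑ i : Fin n, B i * (m i.succ / (m i.succ + 1))) ^ (m 0) / Real.Gamma (m 0 + 1)) ≤
    ∫ u : Fin (n + 1) → ℝ, Gd m u * rt c δ B d u := by
  set V : ℝ := ∏ i : Fin n, (B i) ^ (m i.succ) / Real.Gamma (m i.succ + 1) with hV
  set t : ℝ := c - ∑ i : Fin n, B i * (m i.succ / (m i.succ + 1)) with ht
  have hG0 : 0 < Real.Gamma (m 0 + 1) := Real.Gamma_pos_of_pos (by linarith [hm 0])
  have ht0 : 0 < t := by
    rcases Nat.eq_zero_or_pos n with h0 | h0
    · subst h0
      rw [ht]; simpa using hc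
    · have : ∑ i : Fin n, B i * (m i.succ / (m i.succ + 1)) < ∑ i, B i := by
        have hne : (univ : Finset (Fin n)).Nonempty := ⟨⟨0, h0⟩, mem_univ _⟩
        refine sum_lt_sum_of_nonempty hne fun i _ => ?_
        have h1 := hB i
        have h2 := hm i.succ
        have h3 : m i.succ / (m i.succ + 1) < 1 := by rw [div_lt_one (by linarith)]; linarith
        nlinarith
      linarith
  set f : Fin n → ℝ → ℝ := fun i x => gd (m i.succ) x * ct (B i) x with hf
  have hfi : ∀ i, Integrable (f i) := fun i => gd_ct_integrable (hm i.succ) (B i)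
  have hfV : ∀ i, ∫ x, f i x = (B i) ^ (m i.succ) / Real.Gamma (m i.succ + 1) := by
    intro i
    rw [hf, gd_ct_integral (hm i.succ), max_eq_left (hB i).le]
  have hfx : ∀ i, ∫ x, x * f i x = (B i * (m i.succ / (m i.succ + 1))) * ∫ x, f i x := by
    intro i
    rw [hfV, hf]
    exact id_gd_ct_integral (hm i.succ) (hB i)
  -- Fubini
  have hFint : Integrable (fun u : Fin (n + 1) → ℝ => Gd m u * rt c δ B d u) := by
    refine tf_integrable _ (rt_cont c δ B d) (c + δ) ?_ (by linarith) hm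
    intro u hu0 hu
    obtain ⟨i, hi⟩ := hu
    apply rt_zero hδ hd
    left
    exact hi.trans (single_le_sum (fun j _ => hu0 j) (mem_univ i))
  have hmp := volume_preserving_piFinSuccAbove (fun _ : Fin (n + 1) => ℝ) 0
  set e := MeasurableEquiv.piFinSuccAbove (fun _ : Fin (n + 1) => ℝ) 0 with he
  have h1 := (hmp.symm e).integral_comp' (g := fun u : Fin (n + 1) → ℝ => Gd m u * rt c δ B d u)
  have hint2 : Integrable (fun p : ℝ × (Fin n → ℝ) => Gd m (e.symm p) * rt c δ B d (e.symm p)) :=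
    ((hmp.symm e).integrable_comp_emb e.symm.measurableEmbedding
      (g := fun u : Fin (n + 1) → ℝ => Gd m u * rt c δ B d u)).mpr hFint
  rw [← h1]
  rw [Measure.volume_eq_prod] at hint2 ⊢
  rw [integral_prod_symm _ hint2]
  have hes : ∀ (x : ℝ) (v : Fin n → ℝ), e.symm (x, v) = Fin.cons x v := by
    intro x v
    rw [he, MeasurableEquiv.piFinSuccAbove_symm_apply]
    exact Fin.insertNth_zero' _ _
  have hpt : ∀ (x : ℝ) (v : Fin n → ℝ), Gd m (e.symm (x, v)) * rt c δ B d (e.symm (x, v)) =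
      (∏ i : Fin n, gd (m i.succ) (v i) * sc (B i) (d i) (v i)) *
        (gd (m 0) x * sc (c - ∑ i, v i) δ x) := by
    intro x v
    rw [hes]
    unfold Gd rt
    rw [Fin.prod_univ_succ, Fin.sum_univ_succ]
    simp only [Fin.cons_zero, Fin.cons_succ]
    have : sc c δ (x + ∑ i, v i) = sc (c - ∑ i, v i) δ x := by
      unfold sc
      congr 3; ring
    rw [this, prod_mul_distrib]
    ring
  have hright := hint2.integral_prod_right
  simp only [hpt, integral_const_mul] at hright ⊢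
  -- the minorant
  have hWint : Integrable (fun v : Fin n → ℝ => ∏ i, f i (v i)) := Integrable.fintype_prod hfi
  have hWxint : ∀ i, Integrable (fun v : Fin n → ℝ => (∏ l, f l (v l)) * v i) := fun i =>
    prod_mul_coord_integrable f hfi i (id_gd_ct_integrable (hm i.succ) (B i))
  set a : ℝ := m 0 * t ^ (m 0 - 1) with ha
  have hg : ∀ v : Fin n → ℝ, (∏ i, f i (v i)) * (t ^ (m 0) + a * ((c - ∑ i, v i) - t)) =
      (t ^ (m 0) + a * (c - t)) * (∏ i, f i (v i)) - a * ∑ i, (∏ l, f l (v l)) * v i := by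
    intro v
    rw [← mul_sum]
    ring
  have hgint : Integrable (fun v : Fin n → ℝ =>
      (∏ i, f i (v i)) * (t ^ (m 0) + a * ((c - ∑ i, v i) - t))) := by
    simp only [hg]
    exact (hWint.const_mul _).sub ((integrable_finsetSum _ fun i _ => hWxint i).const_mul _)
  have hgval : ∫ v : Fin n → ℝ, (∏ i, f i (v i)) * (t ^ (m 0) + a * ((c - ∑ i, v i) - t)) =
      V * t ^ (m 0) := by
    simp only [hg]
    rw [integral_sub (hWint.const_mul _) ((integrable_finsetSum _ fun i _ => hWxint i).const_mul _),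
      integral_const_mul, integral_const_mul, integral_finsetSum _ fun i _ => hWxint i]
    have e1 : ∀ i, ∫ v : Fin n → ℝ, (∏ l, f l (v l)) * v i =
        (B i * (m i.succ / (m i.succ + 1))) * V := by
      intro i
      rw [prod_mul_coord_integral f i _ (hfx i), hV]
      simp only [hfV]
    have e2 : ∫ v : Fin n → ℝ, ∏ i, f i (v i) = V := by
      rw [integral_fintype_prod_volume_eq_prod f, hV]
      simp only [hfV]
    rw [e2]
    simp only [e1]
    rw [← sum_mul, show ∑ i : Fin n, B i * (m i.succ / (m i.succ + 1)) = c - t by rw [ht]; ring]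
    ring
  have hfin : V * (t ^ (m 0) / Real.Gamma (m 0 + 1)) =
      ∫ v : Fin n → ℝ, ((∏ i, f i (v i)) * (t ^ (m 0) + a * ((c - ∑ i, v i) - t))) *
        (Real.Gamma (m 0 + 1))⁻¹ := by
    rw [integral_mul_const, hgval]
    ring
  rw [hfin]
  refine integral_mono (hgint.mul_const _) hright fun v => ?_
  simp only
  have hW0 : 0 ≤ ∏ i, f i (v i) :=
    prod_nonneg fun i _ => mul_nonneg (gd_nonneg (hm _) _) (ct_nonneg _ _)
  have hI0 : 0 ≤ ∫ x, gd (m 0) x * sc (c - ∑ i, v i) δ x :=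
    integral_nonneg fun x => mul_nonneg (gd_nonneg (hm 0) _) (sc_nonneg _ _ _)
  have hWle : ∏ i, f i (v i) ≤ ∏ i : Fin n, gd (m i.succ) (v i) * sc (B i) (d i) (v i) :=
    prod_le_prod (fun i _ => mul_nonneg (gd_nonneg (hm _) _) (ct_nonneg _ _)) fun i _ =>
      mul_le_mul_of_nonneg_left (ct_le_sc (hd i) _) (gd_nonneg (hm _) _)
  by_cases hv : ∀ i, v i ≤ B i
  · have hs : 0 ≤ c - ∑ i, v i := by
      have : ∑ i, v i ≤ ∑ i, B i := sum_le_sum fun i _ => hv i
      linarith
    have h2 := gd_sc_ge (hm 0) (a := c - ∑ i, v i) hδ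
    rw [max_eq_left hs] at h2
    have h3 := tangent hs ht0 hm0
    calc (∏ i, f i (v i)) * (t ^ (m 0) + a * ((c - ∑ i, v i) - t)) * (Real.Gamma (m 0 + 1))⁻¹
        ≤ (∏ i, f i (v i)) * (c - ∑ i, v i) ^ (m 0) * (Real.Gamma (m 0 + 1))⁻¹ := by gcongr
      _ = (∏ i, f i (v i)) * ((c - ∑ i, v i) ^ (m 0) / Real.Gamma (m 0 + 1)) := by ring
      _ ≤ (∏ i, f i (v i)) * ∫ x, gd (m 0) x * sc (c - ∑ i, v i) δ x := by gcongr
      _ ≤ _ := by gcongr
  · push Not at hv
    obtain ⟨i, hi⟩ := hv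
    have : ∏ i, f i (v i) = 0 := by
      apply prod_eq_zero (mem_univ i)
      rw [hf]
      simp only [ct]
      rw [if_neg (by linarith), mul_zero]
    rw [this, zero_mul, zero_mul]
    exact mul_nonneg (hW0.trans hWle) hI0

end

end Pool.Agent.H306R2
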