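import Pool.Agent.H306R2.EP

set_option autoImplicit false

/-! The limit of the Euler product for the diagonal sums. -/

namespace Pool.Agent.H306R2

open Finset Filter Topology

noncomputable section

lemma Zr_tendsto {s : ℝ} (hs : 0 < s) :
    Tendsto (fun L : ℝ => Zr (s / L) / L) atTop (𝓝 s⁻¹) := by
  have h := tendsto_sub_mul_tsum_nat_rpow
  have h2 : Tendsto (fun L : ℝ => 1 + s / L) atTop (𝓝[>] 1) := by
    rw [tendsto_nhdsWithin_iff]
    constructor
    · have : Tendsto (fun L : ℝ => s / L) atTop (𝓝 0) := tendsto_const_nhds.div_atTop tendsto_id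
      simpa using this.const_add 1
    · filter_upwards [eventually_gt_atTop 0] with L hL
      have : 0 < s / L := by positivity
      simp only [Set.mem_Ioi]
      linarith
  have h3 := (h.comp h2).div_const s
  rw [one_div] at h3
  refine h3.congr' ?_
  filter_upwards [eventually_gt_atTop 0] with L hL
  simp only [Function.comp]
  have : ∑' n : ℕ, 1 / (n:ℝ) ^ (1 + s / L) = Zr (s / L) := by
    unfold Zr
    refine tsum_congr fun n => ?_
    rw [one_div, ← Real.rpow_neg (by positivity)]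
    congr 1; ring
  rw [this]
  field_simp
  ring

section

variable {ι : Type*} [Fintype ι]

lemma cf_tendsto {β : Type*} (l : Filter β) (e : ι → ℝ) (s : β → ι → ℝ) (s0 : ι → ℝ)
    (h : ∀ i, Tendsto (fun b => s b i) l (𝓝 (s0 i))) (n : ℕ) :
    Tendsto (fun b => cf e (s b) n) l (𝓝 (cf e s0 n)) := by
  unfold cf
  exact ((Gs_tendsto l e s s0 h n).const_mul _).div_const _

lemma Ep_tendsto {β : Type*} (l : Filter β) {e : ι → ℝ} (he : ∀ i, 0 ≤ e i)
    (hE : 0 < ∑ i, e i) (s : β → ι → ℝ) (s0 : ι → ℝ)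
    (h : ∀ i, Tendsto (fun b => s b i) l (𝓝 (s0 i))) (hs : ∀ᶠ b in l, ∀ i, 0 ≤ s b i) {p : ℕ}
    (hp : p.Prime) :
    Tendsto (fun b => Ep e (s b) p) l (𝓝 (Ep e s0 p)) := by
  unfold Ep
  have hp' := inv_prime hp
  refine tendsto_tsum_of_dominated_convergence
    (bound := fun m => lc ((∑ i, e i) ^ 2) m * (1 / (p:ℝ)) ^ m)
    (lc_summable (by positivity) hp'.1 (by linarith [hp'.2])) (fun m => cf_tendsto l e s s0 h _) ?_
  filter_upwards [hs] with b hb m
  rw [Real.norm_of_nonneg (cf_nonneg he _ _)]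
  exact cf_pp_le he hb hp m

lemma up_tendsto {β : Type*} (l : Filter β) {e : ι → ℝ} (he : ∀ i, 0 ≤ e i)
    (hE : 0 < ∑ i, e i) (s : β → ι → ℝ) (s0 : ι → ℝ) (hs0 : ∀ i, 0 ≤ s0 i)
    (h : ∀ i, Tendsto (fun b => s b i) l (𝓝 (s0 i))) (hs : ∀ᶠ b in l, ∀ i, 0 ≤ s b i) {p : ℕ}
    (hp : p.Prime) :
    Tendsto (fun b => up e (s b) p) l (𝓝 (up e s0 p)) := by
  unfold up
  have h1 := Ep_ge_one he hE hs0 hp
  refine ((Ep_tendsto l he hE s s0 h hs hp).log (by linarith)).add ?_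
  refine tendsto_finsetSum _ fun i _ => Tendsto.const_mul _ ?_
  have h2 := rpow_term hp (hs0 i)
  have h3 := (inv_prime hp).2
  have hp0 : (p:ℝ) ≠ 0 := by exact_mod_cast hp.ne_zero
  refine Tendsto.log ?_ (by linarith)
  refine Tendsto.const_sub _ ?_
  exact Tendsto.rpow tendsto_const_nhds ((h i).const_sub _) (Or.inl hp0)

lemma up_tsum_tendsto {β : Type*} (l : Filter β) {e : ι → ℝ} (he : ∀ i, 0 ≤ e i)
    (hE : 0 < ∑ i, e i) (s : β → ι → ℝ) (s0 : ι → ℝ) (hs0 : ∀ i, 0 ≤ s0 i)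
    (h : ∀ i, Tendsto (fun b => s b i) l (𝓝 (s0 i))) (hs : ∀ᶠ b in l, ∀ i, 0 ≤ s b i) :
    Tendsto (fun b => ∑' p : Nat.Primes, up e (s b) p) l (𝓝 (∑' p : Nat.Primes, up e s0 p)) := by
  refine tendsto_tsum_of_dominated_convergence
    (bound := fun p : Nat.Primes => C1 (∑ i, e i) * (1 / ((p:ℕ):ℝ)) ^ 2)
    (primes_summable.mul_left _) (fun p => up_tendsto l he hE s s0 hs0 h hs p.2) ?_
  filter_upwards [hs] with b hb p
  exact up_bound he hE hb p.2

lemma aF_factor {e : ι → ℝ} {p : ℕ} (hp : p.Prime) :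
    Ep e 0 p * ∏ i : ι, (1 - (p:ℝ) ^ (-1 - (0:ι → ℝ) i)) ^ ((∑ i, e i) * e i) =
    (1 - 1 / (p : ℝ)) ^ ((∑ i, e i) ^ 2) * ∑' m : ℕ, lc (∑ i, e i) m ^ 2 * (1 / (p : ℝ)) ^ m := by
  have h3 := (inv_prime hp).2
  have h1 : (0:ℝ) < 1 - 1 / (p:ℝ) := by linarith
  rw [mul_comm]
  congr 1
  · simp only [Pi.zero_apply, sub_zero, Real.rpow_neg_one]
    rw [← one_div, ← Real.rpow_sum_of_pos h1]
    congr 1
    rw [← mul_sum, pow_two]
  · unfold Ep
    refine tsum_congr fun m => ?_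
    unfold cf
    rw [Gs_zero, dA_apply, dv_prime_pow _ hp, one_div, inv_pow, div_eq_mul_inv]
    push_cast
    ring

lemma aF_hasProd {e : ι → ℝ} (he : ∀ i, 0 ≤ e i) (hE : 0 < ∑ i, e i) :
    HasProd (fun p : Nat.Primes => (1 - 1 / (p : ℝ)) ^ ((∑ i, e i) ^ 2) *
      ∑' m : ℕ, lc (∑ i, e i) m ^ 2 * (1 / (p : ℝ)) ^ m)
      (Real.exp (∑' p : Nat.Primes, up e 0 p)) := by
  have h := up_hasProd he hE (s := 0) (fun i => le_refl _)
  refine h.congr_fun ?_
  intro p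
  exact (aF_factor p.2).symm

lemma aF_eq {e : ι → ℝ} (he : ∀ i, 0 ≤ e i) (hE : 0 < ∑ i, e i) :
    aF (∑ i, e i) = Real.exp (∑' p : Nat.Primes, up e 0 p) := (aF_hasProd he hE).tprod_eq

end

theorem aF_pos {κ : ℝ} (hκ : 0 < κ) : 0 < aF κ := by
  have h := aF_eq (ι := Fin 1) (e := fun _ => κ) (fun _ => hκ.le) (by simpa using hκ)
  simp only [univ_unique, sum_const, card_singleton, one_smul] at h
  rw [h]
  positivity

theorem aF_multipliable {κ : ℝ} (hκ : 0 < κ) :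
    Multipliable (fun p : Nat.Primes => (1 - 1 / (p : ℝ)) ^ (κ ^ 2) *
      ∑' m : ℕ, lc κ m ^ 2 * (1 / (p : ℝ)) ^ m) := by
  have h := aF_hasProd (ι := Fin 1) (e := fun _ => κ) (fun _ => hκ.le) (by simpa using hκ)
  simp only [univ_unique, sum_const, card_singleton, one_smul] at h
  exact h.multipliable

theorem cf_tsum_tendsto {ι : Type*} [Fintype ι] [Nonempty ι] (e : ι → ℝ) (he : ∀ i, 0 < e i)
    (s : ι → ℝ) (hs : ∀ i, 0 < s i) :
    Tendsto (fun L : ℝ => (∑' n, cf e (fun i => s i / L) n) / L ^ ((∑ i, e i) ^ 2))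
      atTop (𝓝 (aF (∑ i, e i) * ∏ i, (s i) ^ (-((∑ i, e i) * e i)))) := by
  have hE : 0 < ∑ i, e i := sum_pos (fun i _ => he i) univ_nonempty
  have he' : ∀ i, 0 ≤ e i := fun i => (he i).le
  have h1 := up_tsum_tendsto atTop he' hE (fun (L : ℝ) i => s i / L) 0 (fun i => le_refl _)
    (fun i => tendsto_const_nhds.div_atTop tendsto_id) (by
      filter_upwards [eventually_gt_atTop 0] with L hL i
      have := hs i
      positivity)
  have h2 := h1.rexp
  rw [← aF_eq he' hE] at h2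
  have h3 : Tendsto (fun L : ℝ => ∏ i, (Zr (s i / L) / L) ^ ((∑ i, e i) * e i)) atTop
      (𝓝 (∏ i, (s i)⁻¹ ^ ((∑ i, e i) * e i))) := by
    refine tendsto_finsetProd _ fun i _ => ?_
    exact (Zr_tendsto (hs i)).rpow_const (Or.inl (inv_ne_zero (hs i).ne'))
  have h4 := h2.mul h3
  have e1 : ∏ i, (s i)⁻¹ ^ ((∑ i, e i) * e i) = ∏ i, (s i) ^ (-((∑ i, e i) * e i)) := by
    refine prod_congr rfl fun i _ => ?_
    rw [Real.rpow_neg (hs i).le, Real.inv_rpow (hs i).le]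
  rw [e1] at h4
  refine h4.congr' ?_
  filter_upwards [eventually_gt_atTop 0] with L hL
  obtain ⟨i0, -, hi0⟩ := exists_min_image (univ : Finset ι) s univ_nonempty
  have hσ : 0 < s i0 / L := div_pos (hs i0) hL
  rw [cf_tsum he' hE hσ (fun i => by
    have := hi0 i (mem_univ i)
    gcongr)]
  rw [mul_div_assoc]
  congr 1
  have e2 : L ^ ((∑ i, e i) ^ 2) = ∏ i, L ^ ((∑ i, e i) * e i) := by
    rw [← Real.rpow_sum_of_pos hL, ← mul_sum, pow_two]
  rw [e2, ← prod_div_distrib]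
  refine prod_congr rfl fun i _ => ?_
  rw [Real.div_rpow (Zr_pos (div_pos (hs i) hL)).le hL.le]

end

end Pool.Agent.H306R2
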