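import Pool.Agent.H306R2.Stone

set_option autoImplicit false

/-! Multi-dimensional Karamata theorem. -/

namespace Pool.Agent.H306R2

open Finset Filter Topology MeasureTheory

noncomputable section

/-- gamma type density `u^{m-1}/Γ(m)` on `(0,∞)`. -/
def gd (m u : ℝ) : ℝ := if 0 < u then u ^ (m - 1) / Real.Gamma m else 0

lemma gd_nonneg {m : ℝ} (hm : 0 < m) (u : ℝ) : 0 ≤ gd m u := by
  unfold gd
  have := Real.Gamma_pos_of_pos hm
  split_ifs
  · positivity
  · exact le_refl _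

lemma gd_eq_indicator (m : ℝ) (g : ℝ → ℝ) :
    (fun u => gd m u * g u) = (Set.Ioi 0).indicator (fun u => u ^ (m - 1) / Real.Gamma m * g u) := by
  funext u
  unfold gd
  by_cases h : 0 < u
  · rw [if_pos h, Set.indicator_of_mem (Set.mem_Ioi.mpr h)]
  · rw [if_neg h, Set.indicator_of_notMem (by simpa using h), zero_mul]

lemma gd_exp_integral {m s : ℝ} (hm : 0 < m) (hs : 0 < s) :
    ∫ u, gd m u * Real.exp (-(s * u)) = s ^ (-m) := by
  rw [gd_eq_indicator, integral_indicator measurableSet_Ioi]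
  have h := Real.integral_rpow_mul_exp_neg_mul_Ioi hm hs
  have h1 : ∀ u : ℝ, u ^ (m - 1) / Real.Gamma m * Real.exp (-(s * u)) =
      (Real.Gamma m)⁻¹ * (u ^ (m - 1) * Real.exp (-(s * u))) := by intro u; ring
  simp only [h1]
  rw [integral_const_mul, h]
  have := (Real.Gamma_pos_of_pos hm).ne'
  rw [Real.rpow_neg hs.le, one_div, Real.inv_rpow hs.le]
  field_simp

lemma gd_exp_integrable {m s : ℝ} (hm : 0 < m) (hs : 0 < s) :
    Integrable (fun u => gd m u * Real.exp (-(s * u))) := by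
  by_contra h
  have h1 := integral_undef h
  rw [gd_exp_integral hm hs] at h1
  have : 0 < s ^ (-m) := by positivity
  linarith

/-- the point of the cube attached to `u` -/
def Xp {r : ℕ} (u : Fin r → ℝ) : Cube r := fun i => Set.projIcc 0 1 zero_le_one (Real.exp (-u i))

lemma Xp_cont {r : ℕ} : Continuous (Xp (r := r)) := by
  unfold Xp
  exact continuous_pi fun i => continuous_projIcc.comp (by fun_prop)

lemma Xp_apply {r : ℕ} (u : Fin r → ℝ) (i : Fin r) (h : 0 ≤ u i) :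
    (Xp u i : ℝ) = Real.exp (-u i) := by
  unfold Xp
  rw [Set.coe_projIcc]
  have h1 : Real.exp (-u i) ≤ 1 := Real.exp_le_one_iff.mpr (by linarith)
  have h2 := Real.exp_pos (-u i)
  rw [min_eq_right h1, max_eq_right h2.le]

lemma mon_Xp {r : ℕ} (k : Fin r → ℕ) (u : Fin r → ℝ) (h : ∀ i, 0 ≤ u i) :
    mon k (Xp u) = ∏ i, Real.exp (-((k i : ℝ) * u i)) := by
  rw [mon_apply]
  refine prod_congr rfl fun i _ => ?_
  rw [Xp_apply u i (h i), ← Real.exp_nat_mul]
  congr 1; ring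

/-- the limit density -/
def Gd {r : ℕ} (m : Fin r → ℝ) (u : Fin r → ℝ) : ℝ := ∏ i, gd (m i) (u i)

lemma Gd_zero {r : ℕ} (m : Fin r → ℝ) (u : Fin r → ℝ) (h : ¬ ∀ i, 0 ≤ u i) : Gd m u = 0 := by
  push Not at h
  obtain ⟨i, hi⟩ := h
  unfold Gd
  apply prod_eq_zero (mem_univ i)
  unfold gd
  rw [if_neg (by linarith)]

lemma Gd_nonneg {r : ℕ} {m : Fin r → ℝ} (hm : ∀ i, 0 < m i) (u : Fin r → ℝ) : 0 ≤ Gd m u :=
  prod_nonneg fun i _ => gd_nonneg (hm i) _

lemma Gd_exp_integrable {r : ℕ} {m : Fin r → ℝ} (hm : ∀ i, 0 < m i) {s : Fin r → ℝ}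
    (hs : ∀ i, 0 < s i) : Integrable (fun u : Fin r → ℝ => Gd m u * ∏ i, Real.exp (-(s i * u i))) := by
  unfold Gd
  simp only [← prod_mul_distrib]
  exact Integrable.fintype_prod fun i => gd_exp_integrable (hm i) (hs i)

lemma Gd_exp_integral {r : ℕ} {m : Fin r → ℝ} (hm : ∀ i, 0 < m i) {s : Fin r → ℝ}
    (hs : ∀ i, 0 < s i) : ∫ u : Fin r → ℝ, Gd m u * ∏ i, Real.exp (-(s i * u i)) =
      ∏ i, (s i) ^ (-(m i)) := by
  unfold Gd
  simp only [← prod_mul_distrib]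
  rw [integral_fintype_prod_volume_eq_prod (fun i u => gd (m i) u * Real.exp (-(s i * u)))]
  exact prod_congr rfl fun i _ => gd_exp_integral (hm i) (hs i)

/-- basic integrand -/
lemma Gd_f_integrable {r : ℕ} {m : Fin r → ℝ} (hm : ∀ i, 0 < m i) (f : C(Cube r, ℝ)) :
    Integrable (fun u : Fin r → ℝ => (Gd m u * ∏ i, Real.exp (-(u i))) * f (Xp u)) := by
  have h := Gd_exp_integrable hm (s := fun _ => 1) (fun _ => one_pos)
  simp only [one_mul] at h
  refine h.mul_bdd (c := ‖f‖) ?_ ?_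
  · exact (f.continuous.comp Xp_cont).aestronglyMeasurable
  · exact Eventually.of_forall fun u => f.norm_coe_le_norm _

/-- the limit functional -/
def Lam0 {r : ℕ} (A : ℝ) (m : Fin r → ℝ) (hm : ∀ i, 0 < m i) : C(Cube r, ℝ) →ₗ[ℝ] ℝ where
  toFun f := A * ∫ u : Fin r → ℝ, (Gd m u * ∏ i, Real.exp (-(u i))) * f (Xp u)
  map_add' f g := by
    simp only [ContinuousMap.add_apply, mul_add]
    rw [integral_add (Gd_f_integrable hm f) (Gd_f_integrable hm g)]
    ring
  map_smul' a f := by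
    simp only [ContinuousMap.smul_apply, smul_eq_mul, RingHom.id_apply]
    have : ∀ u : Fin r → ℝ, (Gd m u * ∏ i, Real.exp (-(u i))) * (a * f (Xp u)) =
      a * ((Gd m u * ∏ i, Real.exp (-(u i))) * f (Xp u)) := by intro u; ring
    simp only [this]
    rw [integral_const_mul]
    ring

lemma Lam0_apply {r : ℕ} (A : ℝ) (m : Fin r → ℝ) (hm : ∀ i, 0 < m i) (f : C(Cube r, ℝ)) :
    Lam0 A m hm f = A * ∫ u : Fin r → ℝ, (Gd m u * ∏ i, Real.exp (-(u i))) * f (Xp u) := rfl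

lemma Lam0_bound {r : ℕ} {A : ℝ} (hA : 0 ≤ A) (m : Fin r → ℝ) (hm : ∀ i, 0 < m i)
    (f : C(Cube r, ℝ)) : |Lam0 A m hm f| ≤ ‖f‖ * Lam0 A m hm 1 := by
  rw [Lam0_apply, Lam0_apply, abs_mul, abs_of_nonneg hA]
  have h1 : |∫ u : Fin r → ℝ, (Gd m u * ∏ i, Real.exp (-(u i))) * f (Xp u)| ≤
      ∫ u : Fin r → ℝ, ‖f‖ * ((Gd m u * ∏ i, Real.exp (-(u i))) * (1 : C(Cube r, ℝ)) (Xp u)) := by
    rw [← Real.norm_eq_abs]
    refine norm_integral_le_of_norm_le ((Gd_f_integrable hm 1).const_mul _) ?_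
    refine Eventually.of_forall fun u => ?_
    have h2 := Gd_nonneg hm u
    have h3 : 0 ≤ ∏ i, Real.exp (-(u i)) := prod_nonneg fun i _ => (Real.exp_pos _).le
    rw [norm_mul, Real.norm_of_nonneg (mul_nonneg h2 h3)]
    have h4 := f.norm_coe_le_norm (Xp u)
    simp only [ContinuousMap.one_apply, mul_one]
    rw [mul_comm]
    gcongr
  rw [integral_const_mul] at h1
  calc A * _ ≤ A * _ := mul_le_mul_of_nonneg_left h1 hA
    _ = _ := by ring

/-- logarithmic position -/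
def pos {r : ℕ} (L : ℝ) (b : Fin r → ℕ) : Fin r → ℝ := fun i => Real.log (b i) / L

lemma pos_nonneg {r : ℕ} {L : ℝ} (hL : 0 < L) (b : Fin r → ℕ) (i : Fin r) : 0 ≤ pos L b i :=
  div_nonneg (Real.log_natCast_nonneg _) hL.le

lemma w_rpow {r : ℕ} (w : (Fin r → ℕ) → ℝ) (hw0 : ∀ b, (∃ i, b i = 0) → w b = 0) (L : ℝ)
    (s : Fin r → ℝ) (b : Fin r → ℕ) :
    w b * ∏ i, (b i : ℝ) ^ (-(s i / L)) = w b * ∏ i, Real.exp (-(s i * pos L b i)) := by
  by_cases h : ∃ i, b i = 0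
  · rw [hw0 b h, zero_mul, zero_mul]
  · push Not at h
    congr 1
    refine prod_congr rfl fun i _ => ?_
    have : (0:ℝ) < b i := by exact_mod_cast Nat.pos_of_ne_zero (h i)
    rw [Real.rpow_def_of_pos this]
    unfold pos
    congr 1; ring

/-- hypotheses package -/
structure KH (r : ℕ) (w : (Fin r → ℕ) → ℝ) : Prop where
  hw : ∀ b, 0 ≤ w b
  hw0 : ∀ b, (∃ i, b i = 0) → w b = 0
  hsum : ∀ s : Fin r → ℝ, (∀ i, 0 < s i) → Summable (fun b => w b * ∏ i, (b i : ℝ) ^ (-(s i)))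

lemma KH.summable {r : ℕ} {w : (Fin r → ℕ) → ℝ} (H : KH r w) {L : ℝ} (hL : 0 < L)
    {s : Fin r → ℝ} (hs : ∀ i, 0 < s i) :
    Summable (fun b => w b * ∏ i, Real.exp (-(s i * pos L b i))) := by
  refine (H.hsum (fun i => s i / L) (fun i => div_pos (hs i) hL)).congr fun b => ?_
  exact w_rpow w H.hw0 L s b

lemma KH.f_summable {r : ℕ} {w : (Fin r → ℕ) → ℝ} (H : KH r w) {L : ℝ} (hL : 0 < L)
    (f : C(Cube r, ℝ)) :
    Summable (fun b => (w b * ∏ i, Real.exp (-(pos L b i))) * f (Xp (pos L b))) := by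
  have h := H.summable hL (s := fun _ => 1) (fun _ => one_pos)
  simp only [one_mul] at h
  refine Summable.of_norm_bounded (h.mul_right ‖f‖) fun b => ?_
  have h1 := H.hw b
  have h2 : 0 ≤ ∏ i, Real.exp (-(pos L b i)) := prod_nonneg fun i _ => (Real.exp_pos _).le
  rw [norm_mul, Real.norm_of_nonneg (mul_nonneg h1 h2)]
  have h4 := f.norm_coe_le_norm (Xp (pos L b))
  gcongr

/-- the functional at level `L` -/
def LamL {r : ℕ} {w : (Fin r → ℕ) → ℝ} (H : KH r w) (K : ℝ) {L : ℝ} (hL : 0 < L) :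
    C(Cube r, ℝ) →ₗ[ℝ] ℝ where
  toFun f := (∑' b, (w b * ∏ i, Real.exp (-(pos L b i))) * f (Xp (pos L b))) / L ^ K
  map_add' f g := by
    simp only [ContinuousMap.add_apply, mul_add]
    rw [(H.f_summable hL f).tsum_add (H.f_summable hL g)]
    ring
  map_smul' a f := by
    simp only [ContinuousMap.smul_apply, smul_eq_mul, RingHom.id_apply]
    have : ∀ b, (w b * ∏ i, Real.exp (-(pos L b i))) * (a * f (Xp (pos L b))) =
      a * ((w b * ∏ i, Real.exp (-(pos L b i))) * f (Xp (pos L b))) := by intro u; ring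
    simp only [this]
    rw [tsum_mul_left]
    ring

lemma LamL_apply {r : ℕ} {w : (Fin r → ℕ) → ℝ} (H : KH r w) (K : ℝ) {L : ℝ} (hL : 0 < L)
    (f : C(Cube r, ℝ)) : LamL H K hL f =
      (∑' b, (w b * ∏ i, Real.exp (-(pos L b i))) * f (Xp (pos L b))) / L ^ K := rfl

lemma LamL_bound {r : ℕ} {w : (Fin r → ℕ) → ℝ} (H : KH r w) (K : ℝ) {L : ℝ} (hL : 0 < L)
    (f : C(Cube r, ℝ)) : |LamL H K hL f| ≤ ‖f‖ * LamL H K hL 1 := by
  rw [LamL_apply, LamL_apply, abs_div, abs_of_nonneg (by positivity : 0 ≤ L ^ K), ← mul_div_assoc]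
  gcongr
  rw [← tsum_mul_left, ← Real.norm_eq_abs]
  refine tsum_of_norm_bounded ((H.f_summable hL 1).mul_left _).hasSum fun b => ?_
  have h1 := H.hw b
  have h2 : 0 ≤ ∏ i, Real.exp (-(pos L b i)) := prod_nonneg fun i _ => (Real.exp_pos _).le
  rw [norm_mul, Real.norm_of_nonneg (mul_nonneg h1 h2)]
  have h4 := f.norm_coe_le_norm (Xp (pos L b))
  simp only [ContinuousMap.one_apply, mul_one]
  rw [mul_comm]
  gcongr

theorem karamata_cube {r : ℕ} {w : (Fin r → ℕ) → ℝ} (H : KH r w)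
    (K A : ℝ) (hA : 0 ≤ A) (m : Fin r → ℝ) (hm : ∀ i, 0 < m i)
    (hlim : ∀ s : Fin r → ℝ, (∀ i, 0 < s i) →
      Tendsto (fun L : ℝ => (∑' b : Fin r → ℕ, w b * ∏ i, (b i : ℝ) ^ (-(s i / L))) / L ^ K)
        atTop (𝓝 (A * ∏ i, (s i) ^ (-(m i)))))
    (f : C(Cube r, ℝ)) :
    Tendsto (fun L : ℝ => (∑' b, (w b * ∏ i, Real.exp (-(pos L b i))) * f (Xp (pos L b))) / L ^ K)
      atTop (𝓝 (Lam0 A m hm f)) := by
  have hmax : ∀ L : ℝ, 0 < max L 1 := fun L => lt_max_of_lt_right one_pos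
  have h := stone_tendsto atTop (fun L : ℝ => LamL H K (hmax L)) (Lam0 A m hm)
    (fun L f => LamL_bound H K (hmax L) f) (fun f => Lam0_bound hA m hm f) ?_ f
  · refine h.congr' ?_
    filter_upwards [eventually_ge_atTop 1] with L hL
    rw [LamL_apply, max_eq_left hL]
  · intro k
    have h1 : Lam0 A m hm (mon k) = A * ∏ i, ((k i : ℝ) + 1) ^ (-(m i)) := by
      rw [Lam0_apply, ← Gd_exp_integral hm (s := fun i => (k i : ℝ) + 1) (fun i => by positivity)]
      congr 2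
      funext u
      by_cases hu : ∀ i, 0 ≤ u i
      · rw [mon_Xp k u hu, mul_assoc, ← prod_mul_distrib]
        congr 1
        refine prod_congr rfl fun i _ => ?_
        rw [← Real.exp_add]
        congr 1; ring
      · rw [Gd_zero m u hu]; simp
    rw [h1]
    refine (hlim (fun i => (k i : ℝ) + 1) (fun i => by positivity)).congr' ?_
    filter_upwards [eventually_ge_atTop 1] with L hL
    rw [LamL_apply, max_eq_left hL]
    have hL0 : 0 < L := by linarith
    congr 1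
    refine tsum_congr fun b => ?_
    rw [w_rpow w H.hw0, mon_Xp k _ (pos_nonneg hL0 b), mul_assoc, ← prod_mul_distrib]
    congr 1
    refine prod_congr rfl fun i _ => ?_
    rw [← Real.exp_add]
    congr 1; ring

end

end Pool.Agent.H306R2
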