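import Pool.Agent.H306R2.AF

set_option autoImplicit false

/-! Generalised divisor functions. -/

namespace Pool.Agent.H306R2

open Finset Filter Topology

noncomputable section

lemma lc_zero (α : ℝ) : lc α 0 = 1 := by simp [lc]

lemma lc_succ (α : ℝ) (m : ℕ) : lc α (m + 1) = lc α m * ((α + m) / ((m : ℝ) + 1)) := by
  unfold lc
  rw [prod_range_succ]

lemma lc_one (α : ℝ) : lc α 1 = α := by
  rw [lc_succ, lc_zero]; simp

lemma lc_succ' (α : ℝ) (m : ℕ) : ((m : ℝ) + 1) * lc α (m + 1) = (α + m) * lc α m := by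
  rw [lc_succ]
  have : (m : ℝ) + 1 ≠ 0 := by positivity
  field_simp

lemma lc_nonneg {α : ℝ} (hα : 0 ≤ α) (m : ℕ) : 0 ≤ lc α m := by
  unfold lc
  exact prod_nonneg fun i _ => by positivity

lemma lc_mono {α β : ℝ} (hα : 0 ≤ α) (h : α ≤ β) (m : ℕ) : lc α m ≤ lc β m := by
  unfold lc
  refine prod_le_prod (fun i _ => by positivity) fun i _ => ?_
  gcongr

/-- Vandermonde -/
lemma lc_conv (α β : ℝ) (m : ℕ) :
    ∑ x ∈ antidiagonal m, lc α x.1 * lc β x.2 = lc (α + β) m := by
  induction m with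
  | zero => simp [lc_zero]
  | succ m ih =>
    have hm : (m : ℝ) + 1 ≠ 0 := by positivity
    have h1 : ((m : ℝ) + 1) * ∑ x ∈ antidiagonal (m + 1), lc α x.1 * lc β x.2 =
        (α + β + m) * ∑ x ∈ antidiagonal m, lc α x.1 * lc β x.2 := by
      have h2 : ((m : ℝ) + 1) * ∑ x ∈ antidiagonal (m + 1), lc α x.1 * lc β x.2 =
          ∑ x ∈ antidiagonal (m + 1), (x.1 : ℝ) * lc α x.1 * lc β x.2 +
          ∑ x ∈ antidiagonal (m + 1), lc α x.1 * ((x.2 : ℝ) * lc β x.2) := by
        rw [mul_sum, ← sum_add_distrib]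
        refine sum_congr rfl fun x hx => ?_
        rw [HasAntidiagonal.mem_antidiagonal] at hx
        have : (x.1 : ℝ) + x.2 = m + 1 := by exact_mod_cast hx
        rw [← this]
        ring
      rw [h2, Nat.sum_antidiagonal_succ, Nat.sum_antidiagonal_succ']
      simp only [Nat.cast_zero, zero_mul, mul_zero, zero_add, add_zero]
      rw [← sum_add_distrib, mul_sum]
      refine sum_congr rfl fun x hx => ?_
      rw [HasAntidiagonal.mem_antidiagonal] at hx
      have hx' : (x.1 : ℝ) + x.2 = m := by exact_mod_cast hx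
      have e1 := lc_succ' α x.1
      have e2 := lc_succ' β x.2
      push_cast
      rw [e1, e2, ← hx']
      ring
    have h3 := lc_succ' (α + β) m
    rw [ih] at h1
    have h4 : ((m : ℝ) + 1) * ∑ x ∈ antidiagonal (m + 1), lc α x.1 * lc β x.2 =
      ((m : ℝ) + 1) * lc (α + β) (m + 1) := by rw [h1, h3]
    exact mul_left_cancel₀ hm h4

/-- the generalised divisor function as an arithmetic function -/
def dA (α : ℝ) : ArithmeticFunction ℝ := ⟨dv α, by simp [dv]⟩

lemma dA_apply (α : ℝ) (n : ℕ) : dA α n = dv α n := rfl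

lemma dv_one (α : ℝ) : dv α 1 = 1 := by simp [dv]

lemma dv_prime_pow (α : ℝ) {p : ℕ} (hp : p.Prime) (m : ℕ) : dv α (p ^ m) = lc α m := by
  unfold dv
  rw [if_neg (pow_ne_zero _ hp.ne_zero), hp.factorization_pow]
  exact Finsupp.prod_single_index (lc_zero α)

lemma dA_mult (α : ℝ) : (dA α).IsMultiplicative := by
  rw [ArithmeticFunction.IsMultiplicative.iff_ne_zero]
  refine ⟨dv_one α, fun {m n} hm hn hmn => ?_⟩
  simp only [dA_apply, dv, if_neg hm, if_neg hn, if_neg (mul_ne_zero hm hn)]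
  rw [Nat.factorization_mul_of_coprime hmn]
  rw [Finsupp.prod_add_index_of_disjoint]
  exact hmn.disjoint_primeFactors

lemma mul_prime_pow (A B : ArithmeticFunction ℝ) {p : ℕ} (hp : p.Prime) (m : ℕ) :
    (A * B) (p ^ m) = ∑ x ∈ antidiagonal m, A (p ^ x.1) * B (p ^ x.2) := by
  rw [ArithmeticFunction.mul_apply]
  rw [Nat.sum_divisorsAntidiagonal (fun i j => A i * B j), Nat.divisors_prime_pow hp, sum_map]
  simp only [Function.Embedding.coeFn_mk]
  rw [Nat.sum_antidiagonal_eq_sum_range_succ (fun i j => A (p ^ i) * B (p ^ j))]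
  refine sum_congr rfl fun i hi => ?_
  rw [mem_range] at hi
  rw [Nat.pow_div (by omega) hp.pos]

lemma dA_mul (α β : ℝ) : dA α * dA β = dA (α + β) := by
  rw [ArithmeticFunction.IsMultiplicative.eq_iff_eq_on_prime_powers _ ((dA_mult α).mul (dA_mult β)) _
    (dA_mult (α + β))]
  intro p m hp
  rw [mul_prime_pow _ _ hp]
  simp only [dA_apply, dv_prime_pow _ hp]
  exact lc_conv α β m

lemma dA_zero : dA 0 = 1 := by
  rw [ArithmeticFunction.IsMultiplicative.eq_iff_eq_on_prime_powers _ (dA_mult 0) _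
    ArithmeticFunction.isMultiplicative_one]
  intro p m hp
  rw [dA_apply, dv_prime_pow _ hp, ArithmeticFunction.one_apply]
  rcases Nat.eq_zero_or_pos m with h | h
  · subst h; simp [lc_zero]
  · rw [if_neg (by
      intro h2
      have := Nat.one_lt_pow (by omega : m ≠ 0) hp.one_lt
      omega)]
    unfold lc
    apply prod_eq_zero (i := 0) (mem_range.mpr h)
    simp

lemma lc_one_left (m : ℕ) : lc 1 m = 1 := by
  unfold lc
  apply prod_eq_one
  intro i _
  have : (i : ℝ) + 1 ≠ 0 := by positivity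
  rw [add_comm, div_self this]

lemma dA_one : dA 1 = zR := by
  have hz : zR.IsMultiplicative := by
    unfold zR
    exact ArithmeticFunction.isMultiplicative_zeta.natCast
  rw [ArithmeticFunction.IsMultiplicative.eq_iff_eq_on_prime_powers _ (dA_mult 1) _ hz]
  intro p m hp
  rw [dA_apply, dv_prime_pow _ hp, lc_one_left]
  simp only [zR, ArithmeticFunction.natCoe_apply, ArithmeticFunction.zeta_apply]
  rw [if_neg (pow_ne_zero _ hp.ne_zero)]
  simp

lemma dA_nat (j : ℕ) : dA j = zR ^ j := by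
  induction j with
  | zero => rw [Nat.cast_zero, dA_zero, pow_zero]
  | succ j ih => rw [Nat.cast_succ, ← dA_mul, ih, dA_one, pow_succ]

lemma dv_nonneg {α : ℝ} (hα : 0 ≤ α) (n : ℕ) : 0 ≤ dv α n := by
  unfold dv
  split_ifs
  · exact le_refl _
  · exact Finset.prod_nonneg fun p _ => lc_nonneg hα _

lemma dv_mono {α β : ℝ} (hα : 0 ≤ α) (h : α ≤ β) (n : ℕ) : dv α n ≤ dv β n := by
  unfold dv
  split_ifs
  · exact le_refl _
  · exact Finset.prod_le_prod (fun p _ => lc_nonneg hα _) fun p _ => lc_mono hα h _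

lemma PB_dA {α : ℝ} (hα : 0 ≤ α) {J : ℕ} (hJ : α ≤ J) : PB (dA α) J := by
  intro n
  rw [dA_apply, abs_of_nonneg (dv_nonneg hα n)]
  refine (dv_mono hα hJ n).trans ?_
  have h1 := PB_zR.pow J n
  rw [← dA_nat] at h1
  have h2 := (le_abs_self _).trans h1
  rw [zero_add, mul_one, dA_apply] at h2
  exact h2

/-- gamma function expression -/
lemma lc_eq_gamma {α : ℝ} (hα : 0 < α) (m : ℕ) :
    lc α m = Real.Gamma (m + α) / (m.factorial * Real.Gamma α) := by
  have hG : 0 < Real.Gamma α := Real.Gamma_pos_of_pos hα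
  induction m with
  | zero => rw [lc_zero]; simp; rw [div_self hG.ne']
  | succ m ih =>
    rw [lc_succ, ih]
    have h1 : ((m + 1 : ℕ) : ℝ) + α = (m + α) + 1 := by push_cast; ring
    have h2 : (m : ℝ) + α ≠ 0 := by positivity
    rw [h1, Real.Gamma_add_one h2, Nat.factorial_succ]
    push_cast
    have h3 : (m.factorial : ℝ) ≠ 0 := by positivity
    have h4 : (m : ℝ) + 1 ≠ 0 := by positivity
    field_simp
    ring

end

end Pool.Agent.H306R2
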