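import Pool.Agent.H306R2.Karamata2

set_option autoImplicit false

/-! One-dimensional integrals of the limit density and the box bound. -/

namespace Pool.Agent.H306R2

open Finset Filter Topology MeasureTheory

noncomputable section

/-- sharp cut-off -/
def ct (B u : ℝ) : ℝ := if u ≤ B then 1 else 0

lemma ct_nonneg (B u : ℝ) : 0 ≤ ct B u := by unfold ct; split_ifs <;> norm_num

lemma ct_le_one (B u : ℝ) : ct B u ≤ 1 := by unfold ct; split_ifs <;> norm_num

lemma ct_meas (B : ℝ) : Measurable (ct B) := by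
  unfold ct
  exact Measurable.ite measurableSet_Iic measurable_const measurable_const

lemma gd_meas (m : ℝ) : Measurable (gd m) := by
  unfold gd
  exact Measurable.ite measurableSet_Ioi (by fun_prop) measurable_const

lemma gd_ct_eq (m B : ℝ) : (fun u => gd m u * ct B u) =
    (Set.Ioc 0 B).indicator (fun u => (Real.Gamma m)⁻¹ * u ^ (m - 1)) := by
  funext u
  unfold gd ct
  by_cases h : u ∈ Set.Ioc 0 B
  · rw [Set.indicator_of_mem h, if_pos h.1, if_pos h.2]; ring
  · rw [Set.indicator_of_notMem h]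
    rw [Set.mem_Ioc, not_and_or] at h
    rcases h with h | h
    · rw [if_neg h, zero_mul]
    · rw [if_neg h, mul_zero]

lemma gd_ct_integrable {m : ℝ} (hm : 0 < m) (B : ℝ) : Integrable (fun u => gd m u * ct B u) := by
  rw [gd_ct_eq]
  rw [integrable_indicator_iff measurableSet_Ioc]
  rcases le_or_gt 0 B with h | h
  · have h1 := intervalIntegral.intervalIntegrable_rpow' (a := 0) (b := B) (r := m - 1) (by linarith)
    rw [intervalIntegrable_iff_integrableOn_Ioc_of_le h] at h1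
    exact h1.const_mul _
  · rw [Set.Ioc_eq_empty (by linarith)]
    simp

lemma gd_ct_integral {m : ℝ} (hm : 0 < m) (B : ℝ) :
    ∫ u, gd m u * ct B u = (max B 0) ^ m / Real.Gamma (m + 1) := by
  rw [gd_ct_eq, integral_indicator measurableSet_Ioc, integral_const_mul]
  have hG := Real.Gamma_pos_of_pos hm
  rw [Real.Gamma_add_one hm.ne']
  rcases le_or_gt 0 B with h | h
  · rw [← intervalIntegral.integral_of_le h, integral_rpow (Or.inl (by linarith)), max_eq_left h]
    rw [show m - 1 + 1 = m by ring, Real.zero_rpow hm.ne']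
    field_simp
    ring
  · rw [Set.Ioc_eq_empty (by linarith), max_eq_right h.le, Real.zero_rpow hm.ne']
    simp

lemma id_gd {m : ℝ} (hm : 0 < m) (u : ℝ) : u * gd m u = m * gd (m + 1) u := by
  unfold gd
  have hG := Real.Gamma_pos_of_pos hm
  split_ifs with h
  · rw [Real.Gamma_add_one hm.ne', show m + 1 - 1 = (m - 1) + 1 by ring, Real.rpow_add_one h.ne']
    field_simp
  · ring

lemma id_gd_ct_integrable {m : ℝ} (hm : 0 < m) (B : ℝ) :
    Integrable (fun u => u * (gd m u * ct B u)) := by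
  have h := (gd_ct_integrable (m := m + 1) (by linarith) B).const_mul m
  refine h.congr (Eventually.of_forall fun u => ?_)
  simp only
  rw [← mul_assoc, ← mul_assoc, id_gd hm]

lemma id_gd_ct_integral {m : ℝ} (hm : 0 < m) {B : ℝ} (hB : 0 < B) :
    ∫ u, u * (gd m u * ct B u) = (B * (m / (m + 1))) * (B ^ m / Real.Gamma (m + 1)) := by
  have h1 : ∀ u, u * (gd m u * ct B u) = m * (gd (m + 1) u * ct B u) := by
    intro u
    rw [← mul_assoc, ← mul_assoc, id_gd hm]
  simp only [h1]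
  rw [integral_const_mul, gd_ct_integral (by linarith), max_eq_left hB.le,
    Real.Gamma_add_one (s := m + 1) (by linarith), Real.rpow_add_one hB.ne']
  have hG := Real.Gamma_pos_of_pos (by linarith : 0 < m + 1)
  field_simp

/-- smooth cut-off: `1` for `x ≤ a`, `0` for `x ≥ a + δ`. -/
def sc (a δ x : ℝ) : ℝ := max 0 (min 1 ((a + δ - x) / δ))

lemma sc_cont (a δ : ℝ) : Continuous (sc a δ) := by
  unfold sc
  fun_prop

lemma sc_nonneg (a δ x : ℝ) : 0 ≤ sc a δ x := le_max_left _ _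

lemma sc_le_one (a δ x : ℝ) : sc a δ x ≤ 1 := max_le (by norm_num) (min_le_left _ _)

lemma sc_eq_one {a δ x : ℝ} (hδ : 0 < δ) (h : x ≤ a) : sc a δ x = 1 := by
  unfold sc
  have : 1 ≤ (a + δ - x) / δ := by rw [le_div_iff₀ hδ]; linarith
  rw [min_eq_left this]; norm_num

lemma sc_eq_zero {a δ x : ℝ} (hδ : 0 < δ) (h : a + δ ≤ x) : sc a δ x = 0 := by
  unfold sc
  have : (a + δ - x) / δ ≤ 0 := div_nonpos_of_nonpos_of_nonneg (by linarith) hδ.le
  exact max_eq_left ((min_le_right _ _).trans this)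

lemma ct_le_sc {a δ : ℝ} (hδ : 0 < δ) (x : ℝ) : ct a x ≤ sc a δ x := by
  unfold ct
  split_ifs with h
  · rw [sc_eq_one hδ h]
  · exact sc_nonneg _ _ _

lemma sc_le_ct {a δ : ℝ} (hδ : 0 < δ) (x : ℝ) : sc a δ x ≤ ct (a + δ) x := by
  unfold ct
  split_ifs with h
  · exact sc_le_one _ _ _
  · rw [sc_eq_zero hδ (by linarith)]

lemma gd_sc_integrable {m : ℝ} (hm : 0 < m) (a : ℝ) {δ : ℝ} (hδ : 0 < δ) :
    Integrable (fun u => gd m u * sc a δ u) := by
  refine (gd_ct_integrable hm (a + δ)).mono' ?_ ?_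
  · exact ((gd_meas m).mul (sc_cont a δ).measurable).aestronglyMeasurable
  · refine Eventually.of_forall fun u => ?_
    rw [Real.norm_of_nonneg (mul_nonneg (gd_nonneg hm u) (sc_nonneg _ _ _))]
    exact mul_le_mul_of_nonneg_left (sc_le_ct hδ u) (gd_nonneg hm u)

lemma gd_sc_le {m : ℝ} (hm : 0 < m) {a : ℝ} {δ : ℝ} (hδ : 0 < δ) :
    ∫ u, gd m u * sc a δ u ≤ (max (a + δ) 0) ^ m / Real.Gamma (m + 1) := by
  rw [← gd_ct_integral hm]
  exact integral_mono (gd_sc_integrable hm a hδ) (gd_ct_integrable hm _)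
    fun u => mul_le_mul_of_nonneg_left (sc_le_ct hδ u) (gd_nonneg hm u)

lemma gd_sc_ge {m : ℝ} (hm : 0 < m) {a : ℝ} {δ : ℝ} (hδ : 0 < δ) :
    (max a 0) ^ m / Real.Gamma (m + 1) ≤ ∫ u, gd m u * sc a δ u := by
  rw [← gd_ct_integral hm]
  exact integral_mono (gd_ct_integrable hm _) (gd_sc_integrable hm a hδ)
    fun u => mul_le_mul_of_nonneg_left (ct_le_sc hδ u) (gd_nonneg hm u)

/-- box upper bound for the limit measure -/
lemma box_integral_le {r : ℕ} {m : Fin r → ℝ} (hm : ∀ i, 0 < m i) {β : Fin r → ℝ}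
    (hβ : ∀ i, 0 < β i) {δ : ℝ} (hδ : 0 < δ) :
    ∫ u : Fin r → ℝ, Gd m u * ∏ i, sc (β i) δ (u i) ≤
      ∏ i, (β i + δ) ^ (m i) / Real.Gamma (m i + 1) := by
  unfold Gd
  simp only [← prod_mul_distrib]
  rw [integral_fintype_prod_volume_eq_prod (fun i u => gd (m i) u * sc (β i) δ u)]
  refine prod_le_prod (fun i _ => integral_nonneg fun u =>
    mul_nonneg (gd_nonneg (hm i) u) (sc_nonneg _ _ _)) fun i _ => ?_
  have h := gd_sc_le (hm i) (a := β i) hδ
  have := hβ i
  rwa [max_eq_left (by linarith)] at h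

end

end Pool.Agent.H306R2
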