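import Pool.Agent.H306R2.Karamata

set_option autoImplicit false

/-! Multi-dimensional Karamata theorem: test functions. -/

namespace Pool.Agent.H306R2

open Finset Filter Topology MeasureTheory

noncomputable section

/-- test function transported to the cube -/
def tf {r : ℕ} (φ : (Fin r → ℝ) → ℝ) (hφ : Continuous φ) (M : ℝ) : C(Cube r, ℝ) :=
  ⟨fun x => φ (fun i => -Real.log (max (x i : ℝ) (Real.exp (-M)))) *
      ∏ i, (max (x i : ℝ) (Real.exp (-M)))⁻¹, by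
    have h0 : ∀ y : ℝ, max y (Real.exp (-M)) ≠ 0 := fun y =>
      (lt_max_of_lt_right (Real.exp_pos _)).ne'
    refine Continuous.mul (hφ.comp ?_) ?_
    · refine continuous_pi fun i => ?_
      refine Continuous.neg ?_
      exact Continuous.log (by fun_prop) fun x => h0 _
    · refine continuous_finsetProd _ fun i _ => ?_
      exact Continuous.inv₀ (by fun_prop) fun x => h0 _⟩

lemma tf_Xp {r : ℕ} (φ : (Fin r → ℝ) → ℝ) (hφ : Continuous φ) (M : ℝ)
    (h0 : ∀ u : Fin r → ℝ, (∀ i, 0 ≤ u i) → (∃ i, M ≤ u i) → φ u = 0) (hM : 0 ≤ M)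
    (u : Fin r → ℝ) (hu : ∀ i, 0 ≤ u i) :
    (∏ i, Real.exp (-(u i))) * tf φ hφ M (Xp u) = φ u := by
  have e1 : ∀ i, max (Xp u i : ℝ) (Real.exp (-M)) = Real.exp (-(min (u i) M)) := by
    intro i
    rw [Xp_apply u i (hu i)]
    rcases le_total (u i) M with h | h
    · rw [min_eq_left h, max_eq_left (Real.exp_le_exp.mpr (by linarith))]
    · rw [min_eq_right h, max_eq_right (Real.exp_le_exp.mpr (by linarith))]
  have e2 : tf φ hφ M (Xp u) = φ (fun i => min (u i) M) * ∏ i, Real.exp (min (u i) M) := by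
    show φ (fun i => -Real.log (max (Xp u i : ℝ) (Real.exp (-M)))) *
      ∏ i, (max (Xp u i : ℝ) (Real.exp (-M)))⁻¹ = _
    simp only [e1, Real.log_exp, neg_neg]
    congr 1
    refine prod_congr rfl fun i _ => ?_
    rw [← Real.exp_neg, neg_neg]
  rw [e2]
  by_cases hc : ∃ i, M ≤ u i
  · have h1 : φ (fun i => min (u i) M) = 0 := by
      apply h0 _ (fun i => le_min (hu i) hM)
      obtain ⟨i, hi⟩ := hc
      exact ⟨i, by rw [min_eq_right hi]⟩
    rw [h1, h0 u hu hc]; ring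
  · push Not at hc
    have e3 : (fun i => min (u i) M) = u := by
      funext i
      exact min_eq_left (hc i).le
    rw [e3]
    simp only [fun i => congrFun e3 i]
    rw [mul_left_comm, ← prod_mul_distrib]
    have : ∏ i, Real.exp (-(u i)) * Real.exp (u i) = 1 := by
      apply prod_eq_one
      intro i _
      rw [← Real.exp_add]; simp
    rw [this, mul_one]

lemma tf_integrable {r : ℕ} (φ : (Fin r → ℝ) → ℝ) (hφ : Continuous φ) (M : ℝ)
    (h0 : ∀ u : Fin r → ℝ, (∀ i, 0 ≤ u i) → (∃ i, M ≤ u i) → φ u = 0) (hM : 0 ≤ M)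
    {m : Fin r → ℝ} (hm : ∀ i, 0 < m i) : Integrable (fun u : Fin r → ℝ => Gd m u * φ u) := by
  refine (Gd_f_integrable hm (tf φ hφ M)).congr (Eventually.of_forall fun u => ?_)
  simp only
  by_cases hu : ∀ i, 0 ≤ u i
  · rw [mul_assoc, tf_Xp φ hφ M h0 hM u hu]
  · rw [Gd_zero m u hu]; ring

lemma tf_summable {r : ℕ} {w : (Fin r → ℕ) → ℝ} (H : KH r w)
    (φ : (Fin r → ℝ) → ℝ) (hφ : Continuous φ) (M : ℝ)
    (h0 : ∀ u : Fin r → ℝ, (∀ i, 0 ≤ u i) → (∃ i, M ≤ u i) → φ u = 0) (hM : 0 ≤ M)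
    {L : ℝ} (hL : 0 < L) : Summable (fun b => w b * φ (pos L b)) := by
  refine (H.f_summable hL (tf φ hφ M)).congr fun b => ?_
  rw [mul_assoc, tf_Xp φ hφ M h0 hM _ (pos_nonneg hL b)]

theorem karamata {r : ℕ} {w : (Fin r → ℕ) → ℝ} (H : KH r w)
    (K A : ℝ) (hA : 0 ≤ A) (m : Fin r → ℝ) (hm : ∀ i, 0 < m i)
    (hlim : ∀ s : Fin r → ℝ, (∀ i, 0 < s i) →
      Tendsto (fun L : ℝ => (∑' b : Fin r → ℕ, w b * ∏ i, (b i : ℝ) ^ (-(s i / L))) / L ^ K)
        atTop (𝓝 (A * ∏ i, (s i) ^ (-(m i)))))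
    (φ : (Fin r → ℝ) → ℝ) (hφ : Continuous φ) (M : ℝ)
    (h0 : ∀ u : Fin r → ℝ, (∀ i, 0 ≤ u i) → (∃ i, M ≤ u i) → φ u = 0) (hM : 0 ≤ M) :
    Tendsto (fun L : ℝ => (∑' b, w b * φ (pos L b)) / L ^ K)
      atTop (𝓝 (A * ∫ u : Fin r → ℝ, Gd m u * φ u)) := by
  have h := karamata_cube H K A hA m hm hlim (tf φ hφ M)
  rw [Lam0_apply] at h
  have e1 : (fun u : Fin r → ℝ => (Gd m u * ∏ i, Real.exp (-(u i))) * tf φ hφ M (Xp u)) =
      fun u => Gd m u * φ u := by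
    funext u
    by_cases hu : ∀ i, 0 ≤ u i
    · rw [mul_assoc, tf_Xp φ hφ M h0 hM u hu]
    · rw [Gd_zero m u hu]; ring
  rw [e1] at h
  refine h.congr' ?_
  filter_upwards [eventually_gt_atTop 0] with L hL
  congr 1
  refine tsum_congr fun b => ?_
  rw [mul_assoc, tf_Xp φ hφ M h0 hM _ (pos_nonneg hL b)]

end

end Pool.Agent.H306R2
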