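import Pool.Agent.H306R2.Region
import Pool.Agent.H306R2.Tuple

set_option autoImplicit false

/-! Asymptotic bounds for sums over tuples. -/

namespace Pool.Agent.H306R2

open Finset Filter Topology MeasureTheory

noncomputable section

lemma wt_nonneg {r : ℕ} {κ : ℝ} (hκ : 0 ≤ κ) {e : Fin r → ℝ} (he : ∀ i, 0 ≤ e i) (b : Fin r → ℕ) :
    0 ≤ wt κ e b := by
  unfold wt
  exact mul_nonneg (dv_nonneg hκ _) (prod_nonneg fun i _ => div_nonneg (dv_nonneg (he i) _) (by positivity))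

lemma wt_KH {r : ℕ} (e : Fin r → ℝ) (he : ∀ i, 0 < e i) (hr : 0 < r) :
    KH r (wt (∑ i, e i) e) where
  hw b := wt_nonneg (sum_nonneg fun i _ => (he i).le) (fun i => (he i).le) b
  hw0 b := by
    rintro ⟨i, hi⟩
    unfold wt
    rw [prod_eq_zero (mem_univ i) hi]
    simp [dv]
  hsum s hs := wt_summable e he hr s hs

theorem wt_upper {r : ℕ} (e : Fin r → ℝ) (he : ∀ i, 0 < e i) (hr : 0 < r) (β : Fin r → ℝ)
    (hβ : ∀ i, 0 < β i) (C : ℝ)
    (hC : aF (∑ i, e i) * ∏ i, (β i) ^ ((∑ i, e i) * e i) / Real.Gamma ((∑ i, e i) * e i + 1) < C) :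
    ∀ᶠ L : ℝ in atTop, ∀ F : (Fin r → ℕ) → ℝ, Summable F →
      (∀ b, (∀ i, pos L b i ≤ β i) → F b ≤ wt (∑ i, e i) e b) →
      (∀ b, ¬ (∀ i, pos L b i ≤ β i) → F b ≤ 0) →
      ∑' b, F b ≤ C * L ^ ((∑ i, e i) ^ 2) := by
  have hne : (univ : Finset (Fin r)).Nonempty := ⟨⟨0, hr⟩, mem_univ _⟩
  set κ := ∑ i, e i with hκ
  have hκ0 : 0 < κ := sum_pos (fun i _ => he i) hne
  have hm : ∀ i, 0 < κ * e i := fun i => mul_pos hκ0 (he i)
  have haF := aF_pos hκ0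
  have hcont : Tendsto (fun δ : ℝ => aF κ * ∏ i, (β i + δ) ^ (κ * e i) / Real.Gamma (κ * e i + 1))
      (𝓝[>] 0) (𝓝 (aF κ * ∏ i, (β i + 0) ^ (κ * e i) / Real.Gamma (κ * e i + 1))) := by
    refine Tendsto.const_mul _ (tendsto_finsetProd _ fun i _ => Tendsto.div_const ?_ _)
    refine Tendsto.rpow_const ?_ (Or.inr (hm i).le)
    exact (tendsto_const_nhds.add tendsto_id).mono_left nhdsWithin_le_nhds
  simp only [add_zero] at hcont
  obtain ⟨δ, hδC, hδ⟩ := ((hcont.eventually_lt_const hC).and self_mem_nhdsWithin).exists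
  have hδ0 : 0 < δ := hδ
  have H := wt_KH e he hr
  set M : ℝ := ∑ i, (β i + δ) with hM
  have hβδ : ∀ i, 0 < β i + δ := fun i => by linarith [hβ i]
  have hMi : ∀ i, β i + δ ≤ M := fun i => single_le_sum (fun j _ => (hβδ j).le) (mem_univ i)
  have hM0 : 0 ≤ M := sum_nonneg fun i _ => (hβδ i).le
  set φ : (Fin r → ℝ) → ℝ := fun u => ∏ i, sc (β i) δ (u i) with hφ
  have hφc : Continuous φ := continuous_finsetProd _ fun i _ => (sc_cont _ _).comp (by fun_prop)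
  have hφ0 : ∀ u : Fin r → ℝ, (∀ i, 0 ≤ u i) → (∃ i, M ≤ u i) → φ u = 0 := by
    rintro u - ⟨i, hi⟩
    exact prod_eq_zero (mem_univ i) (sc_eq_zero hδ0 ((hMi i).trans hi))
  have hφn : ∀ u, 0 ≤ φ u := fun u => prod_nonneg fun i _ => sc_nonneg _ _ _
  have hk := karamata H (κ ^ 2) (aF κ) haF.le (fun i => κ * e i) hm
    (fun s hs => wt_tendsto e he hr s hs) φ hφc M hφ0 hM0
  have hlt : aF κ * ∫ u : Fin r → ℝ, Gd (fun i => κ * e i) u * φ u < C := by
    refine lt_of_le_of_lt ?_ hδC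
    exact mul_le_mul_of_nonneg_left (box_integral_le hm hβ hδ0) haF.le
  filter_upwards [hk.eventually_lt_const hlt, eventually_gt_atTop 0] with L hL hL0 F hF hF1 hF2
  rw [div_lt_iff₀ (by positivity)] at hL
  refine le_trans ?_ hL.le
  refine Summable.tsum_le_tsum (fun b => ?_) hF (tf_summable H φ hφc M hφ0 hM0 hL0)
  by_cases hb : ∀ i, pos L b i ≤ β i
  · have h1 : φ (pos L b) = 1 := prod_eq_one fun i _ => sc_eq_one hδ0 (hb i)
    rw [h1, mul_one]
    exact hF1 b hb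
  · exact (hF2 b hb).trans (mul_nonneg (H.hw b) (hφn _))

theorem wt_lower {n : ℕ} (e : Fin (n + 1) → ℝ) (he : ∀ i, 0 < e i) (β : Fin n → ℝ)
    (hβ : ∀ i, 0 < β i) (hβs : ∑ i, β i ≤ 1) (hm0 : 1 ≤ (∑ i, e i) * e 0) (c : ℝ)
    (hc : c < aF (∑ i, e i) * ((∏ i : Fin n, (β i) ^ ((∑ i, e i) * e i.succ) /
        Real.Gamma ((∑ i, e i) * e i.succ + 1)) *
      ((1 - ∑ i : Fin n, β i * ((∑ i, e i) * e i.succ / ((∑ i, e i) * e i.succ + 1))) ^
        ((∑ i, e i) * e 0) / Real.Gamma ((∑ i, e i) * e 0 + 1)))) :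
    ∀ᶠ L : ℝ in atTop, ∀ F : (Fin (n + 1) → ℕ) → ℝ, Summable F → (∀ b, 0 ≤ F b) →
      (∀ b, ∑ i, pos L b i ≤ 1 → (∀ i : Fin n, pos L b i.succ ≤ β i) →
        wt (∑ i, e i) e b ≤ F b) →
      c * L ^ ((∑ i, e i) ^ 2) ≤ ∑' b, F b := by
  have hr : 0 < n + 1 := Nat.succ_pos n
  have hne : (univ : Finset (Fin (n + 1))).Nonempty := ⟨0, mem_univ _⟩
  set κ := ∑ i, e i with hκ
  have hκ0 : 0 < κ := sum_pos (fun i _ => he i) hne
  have hm : ∀ i, 0 < κ * e i := fun i => mul_pos hκ0 (he i)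
  have haF := aF_pos hκ0
  have hcont : Tendsto (fun δ : ℝ => aF κ * ((∏ i : Fin n, ((1 - δ) * β i) ^ (κ * e i.succ) /
        Real.Gamma (κ * e i.succ + 1)) *
      (((1 - δ) - ∑ i : Fin n, ((1 - δ) * β i) * (κ * e i.succ / (κ * e i.succ + 1))) ^
        (κ * e 0) / Real.Gamma (κ * e 0 + 1))))
      (𝓝[>] 0) (𝓝 (aF κ * ((∏ i : Fin n, ((1 - 0) * β i) ^ (κ * e i.succ) /
        Real.Gamma (κ * e i.succ + 1)) *
      (((1 - 0) - ∑ i : Fin n, ((1 - 0) * β i) * (κ * e i.succ / (κ * e i.succ + 1))) ^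
        (κ * e 0) / Real.Gamma (κ * e 0 + 1))))) := by
    have h1 : Tendsto (fun δ : ℝ => 1 - δ) (𝓝[>] 0) (𝓝 (1 - 0)) :=
      (tendsto_const_nhds.sub tendsto_id).mono_left nhdsWithin_le_nhds
    refine Tendsto.const_mul _ (Tendsto.mul ?_ (Tendsto.div_const ?_ _))
    · refine tendsto_finsetProd _ fun i _ => Tendsto.div_const ?_ _
      exact Tendsto.rpow_const (h1.mul_const _) (Or.inr (hm i.succ).le)
    · refine Tendsto.rpow_const ?_ (Or.inr (hm 0).le)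
      exact h1.sub (tendsto_finsetSum _ fun i _ => (h1.mul_const _).mul_const _)
  simp only [sub_zero, one_mul] at hcont
  obtain ⟨δ, hδC, hδ, hδ1⟩ := ((hcont.eventually_const_lt hc).and (Ioo_mem_nhdsGT one_pos)).exists
  have hδ0 : 0 < δ := hδ
  have H := wt_KH e he hr
  have hB : ∀ i, 0 < (1 - δ) * β i := fun i => mul_pos (by linarith) (hβ i)
  have hd : ∀ i, 0 < δ * β i := fun i => mul_pos hδ0 (hβ i)
  have hBc : ∑ i, (1 - δ) * β i ≤ 1 - δ := by
    rw [← mul_sum]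
    have : 0 < 1 - δ := by linarith
    nlinarith
  set φ : (Fin (n + 1) → ℝ) → ℝ := rt (1 - δ) δ (fun i => (1 - δ) * β i) (fun i => δ * β i) with hφ
  have hφc : Continuous φ := rt_cont _ _ _ _
  have hφ0 : ∀ u : Fin (n + 1) → ℝ, (∀ i, 0 ≤ u i) → (∃ i, (1:ℝ) ≤ u i) → φ u = 0 := by
    rintro u hu0 ⟨i, hi⟩
    apply rt_zero hδ0 hd
    left
    have := single_le_sum (fun j _ => hu0 j) (mem_univ i)
    linarith
  have hk := karamata H (κ ^ 2) (aF κ) haF.le (fun i => κ * e i) hm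
    (fun s hs => wt_tendsto e he hr s hs) φ hφc 1 hφ0 zero_le_one
  have hlt : c < aF κ * ∫ u : Fin (n + 1) → ℝ, Gd (fun i => κ * e i) u * φ u := by
    refine lt_of_lt_of_le hδC ?_
    exact mul_le_mul_of_nonneg_left (region_lower (fun i => κ * e i) hm hm0 (1 - δ) δ hδ0 _ _ hB hd
      hBc (by linarith)) haF.le
  filter_upwards [hk.eventually_const_lt hlt, eventually_gt_atTop 0] with L hL hL0 F hF hFn hF1
  rw [lt_div_iff₀ (by positivity)] at hL
  refine hL.le.trans ?_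
  refine Summable.tsum_le_tsum (fun b => ?_) (tf_summable H φ hφc 1 hφ0 zero_le_one hL0) hF
  by_cases hb : ∑ i, pos L b i ≤ 1 ∧ ∀ i : Fin n, pos L b i.succ ≤ β i
  · refine le_trans ?_ (hF1 b hb.1 hb.2)
    exact mul_le_of_le_one_right (H.hw b) (rt_le_one _ _ _ _ _)
  · have : φ (pos L b) = 0 := by
      apply rt_zero hδ0 hd
      rw [not_and_or] at hb
      rcases hb with hb | hb
      · left; linarith
      · right
        push Not at hb
        obtain ⟨i, hi⟩ := hb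
        exact ⟨i, by linarith⟩
    rw [this, mul_zero]
    exact hFn b

end

end Pool.Agent.H306R2
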