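import Pool.Agent.H306R2.Gauss

set_option autoImplicit false

/-! Contour shift: mean values of `Φ(s) * conj(Dirichlet polynomial)` against Gaussian windows. -/

namespace Pool.Agent.H306R2

open MeasureTheory Filter Topology Finset

noncomputable section

/-- Dirichlet polynomial `Σ_{m ≤ Y} g(m) m^{-s}`. -/
def Dp (g : ℕ → ℝ) (Y : ℝ) (s : ℂ) : ℂ := ∑ m ∈ Icc 1 ⌊Y⌋₊, (g m : ℂ) * (m : ℂ) ^ (-s)

/-- dual Dirichlet polynomial `Σ_{m ≤ Y} g(m) m^{s-1}`. -/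
def Gp (g : ℕ → ℝ) (Y : ℝ) (s : ℂ) : ℂ := ∑ m ∈ Icc 1 ⌊Y⌋₊, (g m : ℂ) * (m : ℂ) ^ (s - 1)

lemma ncpow_exp (n : ℕ) (hn : 1 ≤ n) (z : ℂ) :
    (n : ℂ) ^ z = Complex.exp (z * ((Real.log n : ℝ) : ℂ)) := by
  have h0 : (n : ℂ) ≠ 0 := by exact_mod_cast (by omega : n ≠ 0)
  rw [Complex.cpow_def_of_ne_zero h0, Complex.ofReal_log (by positivity)]
  rw [mul_comm]
  simp

lemma norm_ncpow (n : ℕ) (hn : 1 ≤ n) (z : ℂ) : ‖(n : ℂ) ^ z‖ = (n : ℝ) ^ z.re :=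
  Complex.norm_natCast_cpow_of_pos (by omega) z

lemma conj_ncpow (n : ℕ) (hn : 1 ≤ n) (z : ℂ) :
    (starRingEnd ℂ) ((n : ℂ) ^ z) = (n : ℂ) ^ ((starRingEnd ℂ) z) := by
  rw [ncpow_exp n hn, ncpow_exp n hn, ← Complex.exp_conj, map_mul, Complex.conj_ofReal]

lemma Gp_half (g : ℕ → ℝ) (Y t : ℝ) :
    Gp g Y (1 / 2 + t * Complex.I) = (starRingEnd ℂ) (Dp g Y (1 / 2 + t * Complex.I)) := by
  unfold Gp Dp
  rw [map_sum]
  refine sum_congr rfl fun m hm => ?_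
  rw [mem_Icc] at hm
  rw [map_mul, Complex.conj_ofReal, conj_ncpow m hm.1]
  congr 2
  simp only [map_neg, map_add, map_mul, Complex.conj_I, Complex.conj_ofReal, map_div₀, map_one,
    Complex.conj_ofNat]
  ring

lemma Gp_differentiable (g : ℕ → ℝ) (Y : ℝ) : Differentiable ℂ (Gp g Y) := by
  unfold Gp
  refine Differentiable.fun_sum fun m hm => ?_
  rw [mem_Icc] at hm
  have h0 : (m : ℂ) ≠ 0 := by exact_mod_cast (by omega : m ≠ 0)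
  intro s
  refine DifferentiableAt.const_mul ?_ _
  exact (DifferentiableAt.const_cpow (by fun_prop) (Or.inl h0))

lemma Dp_differentiable (g : ℕ → ℝ) (Y : ℝ) : Differentiable ℂ (Dp g Y) := by
  unfold Dp
  refine Differentiable.fun_sum fun m hm => ?_
  rw [mem_Icc] at hm
  have h0 : (m : ℂ) ≠ 0 := by exact_mod_cast (by omega : m ≠ 0)
  intro s
  refine DifferentiableAt.const_mul ?_ _
  exact (DifferentiableAt.const_cpow (by fun_prop) (Or.inl h0))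

/-- crude bound for a Dirichlet polynomial -/
lemma norm_Gp_le (g : ℕ → ℝ) (Y : ℝ) (hY : 1 ≤ Y) (c : ℕ) (hg : ∀ n, |g n| ≤ (n : ℝ) ^ c)
    (s : ℂ) (S : ℕ) (hs : s.re - 1 ≤ S) : ‖Gp g Y s‖ ≤ Y ^ (c + S + 1) := by
  unfold Gp
  have h1 : ∀ m ∈ Icc 1 ⌊Y⌋₊, ‖(g m : ℂ) * (m : ℂ) ^ (s - 1)‖ ≤ Y ^ (c + S) := by
    intro m hm
    rw [mem_Icc] at hm
    have hm1 : (1:ℝ) ≤ m := by exact_mod_cast hm.1
    have hmY : (m:ℝ) ≤ Y := (Nat.cast_le.mpr hm.2).trans (Nat.floor_le (by linarith))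
    rw [norm_mul, Complex.norm_real, Real.norm_eq_abs, norm_ncpow m hm.1, pow_add]
    have h2 : (m:ℝ) ^ (s - 1).re ≤ (m:ℝ) ^ (S:ℝ) :=
      Real.rpow_le_rpow_of_exponent_le hm1 (by simpa using hs)
    rw [Real.rpow_natCast] at h2
    gcongr
    · exact (hg m).trans (pow_le_pow_left₀ (by linarith) hmY c)
    · exact h2.trans (pow_le_pow_left₀ (by linarith) hmY S)
  calc ‖∑ m ∈ Icc 1 ⌊Y⌋₊, (g m : ℂ) * (m : ℂ) ^ (s - 1)‖ ≤
      ∑ m ∈ Icc 1 ⌊Y⌋₊, Y ^ (c + S) := norm_sum_le_of_le _ h1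
    _ = ⌊Y⌋₊ * Y ^ (c + S) := by simp
    _ ≤ Y * Y ^ (c + S) := by
        gcongr
        exact Nat.floor_le (by linarith)
    _ = Y ^ (c + S + 1) := by rw [pow_succ]; ring

lemma norm_Dp_le (g : ℕ → ℝ) (Y : ℝ) (hY : 1 ≤ Y) (c : ℕ) (hg : ∀ n, |g n| ≤ (n : ℝ) ^ c)
    (s : ℂ) (hs : 0 ≤ s.re) : ‖Dp g Y s‖ ≤ Y ^ (c + 1) := by
  unfold Dp
  have h1 : ∀ m ∈ Icc 1 ⌊Y⌋₊, ‖(g m : ℂ) * (m : ℂ) ^ (-s)‖ ≤ Y ^ c := by
    intro m hm
    rw [mem_Icc] at hm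
    have hm1 : (1:ℝ) ≤ m := by exact_mod_cast hm.1
    have hmY : (m:ℝ) ≤ Y := (Nat.cast_le.mpr hm.2).trans (Nat.floor_le (by linarith))
    rw [norm_mul, Complex.norm_real, Real.norm_eq_abs, norm_ncpow m hm.1]
    have h2 : (m:ℝ) ^ (-s).re ≤ 1 := Real.rpow_le_one_of_one_le_of_nonpos hm1 (by simpa using hs)
    calc |g m| * (m:ℝ) ^ (-s).re ≤ Y ^ c * 1 := by
          gcongr
          exact (hg m).trans (pow_le_pow_left₀ (by linarith) hmY c)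
      _ = Y ^ c := mul_one _
  calc ‖∑ m ∈ Icc 1 ⌊Y⌋₊, (g m : ℂ) * (m : ℂ) ^ (-s)‖ ≤
      ∑ m ∈ Icc 1 ⌊Y⌋₊, Y ^ c := norm_sum_le_of_le _ h1
    _ = ⌊Y⌋₊ * Y ^ c := by simp
    _ ≤ Y * Y ^ c := by
        gcongr
        exact Nat.floor_le (by linarith)
    _ = Y ^ (c + 1) := by rw [pow_succ]; ring

/-- the Gaussian kernel `exp(-H²θ²/4)` off the diagonal. -/
lemma off_diag (Y H : ℝ) (hY : 1 ≤ Y) (c : ℕ) (hH : 16 * (2 * c + 3) * Y ≤ H ^ 2)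
    (n m : ℕ) (hn : 1 ≤ n) (hm : 1 ≤ m) (hmY : (m : ℝ) ≤ Y) (hne : n ≠ m) :
    Real.exp (-(H ^ 2 * (Real.log m - Real.log n) ^ 2 / 4)) ≤
      Real.exp (-(H ^ 2 / (32 * Y ^ 2))) * ((m : ℝ) / n) ^ (2 * c + 3) := by
  have hn0 : (0:ℝ) < n := by exact_mod_cast hn
  have hm0 : (0:ℝ) < m := by exact_mod_cast hm
  set θ := Real.log m - Real.log n with hθ
  have hθ' : θ = Real.log ((m:ℝ) / n) := by rw [hθ, Real.log_div hm0.ne' hn0.ne']
  have hY0 : 0 < Y := by linarith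
  -- lower bound on |θ|
  have habs : 1 / (2 * Y) ≤ |θ| := by
    rcases lt_or_gt_of_ne hne with h | h
    · -- n < m : θ > 0, log (m/n) ≥ 1 - n/m ≥ 1/m ≥ 1/Y
      have h1 : (n:ℝ) + 1 ≤ m := by exact_mod_cast h
      have h2 : 1 - ((m:ℝ) / n)⁻¹ ≤ Real.log ((m:ℝ) / n) := Real.one_sub_inv_le_log_of_pos (by positivity)
      rw [inv_div, ← hθ'] at h2
      have h3 : 1 / Y ≤ 1 - (n:ℝ) / m := by
        have : 1 - (n:ℝ) / m = (m - n) / m := by field_simp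
        rw [this]
        calc 1 / Y ≤ 1 / m := one_div_le_one_div_of_le hm0 hmY
          _ ≤ (m - n) / m := by gcongr; linarith
      have h4 : 1 / (2 * Y) ≤ 1 / Y := one_div_le_one_div_of_le hY0 (by linarith)
      exact h4.trans (h3.trans (h2.trans (le_abs_self θ)))
    · -- m < n : -θ = log (n/m) ≥ 1 - m/n
      have h1 : (m:ℝ) + 1 ≤ n := by exact_mod_cast h
      have h2 : 1 - ((n:ℝ) / m)⁻¹ ≤ Real.log ((n:ℝ) / m) := Real.one_sub_inv_le_log_of_pos (by positivity)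
      rw [inv_div] at h2
      have h5 : Real.log ((n:ℝ) / m) = -θ := by rw [hθ, Real.log_div hn0.ne' hm0.ne']; ring
      rw [h5] at h2
      have h3 : 1 / (2 * Y) ≤ 1 - (m:ℝ) / n := by
        have h6 : 1 - (m:ℝ) / n = (n - m) / n := by field_simp
        rw [h6, div_le_div_iff₀ (by positivity) hn0]
        nlinarith
      exact h3.trans (h2.trans (neg_le_abs θ))
  have habs0 : 0 ≤ |θ| := abs_nonneg θ
  have hsq : θ ^ 2 = |θ| * |θ| := by rw [← sq_abs]; ring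
  have h7 : H ^ 2 / (32 * Y ^ 2) + (2 * c + 3) * |θ| ≤ H ^ 2 * θ ^ 2 / 4 := by
    rw [hsq]
    have e1 : H ^ 2 / (8 * Y) * |θ| ≤ H ^ 2 * (|θ| * |θ|) / 4 := by
      have : H ^ 2 / (8 * Y) * |θ| = (H ^ 2 * |θ| / 4) * (1 / (2 * Y)) := by field_simp; ring
      rw [this]
      have : H ^ 2 * (|θ| * |θ|) / 4 = (H ^ 2 * |θ| / 4) * |θ| := by ring
      rw [this]
      exact mul_le_mul_of_nonneg_left habs (by positivity)
    have e2 : H ^ 2 / (32 * Y ^ 2) ≤ H ^ 2 / (16 * Y) * |θ| := by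
      have : H ^ 2 / (32 * Y ^ 2) = H ^ 2 / (16 * Y) * (1 / (2 * Y)) := by field_simp; ring
      rw [this]
      exact mul_le_mul_of_nonneg_left habs (by positivity)
    have e3 : (2 * (c:ℝ) + 3) * |θ| ≤ H ^ 2 / (16 * Y) * |θ| := by
      refine mul_le_mul_of_nonneg_right ?_ habs0
      rw [le_div_iff₀ (by positivity)]
      linarith
    have e4 : H ^ 2 / (8 * Y) * |θ| = H ^ 2 / (16 * Y) * |θ| + H ^ 2 / (16 * Y) * |θ| := by
      field_simp; ring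
    linarith
  have h8 : ((m : ℝ) / n) ^ (2 * c + 3) = Real.exp ((2 * c + 3) * θ) := by
    rw [hθ', ← Real.rpow_natCast, Real.rpow_def_of_pos (by positivity)]
    push_cast
    ring_nf
  rw [h8, ← Real.exp_add]
  apply Real.exp_le_exp.mpr
  have h9 : -|θ| ≤ θ := neg_abs_le θ
  nlinarith [h9, h7]

end

end Pool.Agent.H306R2
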