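import Mathlib

set_option autoImplicit false

/-!
Common definitions for the lower bounds for moments of zeta.
-/

namespace Pool.Agent.H306R2

open Finset

/-- `lc α m = α (α+1) ... (α+m-1) / m!`, the coefficient of `x^m` in `(1-x)^(-α)`. -/
noncomputable def lc (α : ℝ) (m : ℕ) : ℝ := ∏ i ∈ range m, (α + i) / ((i : ℝ) + 1)

/-- the generalised divisor function `d_α` (coefficients of `ζ(s)^α`). -/
noncomputable def dv (α : ℝ) (n : ℕ) : ℝ :=
  if n = 0 then 0 else n.factorization.prod (fun _ e => lc α e)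

/-- the arithmetic factor `a_κ = ∏_p (1-1/p)^{κ²} Σ_m lc(κ,m)² p^{-m}`. -/
noncomputable def aF (κ : ℝ) : ℝ :=
  ∏' p : Nat.Primes, ((1 - 1 / (p : ℝ)) ^ (κ ^ 2) * ∑' m : ℕ, lc κ m ^ 2 * (1 / (p : ℝ)) ^ m)

/-- weights on tuples. -/
noncomputable def wt {r : ℕ} (κ : ℝ) (e : Fin r → ℝ) (b : Fin r → ℕ) : ℝ :=
  dv κ (∏ i, b i) * ∏ i, (dv (e i) (b i) / (b i : ℝ))

end Pool.Agent.H306R2
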