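import Pool.Agent.H306R2.Loc

set_option autoImplicit false

/-! The Euler product for the diagonal sums. -/

namespace Pool.Agent.H306R2

open Finset Filter Topology

noncomputable section

lemma dv_sq_le {κ : ℝ} (hκ : 0 ≤ κ) (n : ℕ) : dv κ n ^ 2 ≤ dv (κ ^ 2) n := by
  unfold dv
  split_ifs
  · simp
  · unfold Finsupp.prod
    rw [← Finset.prod_pow]
    exact Finset.prod_le_prod (fun p _ => by positivity) fun p _ => lc_sq_le hκ _

lemma dvJ_summable (J : ℕ) {σ : ℝ} (hσ : 0 < σ) :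
    Summable (fun n : ℕ => dv J n * (n:ℝ) ^ (-1 - σ)) := by
  have h := zetaA_hasSum J 1 1 (by
    intro n hn
    rw [ArithmeticFunction.one_apply_ne]
    rintro rfl
    simp at hn) ((1 + σ : ℝ) : ℂ) (by simp [hσ])
  have h2 := summable_norm_iff.mpr h.summable
  refine h2.congr fun n => ?_
  rw [mul_one, ← dA_nat, dA_apply]
  rcases Nat.eq_zero_or_pos n with h0 | h0
  · subst h0; simp [dv]
  · rw [norm_mul, Complex.norm_natCast_cpow_of_pos h0, Complex.norm_real,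
      Real.norm_of_nonneg (dv_nonneg (Nat.cast_nonneg J) n)]
    congr 2
    simp
    ring

lemma cf_summable {ι : Type*} [Fintype ι] {e : ι → ℝ} (he : ∀ i, 0 ≤ e i) {s : ι → ℝ} {σ : ℝ}
    (hσ : 0 < σ) (hs : ∀ i, σ ≤ s i) : Summable (cf e s) := by
  have hE : 0 ≤ ∑ i, e i := sum_nonneg fun i _ => he i
  obtain ⟨J, hJ⟩ := exists_nat_ge ((∑ i, e i) ^ 2)
  refine Summable.of_nonneg_of_le (fun n => cf_nonneg he s n) (fun n => ?_) (dvJ_summable J hσ)
  rcases Nat.eq_zero_or_pos n with h0 | h0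
  · subst h0; simp [cf, dv]
  · have hn : (0:ℝ) < n := by exact_mod_cast h0
    unfold cf
    have h1 := Gs_le he hs n
    have h2 := dv_nonneg hE n
    have h3 := (dv_sq_le hE n).trans (dv_mono (by positivity) hJ n)
    calc dv (∑ i, e i) n * Gs e s n / n ≤ dv (∑ i, e i) n * (dv (∑ i, e i) n * (n:ℝ) ^ (-σ)) / n := by
          gcongr
      _ = dv (∑ i, e i) n ^ 2 * (n:ℝ) ^ (-1 - σ) := by
          rw [show (-1 - σ : ℝ) = -σ - 1 by ring, Real.rpow_sub hn, Real.rpow_one]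
          ring
      _ ≤ _ := by gcongr

/-- real zeta -/
def Zr (σ : ℝ) : ℝ := ∑' n : ℕ, (n:ℝ) ^ (-1 - σ)

lemma Zr_summable {σ : ℝ} (hσ : 0 < σ) : Summable (fun n : ℕ => (n:ℝ) ^ (-1 - σ)) := by
  rw [Real.summable_nat_rpow]
  linarith

lemma Zr_hasProd {σ : ℝ} (hσ : 0 < σ) :
    HasProd (fun p : Nat.Primes => (1 - ((p:ℕ):ℝ) ^ (-1 - σ))⁻¹) (Zr σ) := by
  let f : ℕ →*₀ ℝ :=
    { toFun := fun n => (n:ℝ) ^ (-1 - σ)
      map_zero' := by
        simp only [Nat.cast_zero]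
        exact Real.zero_rpow (by linarith)
      map_one' := by simp
      map_mul' := fun m n => by
        push_cast
        exact Real.mul_rpow (by positivity) (by positivity) }
  have hsum : Summable (fun n => ‖f n‖) := by
    refine (Zr_summable hσ).congr fun n => ?_
    show _ = ‖(n:ℝ) ^ (-1 - σ)‖
    rw [Real.norm_of_nonneg (by positivity)]
  exact EulerProduct.eulerProduct_completely_multiplicative_hasProd hsum

lemma Zr_pos {σ : ℝ} (hσ : 0 < σ) : 0 < Zr σ := by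
  refine (Zr_summable hσ).tsum_pos (fun n => by positivity) 1 (by simp)

lemma HasProd.rpow {ι : Type*} {f : ι → ℝ} {a : ℝ} (hf : HasProd f a) (h0 : ∀ i, 0 ≤ f i) (ha : 0 < a)
    (c : ℝ) : HasProd (fun i => f i ^ c) (a ^ c) := by
  unfold HasProd at hf ⊢
  have h := hf.rpow_const (p := c) (Or.inl ha.ne')
  refine h.congr fun s => ?_
  rw [Real.finsetProd_rpow]
  exact fun i _ => h0 i

lemma primes_summable : Summable (fun p : Nat.Primes => (1 / ((p:ℕ):ℝ)) ^ 2) := by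
  have h : Summable (fun n : ℕ => (1 / (n:ℝ)) ^ 2) := by
    have := Real.summable_one_div_nat_pow.mpr (by norm_num : 1 < 2)
    refine this.congr fun n => ?_
    rw [one_div, one_div, inv_pow]
  exact h.comp_injective Nat.Primes.coe_nat_injective

section

variable {ι : Type*} [Fintype ι]

lemma up_summable {e : ι → ℝ} (he : ∀ i, 0 ≤ e i) (hE : 0 < ∑ i, e i) {s : ι → ℝ}
    (hs : ∀ i, 0 ≤ s i) : Summable (fun p : Nat.Primes => up e s p) := by
  refine Summable.of_norm_bounded (primes_summable.mul_left (C1 (∑ i, e i))) fun p => ?_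
  exact up_bound he hE hs p.2

lemma exp_up {e : ι → ℝ} (he : ∀ i, 0 ≤ e i) (hE : 0 < ∑ i, e i) {s : ι → ℝ}
    (hs : ∀ i, 0 ≤ s i) {p : ℕ} (hp : p.Prime) :
    Real.exp (up e s p) = Ep e s p * ∏ i, (1 - (p:ℝ) ^ (-1 - s i)) ^ ((∑ i, e i) * e i) := by
  unfold up
  rw [Real.exp_add, Real.exp_log (by linarith [Ep_ge_one he hE hs hp]), Real.exp_sum]
  congr 1
  refine prod_congr rfl fun i _ => ?_
  have h1 := rpow_term hp (hs i)
  have h2 := (inv_prime hp).2
  have h3 : 0 < 1 - (p:ℝ) ^ (-1 - s i) := by linarith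
  rw [Real.rpow_def_of_pos h3, mul_comm]

lemma up_hasProd {e : ι → ℝ} (he : ∀ i, 0 ≤ e i) (hE : 0 < ∑ i, e i) {s : ι → ℝ}
    (hs : ∀ i, 0 ≤ s i) :
    HasProd (fun p : Nat.Primes => Ep e s p * ∏ i, (1 - ((p:ℕ):ℝ) ^ (-1 - s i)) ^ ((∑ i, e i) * e i))
      (Real.exp (∑' p : Nat.Primes, up e s p)) := by
  have h : ∀ p : Nat.Primes, Real.log (Ep e s p *
      ∏ i, (1 - ((p:ℕ):ℝ) ^ (-1 - s i)) ^ ((∑ i, e i) * e i)) = up e s p := by
    intro p
    rw [← exp_up he hE hs p.2, Real.log_exp]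
  refine Real.hasProd_of_hasSum_log (fun p => ?_) ?_
  · rw [← exp_up he hE hs p.2]; positivity
  · simp only [h]
    exact (up_summable he hE hs).hasSum

lemma cf_tsum {e : ι → ℝ} (he : ∀ i, 0 ≤ e i) (hE : 0 < ∑ i, e i) {s : ι → ℝ} {σ : ℝ}
    (hσ : 0 < σ) (hs : ∀ i, σ ≤ s i) :
    ∑' n, cf e s n = Real.exp (∑' p : Nat.Primes, up e s p) * ∏ i, Zr (s i) ^ ((∑ i, e i) * e i) := by
  have hs0 : ∀ i, 0 < s i := fun i => lt_of_lt_of_le hσ (hs i)
  have hs0' : ∀ i, 0 ≤ s i := fun i => (hs0 i).le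
  have hsum := cf_summable he hσ hs
  have h1 : HasProd (fun p : Nat.Primes => Ep e s p) (∑' n, cf e s n) :=
    EulerProduct.eulerProduct_hasProd (cf_one e s) (fun {m n} h => cf_mult e s h)
      hsum.norm (cf_zero e s)
  have h2 := up_hasProd he hE hs0'
  have h3 : HasProd (fun p : Nat.Primes => ∏ i, ((1 - ((p:ℕ):ℝ) ^ (-1 - s i))⁻¹) ^ ((∑ i, e i) * e i))
      (∏ i, Zr (s i) ^ ((∑ i, e i) * e i)) := by
    refine hasProd_prod fun i _ => ?_
    refine HasProd.rpow (Zr_hasProd (hs0 i)) (fun p => ?_) (Zr_pos (hs0 i)) _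
    have h1 := rpow_term p.2 (hs0' i)
    have h2 := (inv_prime p.2).2
    have : 0 ≤ 1 - ((p:ℕ):ℝ) ^ (-1 - s i) := by linarith
    positivity
  have h4 := h2.mul h3
  refine HasProd.unique h1 ?_
  refine h4.congr_fun ?_
  intro p
  rw [mul_assoc, ← prod_mul_distrib]
  have : ∏ i, (1 - ((p:ℕ):ℝ) ^ (-1 - s i)) ^ ((∑ i, e i) * e i) *
      ((1 - ((p:ℕ):ℝ) ^ (-1 - s i))⁻¹) ^ ((∑ i, e i) * e i) = 1 := by
    apply prod_eq_one
    intro i _
    have h1 := rpow_term p.2 (hs0' i)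
    have h2 := (inv_prime p.2).2
    have h3 : 0 < 1 - ((p:ℕ):ℝ) ^ (-1 - s i) := by linarith
    rw [← Real.mul_rpow h3.le (by positivity), mul_inv_cancel₀ h3.ne', Real.one_rpow]
  rw [this, mul_one]

end

end

end Pool.Agent.H306R2
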