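import Pool.Agent.H306R2.ZetaGrowth

set_option autoImplicit false

/-! Gaussian windows. -/

namespace Pool.Agent.H306R2

open MeasureTheory Filter Topology Finset

noncomputable section

/-- Gaussian weight, analytic version: `exp((s-1/2-iτ)²/H²)/(H√π)`. -/
def Wa (τ H : ℝ) (s : ℂ) : ℂ :=
  Complex.exp ((s - 1 / 2 - τ * Complex.I) ^ 2 / (H : ℂ) ^ 2) / ((H * Real.sqrt Real.pi : ℝ) : ℂ)

/-- Gaussian weight, real version. -/
def gw (τ H t : ℝ) : ℝ := Real.exp (-((t - τ) ^ 2 / H ^ 2)) / (H * Real.sqrt Real.pi)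

lemma Wa_differentiable (τ H : ℝ) : Differentiable ℂ (Wa τ H) := by
  unfold Wa
  fun_prop

lemma Wa_half (τ H t : ℝ) : Wa τ H (1 / 2 + t * Complex.I) = (gw τ H t : ℂ) := by
  unfold Wa gw
  push_cast
  congr 2
  have : (1 / 2 + (t : ℂ) * Complex.I - 1 / 2 - τ * Complex.I) ^ 2 = -((t : ℂ) - τ) ^ 2 := by
    have : (1 / 2 + (t : ℂ) * Complex.I - 1 / 2 - τ * Complex.I) = ((t : ℂ) - τ) * Complex.I := by ring
    rw [this, mul_pow, Complex.I_sq]
    ring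
  rw [this]
  ring

lemma norm_Wa (τ H : ℝ) (hH : 0 < H) (x y : ℝ) :
    ‖Wa τ H (((1 / 2 + x : ℝ) : ℂ) + y * Complex.I)‖ =
      Real.exp (x ^ 2 / H ^ 2) * gw τ H y := by
  unfold Wa gw
  have hpos : 0 < H * Real.sqrt Real.pi := by positivity
  rw [norm_div, Complex.norm_real, Real.norm_of_nonneg hpos.le, Complex.norm_exp, ← mul_div_assoc,
    ← Real.exp_add]
  congr 2
  have e1 : (((((1 / 2 + x : ℝ) : ℂ) + y * Complex.I) - 1 / 2 - τ * Complex.I) ^ 2 / (H : ℂ) ^ 2) =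
      (((x ^ 2 - (y - τ) ^ 2) / H ^ 2 : ℝ) : ℂ) + ((2 * x * (y - τ) / H ^ 2 : ℝ) : ℂ) * Complex.I := by
    push_cast
    have : (((1 / 2 + (x : ℂ)) + y * Complex.I) - 1 / 2 - τ * Complex.I) = x + (y - τ) * Complex.I := by
      ring
    rw [this]
    have h2 : ((x : ℂ) + (y - τ) * Complex.I) ^ 2 = x ^ 2 - (y - τ) ^ 2 + 2 * x * (y - τ) * Complex.I := by
      have := Complex.I_sq
      linear_combination ((y : ℂ) - τ) ^ 2 * this
    rw [h2]
    ring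
  rw [e1]
  simp only [Complex.add_re, Complex.ofReal_re, Complex.re_ofReal_mul, Complex.I_re, mul_zero,
    add_zero]
  ring

lemma gw_nonneg (τ H t : ℝ) (hH : 0 < H) : 0 ≤ gw τ H t := by
  unfold gw; positivity

lemma gw_continuous (τ H : ℝ) : Continuous (gw τ H) := by
  unfold gw
  fun_prop

lemma gw_symm (τ H t : ℝ) : gw τ H t = gw t H τ := by
  unfold gw
  rw [show (t - τ) ^ 2 = (τ - t) ^ 2 by ring]

lemma integral_gauss (H : ℝ) (hH : 0 < H) (τ c : ℝ) (hc : 0 < c) :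
    Integrable (fun t : ℝ => Real.exp (-(c * ((t - τ) ^ 2 / H ^ 2)))) ∧
    ∫ t : ℝ, Real.exp (-(c * ((t - τ) ^ 2 / H ^ 2))) = H * Real.sqrt Real.pi / Real.sqrt c := by
  have hb : 0 < c / H ^ 2 := by positivity
  have e : ∀ t : ℝ, Real.exp (-(c * ((t - τ) ^ 2 / H ^ 2))) =
      (fun u : ℝ => Real.exp (-(c / H ^ 2) * u ^ 2)) (t - τ) := by
    intro t
    simp only
    congr 1
    ring
  constructor
  · simp_rw [e]
    exact (integrable_exp_neg_mul_sq hb).comp_sub_right τ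
  · simp_rw [e]
    rw [integral_sub_right_eq_self (fun u : ℝ => Real.exp (-(c / H ^ 2) * u ^ 2)) τ,
      integral_gaussian]
    rw [show Real.pi / (c / H ^ 2) = H ^ 2 * (Real.pi / c) by field_simp]
    rw [Real.sqrt_mul (by positivity), Real.sqrt_sq hH.le, Real.sqrt_div Real.pi_pos.le]
    ring

lemma gw_integrable (τ H : ℝ) (hH : 0 < H) : Integrable (gw τ H) := by
  unfold gw
  have := (integral_gauss H hH τ 1 one_pos).1
  simp only [one_mul] at this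
  exact this.div_const _

lemma gw_integral (τ H : ℝ) (hH : 0 < H) : ∫ t, gw τ H t = 1 := by
  unfold gw
  have := (integral_gauss H hH τ 1 one_pos).2
  simp only [one_mul] at this
  rw [integral_div, this, Real.sqrt_one, div_one]
  have : 0 < H * Real.sqrt Real.pi := by positivity
  exact div_self this.ne'

/-- tail bound: the Gaussian mass outside a window. -/
lemma gw_tail (τ H R : ℝ) (hH : 0 < H) (hR : 0 ≤ R) :
    ∫ t in (Set.Ioc (τ - R) (τ + R))ᶜ, gw τ H t ≤ 2 * Real.exp (-(R ^ 2 / (2 * H ^ 2))) := by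
  have hint := (integral_gauss H hH τ (1/2) (by norm_num))
  have h1 : ∫ t in (Set.Ioc (τ - R) (τ + R))ᶜ, gw τ H t ≤
      ∫ t in (Set.Ioc (τ - R) (τ + R))ᶜ, Real.exp (-(R ^ 2 / (2 * H ^ 2))) *
        (Real.exp (-((1/2) * ((t - τ) ^ 2 / H ^ 2))) / (H * Real.sqrt Real.pi)) := by
    refine setIntegral_mono_on (gw_integrable τ H hH).integrableOn
      ((hint.1.div_const _).const_mul _).integrableOn measurableSet_Ioc.compl ?_
    intro t ht
    have ht2 : R ^ 2 ≤ (t - τ) ^ 2 := by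
      rw [Set.mem_compl_iff, Set.mem_Ioc, not_and_or, not_lt, not_le] at ht
      rcases ht with h | h
      · nlinarith
      · nlinarith
    unfold gw
    rw [← mul_div_assoc, ← Real.exp_add]
    have hpos : 0 < H * Real.sqrt Real.pi := by positivity
    refine div_le_div_of_nonneg_right (Real.exp_le_exp.mpr ?_) hpos.le
    have h3 : R ^ 2 / H ^ 2 ≤ (t - τ) ^ 2 / H ^ 2 := by gcongr
    have h4 : R ^ 2 / (2 * H ^ 2) = (R ^ 2 / H ^ 2) / 2 := by field_simp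
    rw [h4]
    linarith
  refine h1.trans ?_
  rw [integral_const_mul]
  have h2 : ∫ t in (Set.Ioc (τ - R) (τ + R))ᶜ,
      (Real.exp (-((1/2) * ((t - τ) ^ 2 / H ^ 2))) / (H * Real.sqrt Real.pi)) ≤
      ∫ t, (Real.exp (-((1/2) * ((t - τ) ^ 2 / H ^ 2))) / (H * Real.sqrt Real.pi)) := by
    refine setIntegral_le_integral (hint.1.div_const _) ?_
    filter_upwards with t
    positivity
  have h3 : ∫ t, (Real.exp (-((1/2) * ((t - τ) ^ 2 / H ^ 2))) / (H * Real.sqrt Real.pi)) ≤ 2 := by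
    rw [integral_div, hint.2]
    have hpos : 0 < H * Real.sqrt Real.pi := by positivity
    rw [div_div, mul_comm (Real.sqrt (1/2)) _, ← div_div, div_self hpos.ne']
    have h5 : (1:ℝ)/2 ≤ Real.sqrt (1/2) := by
      apply Real.le_sqrt_of_sq_le
      norm_num
    rw [div_le_iff₀ (by linarith)]
    linarith
  calc _ ≤ Real.exp (-(R ^ 2 / (2 * H ^ 2))) * 2 :=
        mul_le_mul_of_nonneg_left (h2.trans h3) (Real.exp_pos _).le
    _ = _ := mul_comm _ _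

lemma gauss_alg (H ρ θ τ : ℂ) (hHc : H ≠ 0) :
    (1 / 2 + ρ) * θ + (ρ ^ 2 - τ ^ 2 - 2 * ρ * τ * Complex.I) / H ^ 2 -
      (2 * τ / H ^ 2 + Complex.I * (θ + 2 * ρ / H ^ 2)) ^ 2 / (4 * (-1 / H ^ 2)) =
    (1 / 2 + τ * Complex.I) * θ + -(H ^ 2 * θ ^ 2 / 4) := by
  have hI := Complex.I_sq
  have h1 : (2 * τ / H ^ 2 + Complex.I * (θ + 2 * ρ / H ^ 2)) ^ 2 =
    4 * τ ^ 2 / H ^ 4 + 4 * τ * Complex.I * (θ + 2 * ρ / H ^ 2) / H ^ 2 -
      (θ + 2 * ρ / H ^ 2) ^ 2 := by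
    field_simp
    linear_combination (θ * H ^ 2 + 2 * ρ) ^ 2 * hI
  rw [h1]
  field_simp
  ring

/-- the basic Gaussian integral -/
lemma gauss_exp (τ H : ℝ) (hH : 0 < H) (ρ θ : ℝ) :
    ∫ y : ℝ, Complex.exp ((((1 / 2 + ρ : ℝ) : ℂ) + y * Complex.I) * θ) *
      Wa τ H (((1 / 2 + ρ : ℝ) : ℂ) + y * Complex.I) =
    Complex.exp ((1 / 2 + τ * Complex.I) * θ) * (Real.exp (-(H ^ 2 * θ ^ 2 / 4)) : ℝ) := by
  have hHc : (H : ℂ) ≠ 0 := by exact_mod_cast hH.ne'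
  have hpos : 0 < H * Real.sqrt Real.pi := by positivity
  have e : ∀ y : ℝ, Complex.exp ((((1 / 2 + ρ : ℝ) : ℂ) + y * Complex.I) * θ) *
      Wa τ H (((1 / 2 + ρ : ℝ) : ℂ) + y * Complex.I) =
      Complex.exp ((-1 / (H : ℂ) ^ 2) * (y : ℂ) ^ 2 +
        (2 * τ / (H : ℂ) ^ 2 + Complex.I * (θ + 2 * ρ / (H : ℂ) ^ 2)) * y +
        ((1 / 2 + ρ) * θ + (ρ ^ 2 - τ ^ 2 - 2 * ρ * τ * Complex.I) / (H : ℂ) ^ 2)) /
        ((H * Real.sqrt Real.pi : ℝ) : ℂ) := by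
    intro y
    unfold Wa
    rw [← mul_div_assoc, ← Complex.exp_add]
    congr 2
    push_cast
    have h2 : ((1 / 2 + (ρ : ℂ)) + y * Complex.I - 1 / 2 - τ * Complex.I) ^ 2 =
        ρ ^ 2 - (y - τ) ^ 2 + 2 * ρ * (y - τ) * Complex.I := by
      have := Complex.I_sq
      linear_combination ((y : ℂ) - τ) ^ 2 * this
    rw [h2]
    field_simp
    ring
  simp_rw [e]
  rw [integral_div]
  have hb : (-1 / (H : ℂ) ^ 2).re < 0 := by
    have : (-1 / (H : ℂ) ^ 2) = ((-1 / H ^ 2 : ℝ) : ℂ) := by push_cast; ring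
    rw [this, Complex.ofReal_re]
    have : 0 < H ^ 2 := by positivity
    rw [neg_div]
    have : 0 < 1 / H ^ 2 := by positivity
    linarith
  rw [integral_cexp_quadratic hb]
  have h3 : ((Real.pi : ℂ) / -(-1 / (H : ℂ) ^ 2)) ^ (1 / 2 : ℂ) = ((H * Real.sqrt Real.pi : ℝ) : ℂ) := by
    have : ((Real.pi : ℂ) / -(-1 / (H : ℂ) ^ 2)) = ((H ^ 2 * Real.pi : ℝ) : ℂ) := by
      push_cast
      field_simp
    rw [this, show (1 / 2 : ℂ) = ((1 / 2 : ℝ) : ℂ) by push_cast; rfl, ← Complex.ofReal_cpow (by positivity),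
      ← Real.sqrt_eq_rpow, Real.sqrt_mul (by positivity), Real.sqrt_sq hH.le]
  rw [h3]
  have hne : ((H * Real.sqrt Real.pi : ℝ) : ℂ) ≠ 0 := by exact_mod_cast hpos.ne'
  rw [mul_div_assoc, mul_comm, div_mul_cancel₀ _ hne, Complex.ofReal_exp, ← Complex.exp_add]
  congr 1
  push_cast
  exact gauss_alg _ _ _ _ hHc

end

end Pool.Agent.H306R2
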