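import Pool.Agent.H306R2.Defs

set_option autoImplicit false

/-! Hölder's inequality for several functions and Fubini for windows. -/

namespace Pool.Agent.H306R2

open Finset Filter Topology MeasureTheory

noncomputable section

lemma ofReal_int (G w : ℝ → ℝ) (hG : Continuous G) (hw : Continuous w) (hG0 : ∀ t, 0 ≤ G t)
    (hw0 : ∀ t, 0 ≤ w t) (a b : ℝ) (hab : a ≤ b) :
    ENNReal.ofReal (∫ t in a..b, G t * w t) =
      ∫⁻ t, ENNReal.ofReal (G t) ∂((volume.restrict (Set.Ioc a b)).withDensity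
        (fun t => ENNReal.ofReal (w t))) := by
  rw [intervalIntegral.integral_of_le hab]
  rw [lintegral_withDensity_eq_lintegral_mul₀ (by fun_prop) (by fun_prop)]
  rw [ofReal_integral_eq_lintegral_ofReal]
  · refine lintegral_congr fun t => ?_
    simp only [Pi.mul_apply]
    rw [mul_comm (G t), ENNReal.ofReal_mul (hw0 t)]
  · exact ((hG.mul hw).integrableOn_Icc).mono_set Set.Ioc_subset_Icc_self
  · exact Eventually.of_forall fun t => mul_nonneg (hG0 t) (hw0 t)

/-- Hölder's inequality for finitely many continuous functions with a weight. -/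
theorem holder_real {ι : Type*} (s : Finset ι) (F : ι → ℝ → ℝ) (w : ℝ → ℝ)
    (hF : ∀ i ∈ s, Continuous (F i)) (hF0 : ∀ i ∈ s, ∀ t, 0 ≤ F i t) (hw : Continuous w)
    (hw0 : ∀ t, 0 ≤ w t) (p : ι → ℝ) (hp : ∑ i ∈ s, p i = 1) (hp0 : ∀ i ∈ s, 0 ≤ p i)
    (a b : ℝ) (hab : a ≤ b) :
    ∫ t in a..b, (∏ i ∈ s, F i t ^ p i) * w t ≤ ∏ i ∈ s, (∫ t in a..b, F i t * w t) ^ p i := by
  have hcont : Continuous (fun t => ∏ i ∈ s, F i t ^ p i) :=
    continuous_finset_prod _ fun i hi => (hF i hi).rpow_const fun t => Or.inr (hp0 i hi)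
  have hnn : ∀ t, 0 ≤ ∏ i ∈ s, F i t ^ p i := fun t =>
    prod_nonneg fun i hi => Real.rpow_nonneg (hF0 i hi t) _
  have hI0 : ∀ i ∈ s, 0 ≤ ∫ t in a..b, F i t * w t := fun i hi =>
    intervalIntegral.integral_nonneg hab fun t _ => mul_nonneg (hF0 i hi t) (hw0 t)
  have hR0 : 0 ≤ ∏ i ∈ s, (∫ t in a..b, F i t * w t) ^ p i :=
    prod_nonneg fun i hi => Real.rpow_nonneg (hI0 i hi) _
  rw [← ENNReal.ofReal_le_ofReal_iff hR0, ofReal_int _ w hcont hw hnn hw0 a b hab,
    ENNReal.ofReal_prod_of_nonneg (fun i hi => Real.rpow_nonneg (hI0 i hi) _)]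
  have h1 : ∀ i ∈ s, ENNReal.ofReal ((∫ t in a..b, F i t * w t) ^ p i) =
      (∫⁻ t, ENNReal.ofReal (F i t) ∂((volume.restrict (Set.Ioc a b)).withDensity
        (fun t => ENNReal.ofReal (w t)))) ^ p i := by
    intro i hi
    rw [← ENNReal.ofReal_rpow_of_nonneg (hI0 i hi) (hp0 i hi),
      ofReal_int _ w (hF i hi) hw (hF0 i hi) hw0 a b hab]
  rw [prod_congr rfl h1]
  refine le_trans (le_of_eq ?_) (ENNReal.lintegral_prod_norm_pow_le s
    (f := fun i t => ENNReal.ofReal (F i t)) (fun i hi => ?_) hp hp0)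
  · refine lintegral_congr fun t => ?_
    rw [ENNReal.ofReal_prod_of_nonneg (fun i hi => Real.rpow_nonneg (hF0 i hi t) _)]
    refine prod_congr rfl fun i hi => ?_
    rw [ENNReal.ofReal_rpow_of_nonneg (hF0 i hi t) (hp0 i hi)]
  · exact (ENNReal.continuous_ofReal.comp (hF i hi)).measurable.aemeasurable

/-- if every window integral is at least `J`, so is the total. -/
theorem window_sum (F : ℝ → ℝ) (hF : Continuous F) (hF0 : ∀ t, 0 ≤ F t)
    (w : ℝ → ℝ → ℝ) (hw : Continuous (Function.uncurry w)) (hw0 : ∀ τ t, 0 ≤ w τ t)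
    (hw1 : ∀ t, ∫⁻ τ, ENNReal.ofReal (w τ t) ≤ 1)
    (T a b R J : ℝ) (hab : a ≤ b) (hR : 0 ≤ R) (ha : R ≤ a) (hb : b + R ≤ T) (hJ : 0 ≤ J)
    (h : ∀ τ ∈ Set.Icc a b, J ≤ ∫ t in (τ - R)..(τ + R), F t * w τ t) :
    (b - a) * J ≤ ∫ t in (0:ℝ)..T, F t := by
  have hT : 0 ≤ T := by linarith
  have h0 : 0 ≤ ∫ t in (0:ℝ)..T, F t := intervalIntegral.integral_nonneg hT fun t _ => hF0 t
  rw [← ENNReal.ofReal_le_ofReal_iff h0, ENNReal.ofReal_mul (by linarith)]
  have e1 : ENNReal.ofReal (∫ t in (0:ℝ)..T, F t) = ∫⁻ t in Set.Ioc 0 T, ENNReal.ofReal (F t) := by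
    rw [intervalIntegral.integral_of_le hT, ofReal_integral_eq_lintegral_ofReal]
    · exact (hF.integrableOn_Icc).mono_set Set.Ioc_subset_Icc_self
    · exact Eventually.of_forall fun t => hF0 t
  rw [e1]
  have e2 : ENNReal.ofReal (b - a) * ENNReal.ofReal J = ∫⁻ τ in Set.Icc a b, ENNReal.ofReal J := by
    rw [setLIntegral_const, Real.volume_Icc, mul_comm]
  rw [e2]
  have hmeasw : Measurable (fun p : ℝ × ℝ => ENNReal.ofReal (w p.1 p.2)) :=
    (ENNReal.continuous_ofReal.comp hw).measurable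
  have hmeasF : Measurable (fun t : ℝ => ENNReal.ofReal (F t)) :=
    (ENNReal.continuous_ofReal.comp hF).measurable
  calc ∫⁻ τ in Set.Icc a b, ENNReal.ofReal J ≤
      ∫⁻ τ in Set.Icc a b, ∫⁻ t in Set.Ioc 0 T, ENNReal.ofReal (F t) * ENNReal.ofReal (w τ t) := by
        refine setLIntegral_mono' measurableSet_Icc fun τ hτ => ?_
        refine (ENNReal.ofReal_le_ofReal (h τ hτ)).trans ?_
        have hwc : Continuous (fun t => w τ t) := by
          exact hw.comp (by fun_prop : Continuous (fun t : ℝ => (τ, t)))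
        rw [intervalIntegral.integral_of_le (by linarith), ofReal_integral_eq_lintegral_ofReal]
        · refine (lintegral_mono_set ?_).trans (lintegral_mono fun t => ?_)
          · exact Set.Ioc_subset_Ioc (by linarith [hτ.1]) (by linarith [hτ.2])
          · rw [ENNReal.ofReal_mul (hF0 t)]
        · exact ((hF.mul hwc).integrableOn_Icc).mono_set Set.Ioc_subset_Icc_self
        · exact Eventually.of_forall fun t => mul_nonneg (hF0 t) (hw0 τ t)
    _ ≤ ∫⁻ τ, ∫⁻ t in Set.Ioc 0 T, ENNReal.ofReal (F t) * ENNReal.ofReal (w τ t) :=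
        setLIntegral_le_lintegral _ _
    _ = ∫⁻ t in Set.Ioc 0 T, ∫⁻ τ, ENNReal.ofReal (F t) * ENNReal.ofReal (w τ t) := by
        rw [lintegral_lintegral_swap]
        refine Measurable.aemeasurable ?_
        exact (hmeasF.comp measurable_snd).mul hmeasw
    _ ≤ ∫⁻ t in Set.Ioc 0 T, ENNReal.ofReal (F t) := by
        refine lintegral_mono fun t => ?_
        have : Measurable (fun τ : ℝ => ENNReal.ofReal (w τ t)) :=
          hmeasw.comp (by fun_prop : Measurable (fun τ : ℝ => (τ, t)))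
        rw [lintegral_const_mul _ this]
        calc ENNReal.ofReal (F t) * ∫⁻ τ, ENNReal.ofReal (w τ t) ≤ ENNReal.ofReal (F t) * 1 := by
              gcongr; exact hw1 t
          _ = _ := mul_one _

end

end Pool.Agent.H306R2
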