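import Pool.Agent.H306R2.Asy
import Pool.Agent.H306R2.Window

set_option autoImplicit false

/-! Mean values of the auxiliary Dirichlet polynomials over windows. -/

namespace Pool.Agent.H306R2

open Finset Filter Topology MeasureTheory

noncomputable section

/-- truncation -/
def tr (A : ArithmeticFunction ℝ) (X : ℝ) : ArithmeticFunction ℝ :=
  ⟨fun n => if (n : ℝ) ≤ X then A n else 0, by simp⟩

lemma tr_apply (A : ArithmeticFunction ℝ) (X : ℝ) (n : ℕ) :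
    tr A X n = if (n : ℝ) ≤ X then A n else 0 := rfl

lemma tr_supp (A : ArithmeticFunction ℝ) (X : ℝ) (n : ℕ) (h : X < n) : tr A X n = 0 := by
  rw [tr_apply, if_neg (by linarith)]

lemma tr_nonneg {A : ArithmeticFunction ℝ} (hA : ∀ n, 0 ≤ A n) (X : ℝ) (n : ℕ) : 0 ≤ tr A X n := by
  rw [tr_apply]; split_ifs
  · exact hA n
  · exact le_refl _

lemma tr_le {A : ArithmeticFunction ℝ} (hA : ∀ n, 0 ≤ A n) (X : ℝ) (n : ℕ) : tr A X n ≤ A n := by
  rw [tr_apply]; split_ifs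
  · exact le_refl _
  · exact hA n

lemma PB_tr {A : ArithmeticFunction ℝ} {c : ℕ} (h : PB A c) (X : ℝ) : PB (tr A X) c := by
  intro n
  rw [tr_apply]
  split_ifs
  · exact h n
  · rw [abs_zero]; positivity

lemma Yt_pos {η T : ℝ} (hT : 0 < T) : 0 < Yt η T := Real.rpow_pos_of_pos hT _

lemma Yt_tendsto {η : ℝ} (hη2 : η < 1 / 2) : Tendsto (fun T => Real.log (Yt η T)) atTop atTop := by
  unfold Yt
  exact Real.tendsto_log_atTop.comp (tendsto_rpow_atTop (by linarith))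

lemma Yt_le {η T : ℝ} (hη : 0 < η) (hT1 : 1 ≤ T) : Yt η T ≤ T := by
  unfold Yt
  calc T ^ (1 - 2 * η) ≤ T ^ (1:ℝ) := Real.rpow_le_rpow_of_exponent_le hT1 (by linarith)
    _ = T := Real.rpow_one T

lemma one_le_Yt {η T : ℝ} (hη2 : η < 1 / 2) (hT1 : 1 ≤ T) : 1 ≤ Yt η T :=
  Real.one_le_rpow hT1 (by linarith)

lemma le_rpow_iff_pos {Y : ℝ} (hY : 1 < Y) {x : ℕ} (hx : x ≠ 0) (β : ℝ) :
    (x : ℝ) ≤ Y ^ β ↔ Real.log x / Real.log Y ≤ β := by
  have hx0 : (0:ℝ) < x := by exact_mod_cast Nat.pos_of_ne_zero hx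
  have hL := Real.log_pos hY
  rw [div_le_iff₀ hL, ← Real.log_rpow (by linarith), Real.log_le_log_iff hx0 (by positivity)]

/-- the tuple summand -/
def Fb {r : ℕ} (κ : ℝ) (Y : ℝ) (g : Fin r → ArithmeticFunction ℝ) (b : Fin r → ℕ) : ℝ :=
  (if ((∏ i, b i : ℕ) : ℝ) ≤ Y then dv κ (∏ i, b i) / (∏ i, b i : ℕ) else 0) * ∏ i, g i (b i)

lemma Fb_hasSum {r : ℕ} {κ : ℝ} (hκ : 0 ≤ κ) (Y : ℝ) (g : Fin r → ArithmeticFunction ℝ)
    (hg : ∀ i n, 0 ≤ g i n) :
    HasSum (Fb κ Y g) (∑ m ∈ Icc 1 ⌊Y⌋₊, (∏ i, g i) m * dv κ m / m) := by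
  have h0 : ∀ n : ℕ, n ∉ Icc 1 ⌊Y⌋₊ →
      (if (n:ℝ) ≤ Y then dv κ n / n else 0) * (∏ i, g i) n = 0 := by
    intro n hn
    rw [mem_Icc, not_and_or] at hn
    rcases hn with hn | hn
    · have : n = 0 := by omega
      subst this
      simp
    · rw [if_neg, zero_mul]
      intro h
      exact hn (Nat.le_floor h)
  have hs : Summable (fun n : ℕ => (if (n:ℝ) ≤ Y then dv κ n / n else 0) * (∏ i, g i) n) :=
    summable_of_ne_finset_zero (s := Icc 1 ⌊Y⌋₊) h0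
  have h := tuple_hasSum (fun n : ℕ => if (n:ℝ) ≤ Y then dv κ n / n else 0) g
    (fun n => by
      split_ifs
      · exact div_nonneg (dv_nonneg hκ n) (by positivity)
      · exact le_refl _) hg hs
  rw [tsum_eq_sum h0] at h
  have e : ∑ b ∈ Icc 1 ⌊Y⌋₊, (if (b:ℝ) ≤ Y then dv κ b / b else 0) * (∏ i, g i) b =
      ∑ m ∈ Icc 1 ⌊Y⌋₊, (∏ i, g i) m * dv κ m / m := by
    refine sum_congr rfl fun m hm => ?_
    rw [mem_Icc] at hm
    rw [if_pos ((Nat.le_floor_iff' (by omega)).mp hm.2)]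
    ring
  rw [e] at h
  exact h

lemma Fb_eq_wt {r : ℕ} (κ : ℝ) (Y : ℝ) (e : Fin r → ℝ) (g : Fin r → ArithmeticFunction ℝ)
    (b : Fin r → ℕ) (hY : ((∏ i, b i : ℕ) : ℝ) ≤ Y) (hg : ∀ i, g i (b i) = dv (e i) (b i)) :
    Fb κ Y g b = wt κ e b := by
  unfold Fb wt
  rw [if_pos hY, Nat.cast_prod, div_mul_eq_mul_div, mul_div_assoc, prod_div_distrib]
  simp only [hg]

lemma pow_eq_prod_af (A : ArithmeticFunction ℝ) (q : ℕ) : A ^ q = ∏ _i : Fin q, A := by
  rw [prod_const, card_univ, Fintype.card_fin]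

lemma dA_pow (e : ℝ) (q : ℕ) : dA e ^ q = dA (q * e) := by
  induction q with
  | zero => rw [pow_zero, Nat.cast_zero, zero_mul, dA_zero]
  | succ q ih => rw [pow_succ, ih, dA_mul]; congr 1; push_cast; ring

lemma tr_pow_le {e : ℝ} (he : 0 ≤ e) (X : ℝ) (q n : ℕ) : (tr (dA e) X ^ q) n ≤ dv (q * e) n := by
  rw [← dA_apply, ← dA_pow, pow_eq_prod_af, pow_eq_prod_af]
  exact prod_mono_af _ _ _ (fun _ n => tr_nonneg (fun m => dv_nonneg he m) X n)
    (fun _ n => tr_le (fun m => dv_nonneg he m) X n) n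

lemma tr_pow_nonneg {e : ℝ} (he : 0 ≤ e) (X : ℝ) (q n : ℕ) : 0 ≤ (tr (dA e) X ^ q) n := by
  rw [pow_eq_prod_af]
  exact prod_nonneg_af _ _ (fun _ n => tr_nonneg (fun m => dv_nonneg he m) X n) n

/-- the coefficient sum for the mean value of the `2q`-th power -/
lemma K_sum (e : ℝ) (he : 0 < e) (q : ℕ) (hq : 1 ≤ q) (β : ℝ) (hβ : 0 < β) (C : ℝ)
    (hC : aF (q * e) * (β ^ ((q * e) * e) / Real.Gamma ((q * e) * e + 1)) ^ q < C) (η : ℝ)
    (hη2 : η < 1 / 2) :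
    ∀ᶠ T : ℝ in atTop, ∑ m ∈ Icc 1 ⌊Yt η T⌋₊, (tr (dA e) (Yt η T ^ β) ^ q) m *
      (tr (dA e) (Yt η T ^ β) ^ q) m / m ≤ C * Real.log (Yt η T) ^ ((q * e) ^ 2) := by
  have hκ : ∑ _i : Fin q, e = q * e := by rw [sum_const, card_univ, Fintype.card_fin, nsmul_eq_mul]
  have hκ0 : 0 < (q:ℝ) * e := by positivity
  have hU := wt_upper (fun _ : Fin q => e) (fun _ => he) hq (fun _ => β) (fun _ => hβ) C (by
    rw [hκ, prod_const, card_univ, Fintype.card_fin]
    exact hC)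
  rw [hκ] at hU
  have hU2 := (Yt_tendsto hη2).eventually hU
  filter_upwards [hU2, (Yt_tendsto hη2).eventually_gt_atTop 0, eventually_gt_atTop 0]
    with T hT hL hT0
  set Y := Yt η T with hYdef
  have hY0 : 0 < Y := Yt_pos hT0
  have hY1 : 1 < Y := by
    by_contra h
    have := Real.log_nonpos hY0.le (not_lt.mp h)
    linarith
  set g : Fin q → ArithmeticFunction ℝ := fun _ => tr (dA e) (Y ^ β) with hg
  have hgn : ∀ i n, 0 ≤ g i n := fun i n => tr_nonneg (fun m => dv_nonneg he.le m) _ n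
  have hs := Fb_hasSum hκ0.le Y g hgn
  have h1 := hT (Fb ((q:ℝ) * e) Y g) hs.summable ?_ ?_
  · rw [hs.tsum_eq] at h1
    refine le_trans (sum_le_sum fun m _ => ?_) h1
    rw [hg, ← pow_eq_prod_af]
    have e1 := tr_pow_le he.le (Y ^ β) q m
    have e2 := tr_pow_nonneg he.le (Y ^ β) q m
    gcongr
  · intro b hb
    by_cases hz : ∃ i, b i = 0
    · obtain ⟨i, hi⟩ := hz
      have : Fb ((q:ℝ) * e) Y g b = 0 := by
        have hp : ∏ i, g i (b i) = 0 :=
          prod_eq_zero (mem_univ i) (by rw [hi, ArithmeticFunction.map_zero])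
        unfold Fb
        rw [hp, mul_zero]
      rw [this]
      exact wt_nonneg hκ0.le (fun _ => he.le) b
    · push Not at hz
      have hgb : ∀ i, g i (b i) = dv e (b i) := by
        intro i
        rw [hg, tr_apply, if_pos ((le_rpow_iff_pos hY1 (hz i) β).mpr (hb i)), dA_apply]
      by_cases hY : ((∏ i, b i : ℕ) : ℝ) ≤ Y
      · rw [Fb_eq_wt _ Y (fun _ => e) g b hY hgb]
      · unfold Fb
        rw [if_neg hY, zero_mul]
        exact wt_nonneg hκ0.le (fun _ => he.le) b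
  · intro b hb
    push Not at hb
    obtain ⟨i, hi⟩ := hb
    have hz : b i ≠ 0 := by
      intro h
      rw [pos, h] at hi
      simp at hi
      linarith
    have : g i (b i) = 0 := by
      rw [hg, tr_apply, if_neg]
      intro h
      rw [le_rpow_iff_pos hY1 hz] at h
      exact absurd h (not_le.mpr hi)
    have hp : ∏ i, g i (b i) = 0 := prod_eq_zero (mem_univ i) this
    unfold Fb
    rw [hp, mul_zero]

end

end Pool.Agent.H306R2
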