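import Pool.Agent.H306R2.MB

set_option autoImplicit false

/-! The constant `mB` for all large exponents: base tending to `4/e`. -/

namespace Pool.Agent.H306R2.X379ConstB

open Real Finset

lemma fact_lower {n : ℕ} (hn : 1 ≤ n) : n * log n - n ≤ log (n.factorial) := by
  have h := Stirling.le_log_factorial_stirling (n := n) (by omega)
  have h1 : 0 ≤ log (n : ℝ) := log_nonneg (by exact_mod_cast hn)
  have h2 : 0 ≤ log (2 * π) := log_nonneg (by nlinarith [pi_gt_three])
  linarith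

lemma fact_upper {n : ℕ} (hn : 1 ≤ n) : log (n.factorial) ≤ n * log n - n + log n + 1 := by
  induction n, hn using Nat.le_induction with
  | base => simp
  | succ n hn ih =>
    rw [Nat.factorial_succ]
    push_cast
    rw [log_mul (by positivity) (by positivity)]
    have hn0 : (0:ℝ) < n := by exact_mod_cast hn
    have h1 : 1 / ((n:ℝ) + 1) ≤ log (n + 1) - log n := by
      rw [← log_div (by positivity) hn0.ne']
      have := one_sub_inv_le_log_of_pos (x := ((n:ℝ)+1)/n) (by positivity)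
      refine le_trans (le_of_eq ?_) this
      field_simp
      ring
    have h2 : 1 ≤ ((n:ℝ)+1) * (log (n+1) - log n) := by
      rw [div_le_iff₀ (by positivity)] at h1; linarith
    nlinarith

lemma f_lip {a b : ℝ} (ha : 0 < a) (hab : a ≤ b) (h1 : b - a ≤ 1) (hb : 1 ≤ b) :
    b * log b - b - (a * log a - a) ≤ log b := by
  have hb0 : 0 < b := by linarith
  have h2 : log (b / a) ≤ b / a - 1 := log_le_sub_one_of_pos (by positivity)
  rw [log_div hb0.ne' ha.ne'] at h2
  have h3 : a * (log b - log a) ≤ b - a := by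
    have := mul_le_mul_of_nonneg_left h2 ha.le
    refine this.trans (le_of_eq ?_)
    field_simp
  have h4 : 0 ≤ log b := log_nonneg hb
  nlinarith

lemma gamma_lower {x : ℝ} (hx : 1 ≤ x) : x * log x - x - log (x + 1) ≤ log (Gamma (x + 1)) := by
  set n := ⌊x⌋₊ with hn
  have hn1 : 1 ≤ n := Nat.le_floor (by exact_mod_cast hx)
  have hnx : (n : ℝ) ≤ x := Nat.floor_le (by linarith)
  have hxn : x < n + 1 := Nat.lt_floor_add_one x
  have hn1' : (1 : ℝ) ≤ n := by exact_mod_cast hn1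
  have h1 : Gamma ((n : ℝ) + 1) ≤ Gamma (x + 1) :=
    Gamma_strictMonoOn_Ici.monotoneOn (by simp; linarith) (by simp; linarith) (by linarith)
  rw [Gamma_nat_eq_factorial] at h1
  have h2 : log (n.factorial) ≤ log (Gamma (x + 1)) := log_le_log (by positivity) h1
  have h3 := fact_lower hn1
  have h4 := f_lip (a := n) (b := x) (by linarith) hnx (by linarith) hx
  have h5 : log x ≤ log (x + 1) := log_le_log (by linarith) (by linarith)
  linarith

lemma gamma_upper {x : ℝ} (hx : 1 ≤ x) :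
    log (Gamma (x + 1)) ≤ x * log x - x + 2 * log (x + 1) + 1 := by
  set n := ⌊x⌋₊ with hn
  have hn1 : 1 ≤ n := Nat.le_floor (by exact_mod_cast hx)
  have hnx : (n : ℝ) ≤ x := Nat.floor_le (by linarith)
  have hxn : x < n + 1 := Nat.lt_floor_add_one x
  have hn1' : (1 : ℝ) ≤ n := by exact_mod_cast hn1
  have h1 : Gamma (x + 1) ≤ Gamma (((n + 1 : ℕ) : ℝ) + 1) :=
    Gamma_strictMonoOn_Ici.monotoneOn (by simp; linarith) (by simp; linarith)
      (by push_cast; linarith)
  rw [Gamma_nat_eq_factorial] at h1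
  have h0 : 0 < Gamma (x + 1) := Gamma_pos_of_pos (by linarith)
  have h2 : log (Gamma (x + 1)) ≤ log ((n + 1).factorial) := log_le_log h0 h1
  have h3 := fact_upper (n := n + 1) (by omega)
  have h4 := f_lip (a := x) (b := ((n + 1 : ℕ) : ℝ)) (by linarith) (by push_cast; linarith)
    (by push_cast; linarith) (by push_cast; linarith)
  have h5 : log ((n + 1 : ℕ) : ℝ) ≤ log (x + 1) := log_le_log (by positivity) (by push_cast; linarith)
  linarith

open Pool.Agent.H306R2

lemma mB_eq {n : ℕ} (κ : ℝ) (j : ℕ) (q : Fin n → ℕ) (β : Fin n → ℝ) (hκ : 0 < κ)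
    (hβ : ∀ i, 0 < β i) (hD : 0 < 1 - ∑ i, β i * (κ ^ 2 / q i / (κ ^ 2 / q i + 1))) :
    mB κ j q β = exp ((∑ i, (κ ^ 2 / q i * log (β i) - log (Gamma (κ ^ 2 / q i + 1))) +
      2 * (κ * j) * log (1 - ∑ i, β i * (κ ^ 2 / q i / (κ ^ 2 / q i + 1))) +
      log (Gamma (κ ^ 2 + 1)) - 2 * log (Gamma (κ * j + 1))) * (κ / j)) := by
  unfold mB
  have hg : ∀ i, 0 < Gamma (κ ^ 2 / q i + 1) := fun i => Gamma_pos_of_pos (by positivity)
  have hg1 : 0 < Gamma (κ ^ 2 + 1) := Gamma_pos_of_pos (by positivity)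
  have hg2 : 0 < Gamma (κ * j + 1) := Gamma_pos_of_pos (by positivity)
  rw [exp_mul]
  congr 1
  rw [exp_sub, exp_add, exp_add, exp_sum, exp_log hg1]
  have e1 : ∀ i, exp (κ ^ 2 / q i * log (β i) - log (Gamma (κ ^ 2 / q i + 1))) =
      (β i) ^ (κ ^ 2 / q i) / Gamma (κ ^ 2 / q i + 1) := by
    intro i
    rw [exp_sub, exp_log (hg i), rpow_def_of_pos (hβ i), mul_comm]
  have e2 : exp (2 * log (Gamma (κ * j + 1))) = Gamma (κ * j + 1) ^ 2 := by
    rw [two_mul, exp_add, exp_log hg2, sq]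
  have e3 : exp (2 * (κ * j) * log (1 - ∑ i, β i * (κ ^ 2 / q i / (κ ^ 2 / q i + 1)))) =
      (1 - ∑ i, β i * (κ ^ 2 / q i / (κ ^ 2 / q i + 1))) ^ (2 * (κ * j)) := by
    rw [rpow_def_of_pos hD, mul_comm]
  rw [e2, e3]
  simp only [e1]

/-- the exponents -/
def qB (k L r : ℕ) : Fin (L + r) → ℕ :=
  Fin.append (fun i : Fin L => 2 ^ ((i : ℕ) + 1)) (fun _ : Fin r => k * 2 ^ L)

/-- the weights -/
noncomputable def βB (k L r : ℕ) : Fin (L + r) → ℝ :=
  Fin.append (fun i : Fin L => (1 / 2 : ℝ) ^ ((i : ℕ) + 1) / (1 + (1 / 2) ^ L))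
    (fun _ : Fin r => 1 / ((k : ℝ) * 2 ^ L))

lemma geo (L : ℕ) : ∑ i : Fin L, (1 / 2 : ℝ) ^ ((i : ℕ) + 1) = 1 - (1 / 2) ^ L := by
  rw [Fin.sum_univ_eq_sum_range (fun i => (1 / 2 : ℝ) ^ (i + 1)) L]
  induction L with
  | zero => simp
  | succ n ih => rw [Finset.sum_range_succ, ih]; ring

lemma adm {k L r j : ℕ} (hj : 1 ≤ j) (hk : k = 2 ^ (L + 1) * j + r) :
    Adm k j (qB k L r) (βB k L r) := by
  have hk2 : 2 ^ (L + 1) ≤ k := by
    rw [hk]; exact (Nat.le_mul_of_pos_right _ hj).trans (Nat.le_add_right _ _)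
  have hL2 : 2 ≤ 2 ^ (L + 1) := by
    rw [pow_succ]; have := Nat.one_le_two_pow (n := L); omega
  have hk0 : (0 : ℝ) < k := by exact_mod_cast (by omega : 0 < k)
  have hkr : (k : ℝ) = 2 ^ (L + 1) * j + r := by exact_mod_cast hk
  have hP : (0 : ℝ) < (1 / 2) ^ L := by positivity
  have h2L : (0 : ℝ) < 2 ^ L := by positivity
  have hPL : (1 / 2 : ℝ) ^ L = 1 / 2 ^ L := by rw [div_pow, one_pow]
  constructor
  · exact hj
  · intro i
    refine Fin.addCases (fun i => ?_) (fun i => ?_) i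
    · simp only [qB, Fin.append_left]
      rw [pow_succ]; have := Nat.one_le_two_pow (n := (i : ℕ)); omega
    · simp only [qB, Fin.append_right]
      have := Nat.one_le_two_pow (n := L)
      nlinarith
  · rw [Fin.sum_univ_add]
    simp only [qB, Fin.append_left, Fin.append_right]
    have e1 : ∑ i : Fin L, 1 / (((2 ^ ((i : ℕ) + 1) : ℕ)) : ℝ) = 1 - (1 / 2) ^ L := by
      rw [← geo L]
      apply Finset.sum_congr rfl
      intro i _
      push_cast
      rw [div_pow, one_pow]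
    rw [e1, Finset.sum_const, Finset.card_univ, Fintype.card_fin, nsmul_eq_mul, hPL]
    push_cast
    have hjr : 2 * (j : ℝ) = (k - r) / 2 ^ L := by
      rw [hkr, pow_succ]; field_simp; ring
    rw [hjr]
    field_simp
    ring
  · intro i
    refine Fin.addCases (fun i => ?_) (fun i => ?_) i
    · simp only [βB, Fin.append_left]; positivity
    · simp only [βB, Fin.append_right]; positivity
  · intro i
    refine Fin.addCases (fun i => ?_) (fun i => ?_) i
    · simp only [βB, qB, Fin.append_left]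
      push_cast
      rw [div_pow, one_pow]
      apply div_le_self (by positivity)
      linarith
    · simp only [βB, qB, Fin.append_right]
      push_cast
      exact le_rfl
  · rw [Fin.sum_univ_add]
    simp only [βB, Fin.append_left, Fin.append_right]
    rw [← Finset.sum_div, geo, Finset.sum_const, Finset.card_univ, Fintype.card_fin, nsmul_eq_mul]
    have hrk : (r : ℝ) ≤ k := by
      rw [hkr]; have : (0 : ℝ) ≤ 2 ^ (L + 1) * j := by positivity
      linarith
    have h1 : (r : ℝ) * (1 / (k * 2 ^ L)) ≤ (1 / 2) ^ L := by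
      rw [hPL, mul_one_div, div_le_div_iff₀ (by positivity) h2L]
      nlinarith
    have hP1 : (1 / 2 : ℝ) ^ L ≤ 1 := pow_le_one₀ (by norm_num) (by norm_num)
    have h2 : (1 - (1 / 2 : ℝ) ^ L) / (1 + (1 / 2) ^ L) ≤ 1 - (1 / 2) ^ L := by
      rw [div_le_iff₀ (by positivity)]
      nlinarith
    linarith
  · have h1 : (2 : ℝ) ≤ k := by exact_mod_cast hL2.trans hk2
    have h2 : (1 : ℝ) ≤ j := by exact_mod_cast hj
    nlinarith

/-- The main estimate. -/
lemma main_est {k L r j : ℕ} (hj : 1 ≤ j) (hk : k = 2 ^ (L + 1) * j + r) (hr : r < 2 ^ (L + 1))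
    (hkL : 2 ^ (L + 2) ≤ k) (lc η : ℝ) (hη : 0 < η) (hlc : lc = 2 * log 2 - 1 - η)
    (hP : (1 / 2 : ℝ) ^ L ≤ η / 2)
    (hbig : (((1 + η) / 2 + 4 * (L + 2 ^ (L + 1) + 4) + (3 + L) / 2 + 2) : ℝ) * (log k + 1) ≤
      (1 / 2 : ℝ) ^ L * η / 8 * k) :
    exp (lc * ((k : ℝ) ^ 2 / 4)) / Gamma ((k : ℝ) ^ 2 / 4 + 1) ≤
      mB ((k : ℝ) / 2) j (qB k L r) (βB k L r) := by
  obtain ⟨P, hPdef⟩ : ∃ P : ℝ, P = (1 / 2 : ℝ) ^ L := ⟨_, rfl⟩
  obtain ⟨κ, hκ⟩ : ∃ κ : ℝ, κ = (k : ℝ) / 2 := ⟨_, rfl⟩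
  obtain ⟨x, hx⟩ : ∃ x : ℝ, x = κ ^ 2 := ⟨_, rfl⟩
  obtain ⟨y, hy⟩ : ∃ y : ℝ, y = κ * j := ⟨_, rfl⟩
  have hPL : P = 1 / 2 ^ L := by rw [hPdef, div_pow, one_pow]
  have hP0 : 0 < P := by rw [hPdef]; positivity
  have hP1 : P ≤ 1 := by rw [hPdef]; exact pow_le_one₀ (by norm_num) (by norm_num)
  have h2L1 : (1 : ℝ) ≤ 2 ^ L := one_le_pow₀ (by norm_num)
  have hPP : P * 2 ^ L = 1 := by rw [hPL]; field_simp
  have hkL' : (4 : ℝ) * 2 ^ L ≤ k := by
    have : ((2 ^ (L + 2) : ℕ) : ℝ) ≤ k := by exact_mod_cast hkL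
    push_cast at this
    rw [pow_add] at this
    linarith
  have hk4 : (4 : ℝ) ≤ k := by linarith
  have hk16 : (16 : ℝ) ≤ (k : ℝ) ^ 2 := by
    have := pow_le_pow_left₀ (by norm_num) hk4 2
    linarith
  have hk0 : (0 : ℝ) < k := by linarith
  have hkr : (k : ℝ) = 2 * 2 ^ L * j + r := by
    have : (k : ℝ) = 2 ^ (L + 1) * j + r := by exact_mod_cast hk
    rw [this, pow_succ]; ring
  have hr0 : (0 : ℝ) ≤ r := Nat.cast_nonneg r
  have hr2 : (r : ℝ) ≤ 2 * 2 ^ L := by
    have : (r : ℝ) < 2 ^ (L + 1) := by exact_mod_cast hr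
    rw [pow_succ] at this; linarith
  have hj1 : (1 : ℝ) ≤ j := by exact_mod_cast hj
  have hκ2 : 2 * 2 ^ L ≤ κ := by rw [hκ]; linarith
  have hκ0 : 0 < κ := by linarith
  have hκ1 : 1 ≤ κ := by linarith
  have hx0 : 0 < x := by rw [hx]; positivity
  have hκx : κ ≤ x := by rw [hx, sq]; exact le_mul_of_one_le_left hκ0.le hκ1
  have hx1 : 1 ≤ x := by linarith
  have hy0 : 0 < y := by rw [hy]; positivity
  have hy1 : 1 ≤ y := by rw [hy]; exact one_le_mul_of_one_le_of_one_le hκ1 hj1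
  have hjP : (j : ℝ) = P * κ - P * r / 2 := by
    rw [hκ, hkr]
    have : P * (2 * 2 ^ L * j + r) / 2 = (P * 2 ^ L) * j + P * r / 2 := by ring
    rw [show P * ((2 * 2 ^ L * (j : ℝ) + r) / 2) = P * (2 * 2 ^ L * j + r) / 2 by ring, this, hPP]
    ring
  have hPr : P * r / 2 ≤ 1 := by
    have : P * r ≤ P * (2 * 2 ^ L) := mul_le_mul_of_nonneg_left hr2 hP0.le
    have h2 : P * (2 * 2 ^ L) = 2 := by linear_combination 2 * hPP
    linarith
  have hyPx : y ≤ P * x := by
    rw [hy, hjP, hx]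
    have : 0 ≤ κ * (P * r / 2) := by positivity
    linarith
  have hyPx' : P * x - κ ≤ y := by
    rw [hy, hjP, hx]
    have : κ * (P * r / 2) ≤ κ * 1 := mul_le_mul_of_nonneg_left hPr hκ0.le
    linarith
  have hyx : y ≤ x := hyPx.trans (mul_le_of_le_one_left hx0.le hP1)
  -- logs
  have hlogk : 1 ≤ log k := by
    rw [le_log_iff_exp_le hk0]
    linarith [exp_one_lt_d9]
  have hlogx : log x ≤ 2 * log k := by
    have : x ≤ (k : ℝ) ^ 2 := by rw [hx, hκ]; linarith
    have h2 := log_le_log hx0 this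
    rwa [log_pow] at h2
  have hlogx0 : 0 ≤ log x := log_nonneg hx1
  have hlogx1 : 1 ≤ log x := by
    rw [le_log_iff_exp_le hx0]
    have : (4 : ℝ) ≤ x := by rw [hx, hκ]; linarith
    linarith [exp_one_lt_d9]
  obtain ⟨Λ, hΛ⟩ : ∃ Λ : ℝ, Λ = 2 * log (x + 1) + 1 := ⟨_, rfl⟩
  have hΛk : Λ ≤ 4 * log k + 1 := by
    have : x + 1 ≤ (k : ℝ) ^ 2 := by rw [hx, hκ]; linarith
    have h2 := log_le_log (by linarith) this
    rw [log_pow] at h2
    push_cast at h2
    linarith
  have hΛ0 : 0 ≤ Λ := by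
    have := log_nonneg (by linarith : (1 : ℝ) ≤ x + 1)
    linarith
  have hup : ∀ z : ℝ, 1 ≤ z → z ≤ x → log (Gamma (z + 1)) ≤ z * log z - z + Λ := by
    intro z hz hzx
    have h1 := gamma_upper hz
    have h2 : log (z + 1) ≤ log (x + 1) := log_le_log (by linarith) (by linarith)
    linarith
  have hgx : x * log x - x - Λ ≤ log (Gamma (x + 1)) := by
    have h1 := gamma_lower hx1
    have h2 : 0 ≤ log (x + 1) := log_nonneg (by linarith)
    linarith
  -- the D term
  obtain ⟨D, hD⟩ : ∃ D : ℝ, D = 1 - ∑ i, βB k L r i *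
      (κ ^ 2 / qB k L r i / (κ ^ 2 / qB k L r i + 1)) := ⟨_, rfl⟩
  have hadm := adm hj hk
  have hDlow : 2 * P / (1 + P) * (1 - r / k) ≤ D := by
    have h1 : ∑ i, βB k L r i * (κ ^ 2 / qB k L r i / (κ ^ 2 / qB k L r i + 1)) ≤
        ∑ i, βB k L r i := by
      apply Finset.sum_le_sum
      intro i _
      have h2 : κ ^ 2 / (qB k L r i : ℝ) / (κ ^ 2 / qB k L r i + 1) ≤ 1 := by
        rw [div_le_one (by positivity)]; linarith
      have := mul_le_mul_of_nonneg_left h2 (hadm.hβ i).le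
      linarith
    have h3 : ∑ i, βB k L r i = (1 - P) / (1 + P) + r * (P / k) := by
      rw [Fin.sum_univ_add]
      simp only [βB, Fin.append_left, Fin.append_right]
      rw [← Finset.sum_div, geo, Finset.sum_const, Finset.card_univ, Fintype.card_fin,
        nsmul_eq_mul, ← hPdef, hPL]
      field_simp
    rw [h3] at h1
    have h4 : 2 * P / (1 + P) * (1 - r / k) ≤ 1 - ((1 - P) / (1 + P) + r * (P / k)) := by
      have h5 : 1 - ((1 - P) / (1 + P) + r * (P / k)) = 2 * P / (1 + P) - P * (r / k) := by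
        field_simp; ring
      rw [h5]
      have h6 : P ≤ 2 * P / (1 + P) := by
        rw [le_div_iff₀ (by positivity)]
        linarith [mul_le_mul_of_nonneg_left hP1 hP0.le]
      have h7 : 0 ≤ (r : ℝ) / k := by positivity
      linarith [mul_le_mul_of_nonneg_right h6 h7]
    linarith
  have hrk : (r : ℝ) / k ≤ 1 / 2 := by
    rw [div_le_iff₀ hk0]; linarith
  have hD0 : 0 < D := lt_of_lt_of_le (mul_pos (by positivity) (by linarith)) hDlow
  have hlogD : log 2 + log P - log (1 + P) - 2 * (r / k) ≤ log D := by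
    have h1 := log_le_log (mul_pos (by positivity) (by linarith)) hDlow
    rw [log_mul (by positivity) (by linarith), log_div (by positivity) (by positivity),
      log_mul (by norm_num) hP0.ne'] at h1
    have h2 : 1 - (1 - (r : ℝ) / k)⁻¹ ≤ log (1 - r / k) :=
      one_sub_inv_le_log_of_pos (by linarith)
    have h3 : (1 - (r : ℝ) / k)⁻¹ ≤ 1 + 2 * (r / k) := by
      rw [inv_le_iff_one_le_mul₀ (by linarith)]
      have : 0 ≤ (r : ℝ) / k := by positivity
      linarith [mul_le_mul_of_nonneg_left hrk this]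
    linarith
  have hyD : 2 * y * (log 2 + log P - log (1 + P)) - 2 * k ≤ 2 * y * log D := by
    have h1 := mul_le_mul_of_nonneg_left hlogD (by linarith : 0 ≤ 2 * y)
    have h2 : 2 * y * (2 * ((r : ℝ) / k)) ≤ 2 * k := by
      have h3 : 2 * y * (2 * ((r : ℝ) / k)) = 2 * (j * r) := by
        rw [hy, hκ]; field_simp
      rw [h3]
      have h4 : (j : ℝ) * r ≤ j * (2 * 2 ^ L) := mul_le_mul_of_nonneg_left hr2 (by linarith)
      have h5 : (j : ℝ) * (2 * 2 ^ L) ≤ k := by rw [hkr]; linarith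
      linarith
    linarith
  -- the sum
  obtain ⟨S, hS⟩ : ∃ S : ℝ, S = ∑ i, (κ ^ 2 / qB k L r i * log (βB k L r i) -
      log (Gamma (κ ^ 2 / qB k L r i + 1))) := ⟨_, rfl⟩
  have hlogk2 : log ((k : ℝ) * 2 ^ L) ≤ log k + L := by
    rw [log_mul hk0.ne' (by positivity), log_pow]
    have : log 2 ≤ 1 := by linarith [log_two_lt_d9]
    have h3 : (0 : ℝ) ≤ L := Nat.cast_nonneg L
    linarith [mul_le_mul_of_nonneg_left this h3]
  have hSlow : x * (1 - P) * (1 - log (1 + P) - log x) - L * Λ -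
      (κ * (log k + L + log x) + r * Λ) ≤ S := by
    rw [hS, Fin.sum_univ_add]
    simp only [qB, βB, Fin.append_left, Fin.append_right]
    have h1 : x * (1 - P) * (1 - log (1 + P) - log x) - L * Λ ≤
        ∑ i : Fin L, (κ ^ 2 / ((2 ^ ((i : ℕ) + 1) : ℕ) : ℝ) *
          log ((1 / 2 : ℝ) ^ ((i : ℕ) + 1) / (1 + (1 / 2) ^ L)) -
          log (Gamma (κ ^ 2 / ((2 ^ ((i : ℕ) + 1) : ℕ) : ℝ) + 1))) := by
      have h2 : x * (1 - P) * (1 - log (1 + P) - log x) - L * Λ =
          ∑ i : Fin L, ((1 / 2 : ℝ) ^ ((i : ℕ) + 1) * (x * (1 - log (1 + P) - log x)) - Λ) := by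
        rw [Finset.sum_sub_distrib, ← Finset.sum_mul, geo, ← hPdef, Finset.sum_const,
          Finset.card_univ, Fintype.card_fin, nsmul_eq_mul]
        ring
      rw [h2]
      apply Finset.sum_le_sum
      intro i _
      push_cast
      rw [← hPdef, ← hx]
      have hi : (2 : ℝ) ^ ((i : ℕ) + 1) ≤ 2 ^ L :=
        pow_le_pow_right₀ (by norm_num) i.2
      have hi0 : (0 : ℝ) < 2 ^ ((i : ℕ) + 1) := by positivity
      have hi1 : (1 : ℝ) ≤ 2 ^ ((i : ℕ) + 1) := one_le_pow₀ (by norm_num)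
      have hm1 : 1 ≤ x / 2 ^ ((i : ℕ) + 1) := by
        rw [le_div_iff₀ hi0, one_mul]
        linarith
      have hmx : x / 2 ^ ((i : ℕ) + 1) ≤ x := div_le_self hx0.le hi1
      have h3 := hup _ hm1 hmx
      have h4 : log ((1 / 2 : ℝ) ^ ((i : ℕ) + 1) / (1 + P)) =
          -log (2 ^ ((i : ℕ) + 1)) - log (1 + P) := by
        rw [div_pow, one_pow, log_div (by positivity) (by positivity), one_div, log_inv]
      have h5 : log (x / 2 ^ ((i : ℕ) + 1)) = log x - log (2 ^ ((i : ℕ) + 1)) :=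
        log_div hx0.ne' hi0.ne'
      rw [h5] at h3
      rw [h4]
      have h6 : (1 / 2 : ℝ) ^ ((i : ℕ) + 1) * (x * (1 - log (1 + P) - log x)) =
          x / 2 ^ ((i : ℕ) + 1) * (1 - log (1 + P) - log x) := by
        rw [div_pow, one_pow]; ring
      rw [h6]
      linarith
    have h7 : -(κ * (log k + L + log x) + r * Λ) ≤ ∑ _i : Fin r,
        (κ ^ 2 / ((k * 2 ^ L : ℕ) : ℝ) * log (1 / ((k : ℝ) * 2 ^ L)) -
          log (Gamma (κ ^ 2 / ((k * 2 ^ L : ℕ) : ℝ) + 1))) := by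
      rw [Finset.sum_const, Finset.card_univ, Fintype.card_fin, nsmul_eq_mul]
      push_cast
      rw [← hx]
      obtain ⟨m, hm⟩ : ∃ m : ℝ, m = x / ((k : ℝ) * 2 ^ L) := ⟨_, rfl⟩
      rw [← hm]
      have hm' : m * (2 * 2 ^ L) = κ := by
        rw [hm, hx, hκ]; field_simp
      have hm1 : 1 ≤ m := by
        by_contra hlt
        push Not at hlt
        have : m * (2 * 2 ^ L) < 1 * (2 * 2 ^ L) := mul_lt_mul_of_pos_right hlt (by positivity)
        linarith
      have hmx : m ≤ x := by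
        have : m ≤ m * (2 * 2 ^ L) := le_mul_of_one_le_right (by linarith) (by linarith)
        linarith
      have h3 := hup _ hm1 hmx
      have h4 : log (1 / ((k : ℝ) * 2 ^ L)) = - log ((k : ℝ) * 2 ^ L) := by
        rw [one_div, log_inv]
      rw [h4]
      have h5 : m * log m ≤ m * log x :=
        mul_le_mul_of_nonneg_left (log_le_log (by linarith) hmx) (by linarith)
      have h6 : m * log ((k : ℝ) * 2 ^ L) ≤ m * (log k + L) :=
        mul_le_mul_of_nonneg_left hlogk2 (by linarith)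
      have h8 : -(m * (log k + L + log x) + Λ) ≤
          m * -log ((k : ℝ) * 2 ^ L) - log (Gamma (m + 1)) := by linarith
      have h9 := mul_le_mul_of_nonneg_left h8 hr0
      have h10 : (r : ℝ) * m ≤ κ := by
        rw [← hm']
        linarith [mul_le_mul_of_nonneg_left hr2 (by linarith : 0 ≤ m)]
      have h11 : (r * m) * (log k + L + log x) ≤ κ * (log k + L + log x) :=
        mul_le_mul_of_nonneg_right h10 (by positivity)
      linarith
    linarith
  -- final
  have hD' := hD0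
  rw [hD] at hD'
  rw [← hκ, mB_eq κ j (qB k L r) (βB k L r) hκ0 hadm.hβ hD', ← hD, ← hS, ← hx, ← hy]
  have hxk : (k : ℝ) ^ 2 / 4 = x := by rw [hx, hκ]; ring
  rw [hxk]
  have hg0 : 0 < Gamma (x + 1) := Gamma_pos_of_pos (by linarith)
  have hkj : κ / j = x / y := by
    rw [hx, hy]; field_simp
  rw [hkj, show exp (lc * x) / Gamma (x + 1) = exp (lc * x - log (Gamma (x + 1))) by
    rw [exp_sub, exp_log hg0]]
  apply exp_le_exp.mpr
  obtain ⟨g, hg⟩ : ∃ g : ℝ, g = log (Gamma (x + 1)) := ⟨_, rfl⟩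
  rw [← hg] at hgx ⊢
  have hgy := hup y hy1 hyx
  have hylog : y * log y ≤ y * (log P + log x) := by
    apply mul_le_mul_of_nonneg_left _ hy0.le
    rw [← log_mul hP0.ne' hx0.ne']
    exact log_le_log hy0 hyPx
  have hlog1P : log (1 + P) ≤ P := by
    have := log_le_sub_one_of_pos (by linarith : 0 < 1 + P)
    linarith
  have hlog1P0 : 0 ≤ log (1 + P) := log_nonneg (by linarith)
  -- key inequality
  have key : y * lc - y / x * g ≤
      S + 2 * y * log D + g - 2 * log (Gamma (y + 1)) := by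
    have hyx' : y / x ≤ 1 := by rw [div_le_one hx0]; exact hyx
    have hyx0 : 0 ≤ y / x := by positivity
    have hg2 : (x + y) * (log x - 1) - 2 * Λ ≤ g + y / x * g := by
      have h1 : y / x * (x * log x - x - Λ) ≤ y / x * g := mul_le_mul_of_nonneg_left hgx hyx0
      have h2 : y / x * (x * log x - x - Λ) = y * (log x - 1) - y / x * Λ := by field_simp
      have h3 : y / x * Λ ≤ 1 * Λ := mul_le_mul_of_nonneg_right hyx' hΛ0
      linarith
    have hE : κ * (1 + η) + (L * Λ + (κ * (log k + L + log x) + r * Λ) + 2 * k + 4 * Λ) ≤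
        P * x * η / 2 := by
      have h1 : (L + r + 4) * Λ ≤ (L + 2 ^ (L + 1) + 4) * (4 * (log k + 1) * k) := by
        have h2 : (r : ℝ) ≤ 2 ^ (L + 1) := by rw [pow_succ]; linarith
        have h3 : (0 : ℝ) ≤ L := Nat.cast_nonneg L
        have h4 : Λ ≤ 4 * (log k + 1) * k := by
          have := mul_le_mul_of_nonneg_left (by linarith : (1 : ℝ) ≤ k)
            (by linarith : 0 ≤ 4 * (log k + 1))
          linarith
        have h5 : (L : ℝ) + r + 4 ≤ L + 2 ^ (L + 1) + 4 := by linarith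
        exact mul_le_mul h5 h4 hΛ0 (by positivity)
      have h6 : κ * (log k + L + log x) ≤ (3 + L) / 2 * (log k + 1) * k := by
        have h3 : (0 : ℝ) ≤ L := Nat.cast_nonneg L
        have h7 : log k + L + log x ≤ (3 + L) * (log k + 1) := by
          have := mul_nonneg h3 (by linarith : 0 ≤ log (k : ℝ))
          linarith
        have := mul_le_mul_of_nonneg_left h7 hκ0.le
        rw [hκ] at this ⊢
        linarith
      have h8 : κ * (1 + η) ≤ (1 + η) / 2 * (log k + 1) * k := by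
        rw [hκ]
        have : (1 + η) * k * 1 ≤ (1 + η) * k * (log k + 1) :=
          mul_le_mul_of_nonneg_left (by linarith) (by positivity)
        linarith
      have h9 : 2 * (k : ℝ) ≤ 2 * (log k + 1) * k := by
        have := mul_nonneg (by linarith : 0 ≤ log (k : ℝ)) hk0.le
        linarith
      have h10 := mul_le_mul_of_nonneg_right hbig hk0.le
      have h11 : P * x * η / 2 = (1 / 2 : ℝ) ^ L * η / 8 * k * k := by
        rw [← hPdef, hx, hκ]; ring
      rw [h11]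
      linarith
    have hmain : P * x * η / 2 - κ * (1 + η) ≤
        y * (1 + η) - (1 + P) * x * log (1 + P) := by
      have h1 : (P * x - κ) * (1 + η) ≤ y * (1 + η) :=
        mul_le_mul_of_nonneg_right hyPx' (by linarith)
      have h2 : (1 + P) * x * log (1 + P) ≤ (1 + P) * x * P :=
        mul_le_mul_of_nonneg_left hlog1P (by positivity)
      have h3 : x * P * P ≤ x * P * (η / 2) := by
        apply mul_le_mul_of_nonneg_left _ (by positivity)
        rw [hPdef]; exact hP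
      linarith
    have hlc' : lc = 2 * log 2 - 1 - η := hlc
    have h12 : 0 ≤ (x * P - y) * (log x - 1) :=
      mul_nonneg (by linarith) (by linarith)
    have h13 : log (1 + P) * (x * (1 - P) + 2 * y) ≤ (1 + P) * x * log (1 + P) := by
      have : x * (1 - P) + 2 * y ≤ (1 + P) * x := by linarith
      have := mul_le_mul_of_nonneg_left this hlog1P0
      linarith
    rw [hlc']
    linarith
  have hxy0 : 0 ≤ x / y := by positivity
  have h14 := mul_le_mul_of_nonneg_right key hxy0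
  refine le_trans (le_of_eq ?_) h14
  field_simp

/-- All large exponents, base `c < 4 / e`. -/
theorem constB' (c : ℝ) (hc : 0 < c) (hce : c < 4 / exp 1) : ∃ K : ℕ, ∀ k ≥ K,
    ∃ (n j : ℕ) (q : Fin n → ℕ) (β : Fin n → ℝ), Adm k j q β ∧
      c ^ ((k : ℝ) ^ 2 / 4) / Gamma ((k : ℝ) ^ 2 / 4 + 1) ≤ mB ((k : ℝ) / 2) j q β := by
  obtain ⟨η, hη⟩ : ∃ η : ℝ, η = 2 * log 2 - 1 - log c := ⟨_, rfl⟩
  have hη0 : 0 < η := by
    have h1 := log_lt_log hc hce
    rw [log_div (by norm_num) (exp_pos 1).ne', log_exp, show (4 : ℝ) = 2 ^ 2 by norm_num,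
      log_pow] at h1
    push_cast at h1
    linarith
  obtain ⟨L, hL⟩ := exists_pow_lt_of_lt_one (by positivity : 0 < η / 2)
    (by norm_num : (1 / 2 : ℝ) < 1)
  obtain ⟨C, hC⟩ : ∃ C : ℝ, C = (1 + η) / 2 + 4 * (L + 2 ^ (L + 1) + 4) + (3 + L) / 2 + 2 := ⟨_, rfl⟩
  have hC0 : 0 < C := by rw [hC]; positivity
  obtain ⟨a, ha⟩ : ∃ a : ℝ, a = (1 / 2 : ℝ) ^ L * η / 8 := ⟨_, rfl⟩
  have ha0 : 0 < a := by rw [ha]; positivity
  have hev : ∀ᶠ k : ℕ in Filter.atTop, C * (log k + 1) ≤ a * k := by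
    have h1 : ∀ᶠ t : ℝ in Filter.atTop, ‖log t‖ ≤ a / (2 * C) * ‖t‖ :=
      isLittleO_log_id_atTop.def (by positivity)
    have h2 : ∀ᶠ t : ℝ in Filter.atTop, 2 * C / a ≤ t := Filter.eventually_ge_atTop _
    filter_upwards [tendsto_natCast_atTop_atTop.eventually h1,
      tendsto_natCast_atTop_atTop.eventually h2, Filter.eventually_ge_atTop 1] with k hk1 hk2 hk3
    have h3 : (0 : ℝ) ≤ k := Nat.cast_nonneg k
    rw [norm_of_nonneg h3, norm_of_nonneg (log_nonneg (by exact_mod_cast hk3))] at hk1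
    rw [div_le_iff₀ ha0] at hk2
    have h4 := mul_le_mul_of_nonneg_left hk1 hC0.le
    have h5 : C * (a / (2 * C) * k) = a * k / 2 := by field_simp
    rw [h5] at h4
    linarith
  obtain ⟨K1, hK1⟩ := Filter.eventually_atTop.mp hev
  refine ⟨max K1 (2 ^ (L + 2)), ?_⟩
  intro k hk
  have hk1 : K1 ≤ k := (le_max_left _ _).trans hk
  have hk2 : 2 ^ (L + 2) ≤ k := (le_max_right _ _).trans hk
  refine ⟨L + k % 2 ^ (L + 1), k / 2 ^ (L + 1), qB k L (k % 2 ^ (L + 1)),
    βB k L (k % 2 ^ (L + 1)), ?_, ?_⟩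
  · refine adm ?_ (Nat.div_add_mod _ _).symm
    apply (Nat.one_le_div_iff (by positivity)).mpr
    rw [pow_succ] at hk2
    omega
  · have h1 := main_est (k := k) (L := L) (r := k % 2 ^ (L + 1)) (j := k / 2 ^ (L + 1)) (by
        apply (Nat.one_le_div_iff (by positivity)).mpr
        rw [pow_succ] at hk2
        omega) (Nat.div_add_mod _ _).symm (Nat.mod_lt _ (by positivity)) hk2 (log c) η hη0
        (by linarith) hL.le (by rw [← hC, ← ha]; exact hK1 k hk1)
    rw [rpow_def_of_pos hc]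
    exact h1

/-- TASK constB: all large exponents. -/
theorem constB (ε : ℝ) (hε : 0 < ε) (hε4 : ε < 4 / exp 1) : ∃ K : ℕ, ∀ k ≥ K,
    ∃ (n j : ℕ) (q : Fin n → ℕ) (β : Fin n → ℝ), Adm k j q β ∧
      (4 / exp 1 - ε) ^ ((k : ℝ) ^ 2 / 4) / Gamma ((k : ℝ) ^ 2 / 4 + 1) ≤
        mB ((k : ℝ) / 2) j q β :=
  constB' _ (by linarith) (by linarith)

end Pool.Agent.H306R2.X379ConstB
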