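import Pool.Agent.H306R2.EvenConst
import Pool.Agent.H306R2.X379ConstB

set_option autoImplicit false

/-! Large exponents. -/

namespace Pool.Agent.H306R2

open Filter

theorem large_k (A : ℝ) (hA : 0 < A) (hA4 : A < 4 / Real.exp 1) :
    ∃ K : ℕ, ∀ k : ℕ, K ≤ k → ∀ᶠ T : ℝ in atTop,
      A ^ ((k : ℝ) ^ 2 / 4) * aF ((k : ℝ) / 2) / Real.Gamma ((k : ℝ) ^ 2 / 4 + 1) *
        (T * Real.log T ^ ((k : ℝ) ^ 2 / 4)) ≤
      ∫ t in (0:ℝ)..T, ‖riemannZeta (1 / 2 + t * Complex.I)‖ ^ k := by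
  obtain ⟨A', hA1, hA2⟩ := exists_between hA4
  obtain ⟨K, hK⟩ := Pool.Agent.H306R2.X379ConstB.constB' A' (by linarith) hA2
  refine ⟨max K 1, fun k hk => ?_⟩
  have hkK : K ≤ k := le_trans (le_max_left _ _) hk
  have hk1 : 1 ≤ k := le_trans (le_max_right _ _) hk
  obtain ⟨n, j, q, β, hadm, hc⟩ := hK k hkK
  have hk0 : (0:ℝ) < k := by exact_mod_cast hk1
  have hG : 0 < Real.Gamma ((k : ℝ) ^ 2 / 4 + 1) := Real.Gamma_pos_of_pos (by positivity)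
  have haF : 0 < aF ((k : ℝ) / 2) := aF_pos (by positivity)
  refine master k j hk1 q β hadm _ ?_
  have h1 : A ^ ((k : ℝ) ^ 2 / 4) < A' ^ ((k : ℝ) ^ 2 / 4) :=
    Real.rpow_lt_rpow hA.le hA1 (by positivity)
  calc A ^ ((k : ℝ) ^ 2 / 4) * aF ((k : ℝ) / 2) / Real.Gamma ((k : ℝ) ^ 2 / 4 + 1)
      = aF ((k : ℝ) / 2) * (A ^ ((k : ℝ) ^ 2 / 4) / Real.Gamma ((k : ℝ) ^ 2 / 4 + 1)) := by ring
    _ < aF ((k : ℝ) / 2) * (A' ^ ((k : ℝ) ^ 2 / 4) / Real.Gamma ((k : ℝ) ^ 2 / 4 + 1)) := by gcongr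
    _ ≤ _ := by gcongr

end Pool.Agent.H306R2
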