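import Pool.Agent.H306R2.Tw

set_option autoImplicit false

/-! Local factors of the Euler product. -/

namespace Pool.Agent.H306R2

open Finset Filter Topology

noncomputable section

lemma lc_sq_le {κ : ℝ} (_hκ : 0 ≤ κ) (m : ℕ) : lc κ m ^ 2 ≤ lc (κ ^ 2) m := by
  unfold lc
  rw [← prod_pow]
  refine prod_le_prod (fun i _ => by positivity) fun i _ => ?_
  rw [div_pow, div_le_div_iff₀ (by positivity) (by positivity)]
  have h1 : 0 ≤ (i:ℝ) * (κ - 1) ^ 2 * ((i:ℝ) + 1) := by positivity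
  nlinarith [h1]

lemma lc_pos {α : ℝ} (hα : 0 < α) (m : ℕ) : 0 < lc α m := by
  unfold lc
  exact prod_pos fun i _ => by positivity

lemma lc_summable {α : ℝ} (hα : 0 < α) {x : ℝ} (hx : 0 < x) (hx1 : x < 1) :
    Summable (fun m : ℕ => lc α m * x ^ m) := by
  refine summable_of_ratio_test_tendsto_lt_one hx1 (Eventually.of_forall fun m => ?_) ?_
  · have := lc_pos hα m
    positivity
  · have h1 : ∀ m : ℕ, ‖lc α (m + 1) * x ^ (m + 1)‖ / ‖lc α m * x ^ m‖ =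
        (1 + (α - 1) * (1 / ((m:ℝ) + 1))) * x := by
      intro m
      have h2 := lc_pos hα m
      have h3 := lc_pos hα (m + 1)
      rw [Real.norm_of_nonneg (by positivity), Real.norm_of_nonneg (by positivity), lc_succ]
      have h4 : (m:ℝ) + 1 ≠ 0 := by positivity
      field_simp
      ring
    simp only [h1]
    have h5 : Tendsto (fun m : ℕ => 1 / ((m:ℝ) + 1)) atTop (𝓝 0) :=
      tendsto_one_div_add_atTop_nhds_zero_nat
    have h6 := ((h5.const_mul (α - 1)).const_add 1).mul_const x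
    simpa using h6

section

variable {ι : Type*} [Fintype ι]

/-- the summand after collecting tuples with given product -/
def cf (e s : ι → ℝ) (n : ℕ) : ℝ := dv (∑ i, e i) n * Gs e s n / n

lemma cf_zero (e s : ι → ℝ) : cf e s 0 = 0 := by simp [cf]

lemma cf_one (e s : ι → ℝ) : cf e s 1 = 1 := by simp [cf, dv_one, Gs_one]

lemma cf_mult (e s : ι → ℝ) {m n : ℕ} (h : Nat.Coprime m n) :
    cf e s (m * n) = cf e s m * cf e s n := by
  unfold cf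
  have h1 := (dA_mult (∑ i, e i)).map_mul_of_coprime h
  rw [dA_apply, dA_apply, dA_apply] at h1
  rw [h1, (Gs_mult e s).map_mul_of_coprime h]
  push_cast
  rw [div_mul_div_comm]
  ring

lemma cf_nonneg {e : ι → ℝ} (he : ∀ i, 0 ≤ e i) (s : ι → ℝ) (n : ℕ) : 0 ≤ cf e s n := by
  unfold cf
  have h1 := Gs_nonneg he s n
  have h2 := dv_nonneg (sum_nonneg fun i _ => he i : 0 ≤ ∑ i, e i) n
  positivity

lemma cf_pp_le {e : ι → ℝ} (he : ∀ i, 0 ≤ e i) {s : ι → ℝ} (hs : ∀ i, 0 ≤ s i) {p : ℕ}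
    (hp : p.Prime) (m : ℕ) :
    cf e s (p ^ m) ≤ lc ((∑ i, e i) ^ 2) m * (1 / (p:ℝ)) ^ m := by
  have hE : 0 ≤ ∑ i, e i := sum_nonneg fun i _ => he i
  have h1 := Gs_le he hs (p ^ m)
  rw [neg_zero, Real.rpow_zero, mul_one, dv_prime_pow _ hp] at h1
  have h2 := lc_sq_le hE m
  have h3 := lc_nonneg hE m
  unfold cf
  rw [dv_prime_pow _ hp, one_div, inv_pow, div_eq_mul_inv]
  push_cast
  gcongr
  calc lc (∑ i, e i) m * Gs e s (p ^ m) ≤ lc (∑ i, e i) m * lc (∑ i, e i) m := by gcongr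
    _ = lc (∑ i, e i) m ^ 2 := by ring
    _ ≤ _ := h2

/-- the local factor -/
def Ep (e s : ι → ℝ) (p : ℕ) : ℝ := ∑' m : ℕ, cf e s (p ^ m)

lemma inv_prime {p : ℕ} (hp : p.Prime) : 0 < 1 / (p:ℝ) ∧ 1 / (p:ℝ) ≤ 1 / 2 := by
  have h2 : (2:ℝ) ≤ p := by exact_mod_cast hp.two_le
  constructor
  · positivity
  · exact one_div_le_one_div_of_le (by norm_num) h2

lemma cf_pp_summable {e : ι → ℝ} (he : ∀ i, 0 ≤ e i) (hE : 0 < ∑ i, e i) {s : ι → ℝ}
    (hs : ∀ i, 0 ≤ s i) {p : ℕ} (hp : p.Prime) : Summable (fun m : ℕ => cf e s (p ^ m)) := by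
  have hp' := inv_prime hp
  exact Summable.of_nonneg_of_le (fun m => cf_nonneg he s _) (fun m => cf_pp_le he hs hp m)
    (lc_summable (by positivity) hp'.1 (by linarith [hp'.2]))

/-- constant -/
def C0 (κ : ℝ) : ℝ := ∑' m : ℕ, lc (κ ^ 2) (m + 2) * (1 / 2 : ℝ) ^ m

lemma C0_summable {κ : ℝ} (hκ : 0 < κ) :
    Summable (fun m : ℕ => lc (κ ^ 2) (m + 2) * (1 / 2 : ℝ) ^ m) := by
  have h := (lc_summable (α := κ ^ 2) (by positivity) (x := 1/2) (by norm_num) (by norm_num))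
  have h2 := (summable_nat_add_iff 2).mpr h
  have h3 := h2.mul_left 4
  refine h3.congr fun m => ?_
  rw [pow_add]
  ring

lemma C0_nonneg {κ : ℝ} (hκ : 0 < κ) : 0 ≤ C0 κ :=
  tsum_nonneg fun m => mul_nonneg (lc_nonneg (by positivity) _) (by positivity)

lemma Ep_expand {e : ι → ℝ} (he : ∀ i, 0 ≤ e i) (hE : 0 < ∑ i, e i) {s : ι → ℝ}
    (hs : ∀ i, 0 ≤ s i) {p : ℕ} (hp : p.Prime) :
    ∃ R : ℝ, 0 ≤ R ∧ R ≤ C0 (∑ i, e i) * (1 / (p:ℝ)) ^ 2 ∧
      Ep e s p = 1 + (∑ i, e i) * (∑ i, e i * (p:ℝ) ^ (-(s i))) / p + R := by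
  have hp' := inv_prime hp
  have hsum := cf_pp_summable he hE hs hp
  refine ⟨∑' m : ℕ, cf e s (p ^ (m + 2)), tsum_nonneg fun m => cf_nonneg he s _, ?_, ?_⟩
  · unfold C0
    rw [← tsum_mul_right]
    refine Summable.tsum_le_tsum (fun m => ?_) ((summable_nat_add_iff 2).mpr hsum)
      ((C0_summable hE).mul_right _)
    refine (cf_pp_le he hs hp (m + 2)).trans ?_
    rw [pow_add, mul_assoc]
    have h1 : (1 / (p:ℝ)) ^ m ≤ (1 / 2) ^ m := pow_le_pow_left₀ hp'.1.le hp'.2 m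
    have h2 := lc_nonneg (α := (∑ i, e i) ^ 2) (by positivity) (m + 2)
    gcongr
  · unfold Ep
    rw [← hsum.sum_add_tsum_nat_add 2]
    simp only [sum_range_succ, sum_range_zero, pow_zero, pow_one, zero_add, cf_one]
    congr 2
    unfold cf
    rw [Gs_prime _ _ hp]
    have := dv_prime_pow (∑ i, e i) hp 1
    rw [pow_one] at this
    rw [this, lc_one]

lemma log_bd {x : ℝ} (hx : 0 ≤ x) : |Real.log (1 + x) - x| ≤ x ^ 2 := by
  have h1 := Real.le_log_one_add_of_nonneg hx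
  have h2 := Real.log_le_sub_one_of_pos (by linarith : 0 < 1 + x)
  rw [abs_le]
  constructor
  · have h3 : x - 2 * x / (x + 2) ≤ x ^ 2 := by
      rw [sub_le_iff_le_add, ← sub_le_iff_le_add', le_div_iff₀ (by linarith)]
      nlinarith [mul_nonneg hx hx, mul_nonneg (mul_nonneg hx hx) hx]
    linarith
  · nlinarith [sq_nonneg x]

lemma log_bd' {y : ℝ} (hy : 0 ≤ y) (hy2 : y ≤ 1 / 2) : |Real.log (1 - y) + y| ≤ 2 * y ^ 2 := by
  have h := Real.abs_log_sub_add_sum_range_le (x := y) (by rw [abs_of_nonneg hy]; linarith) 1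
  simp only [sum_range_succ, sum_range_zero, zero_add, pow_one, Nat.cast_zero, div_one] at h
  rw [abs_of_nonneg hy] at h
  rw [add_comm]
  refine h.trans ?_
  rw [div_le_iff₀ (by linarith)]
  have h5 : 0 ≤ y ^ 2 * (1 - 2 * y) := mul_nonneg (sq_nonneg y) (by linarith)
  have h6 : y ^ (1 + 1) = y ^ 2 := by norm_num
  rw [h6]
  nlinarith [h5]

/-- logarithm of the corrected local factor -/
def up (e s : ι → ℝ) (p : ℕ) : ℝ :=
  Real.log (Ep e s p) + ∑ i, (∑ i, e i) * e i * Real.log (1 - (p:ℝ) ^ (-1 - s i))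

/-- constant in the bound for `up` -/
def C1 (κ : ℝ) : ℝ := (κ ^ 2 + C0 κ) ^ 2 + C0 κ + 2 * κ ^ 2

lemma rpow_term {p : ℕ} (hp : p.Prime) {σ : ℝ} (hσ : 0 ≤ σ) :
    0 < (p:ℝ) ^ (-1 - σ) ∧ (p:ℝ) ^ (-1 - σ) ≤ 1 / (p:ℝ) ∧
    (p:ℝ) ^ (-1 - σ) = (p:ℝ) ^ (-σ) / p := by
  have h0 : (0:ℝ) < p := by exact_mod_cast hp.pos
  have h1 : (1:ℝ) ≤ p := by exact_mod_cast hp.one_lt.le
  refine ⟨by positivity, ?_, ?_⟩
  · have := Real.rpow_le_rpow_of_exponent_le h1 (by linarith : -1 - σ ≤ -1)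
    rw [Real.rpow_neg_one] at this
    rwa [one_div]
  · rw [show (-1 - σ : ℝ) = -σ - 1 by ring, Real.rpow_sub h0, Real.rpow_one]

lemma Ep_ge_one {e : ι → ℝ} (he : ∀ i, 0 ≤ e i) (hE : 0 < ∑ i, e i) {s : ι → ℝ}
    (hs : ∀ i, 0 ≤ s i) {p : ℕ} (hp : p.Prime) : 1 ≤ Ep e s p := by
  obtain ⟨R, hR0, hR1, hR⟩ := Ep_expand he hE hs hp
  rw [hR]
  have : 0 ≤ (∑ i, e i) * (∑ i, e i * (p:ℝ) ^ (-(s i))) / p := by
    have : 0 ≤ ∑ i, e i * (p:ℝ) ^ (-(s i)) := sum_nonneg fun i _ => mul_nonneg (he i) (by positivity)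
    positivity
  linarith

lemma up_bound {e : ι → ℝ} (he : ∀ i, 0 ≤ e i) (hE : 0 < ∑ i, e i) {s : ι → ℝ}
    (hs : ∀ i, 0 ≤ s i) {p : ℕ} (hp : p.Prime) :
    |up e s p| ≤ C1 (∑ i, e i) * (1 / (p:ℝ)) ^ 2 := by
  obtain ⟨R, hR0, hR1, hR⟩ := Ep_expand he hE hs hp
  have hp' := inv_prime hp
  set κ := ∑ i, e i with hκ
  set y := 1 / (p:ℝ) with hy
  have hC0 := C0_nonneg hE
  have h0 : (0:ℝ) < p := by exact_mod_cast hp.pos
  have hpp : ∀ i, (p:ℝ) ^ (-(s i)) ≤ 1 := fun i =>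
    Real.rpow_le_one_of_one_le_of_nonpos (by exact_mod_cast hp.one_lt.le) (by linarith [hs i])
  have hS0 : 0 ≤ ∑ i, e i * (p:ℝ) ^ (-(s i)) :=
    sum_nonneg fun i _ => mul_nonneg (he i) (by positivity)
  have hS1 : ∑ i, e i * (p:ℝ) ^ (-(s i)) ≤ κ := by
    rw [hκ]
    exact sum_le_sum fun i _ => mul_le_of_le_one_right (he i) (hpp i)
  set S := ∑ i, e i * (p:ℝ) ^ (-(s i)) with hSdef
  set x := κ * S / p + R with hx
  have hx0 : 0 ≤ x := by positivity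
  have hx1 : x ≤ (κ ^ 2 + C0 κ) * y := by
    have e1 : κ * S / p ≤ κ ^ 2 * y := by
      rw [hy, mul_one_div, pow_two]
      gcongr
    have e2 : C0 κ * y ^ 2 ≤ C0 κ * y := by
      have : y ^ 2 ≤ y := by nlinarith
      gcongr
    linarith
  have h1 : Ep e s p = 1 + x := by rw [hR, hx]; ring
  have hlog := log_bd hx0
  have e3 : up e s p = (Real.log (1 + x) - x) + R +
      ∑ i, κ * e i * (Real.log (1 - (p:ℝ) ^ (-1 - s i)) + (p:ℝ) ^ (-1 - s i)) := by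
    unfold up
    rw [h1]
    simp only [mul_add, sum_add_distrib]
    have e4 : ∑ i, κ * e i * (p:ℝ) ^ (-1 - s i) = κ * S / p := by
      rw [hSdef, mul_sum, sum_div]
      refine sum_congr rfl fun i _ => ?_
      rw [(rpow_term hp (hs i)).2.2]
      ring
    rw [e4, hx]
    ring
  rw [e3]
  have e5 : |∑ i, κ * e i * (Real.log (1 - (p:ℝ) ^ (-1 - s i)) + (p:ℝ) ^ (-1 - s i))| ≤
      2 * κ ^ 2 * y ^ 2 := by
    refine (abs_sum_le_sum_abs _ _).trans ?_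
    have : ∀ i ∈ (univ : Finset ι), |κ * e i * (Real.log (1 - (p:ℝ) ^ (-1 - s i)) + (p:ℝ) ^ (-1 - s i))| ≤
        κ * e i * (2 * y ^ 2) := by
      intro i _
      have h2 := rpow_term hp (hs i)
      rw [abs_mul, abs_of_nonneg (mul_nonneg hE.le (he i))]
      have h3 := log_bd' h2.1.le (h2.2.1.trans hp'.2)
      have h4 : ((p:ℝ) ^ (-1 - s i)) ^ 2 ≤ y ^ 2 := pow_le_pow_left₀ h2.1.le h2.2.1 2
      have h5 := mul_nonneg hE.le (he i)
      refine mul_le_mul_of_nonneg_left ?_ h5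
      linarith
    refine (sum_le_sum this).trans ?_
    rw [← sum_mul, ← mul_sum, ← hκ]
    apply le_of_eq; ring
  have e6 : x ^ 2 ≤ (κ ^ 2 + C0 κ) ^ 2 * y ^ 2 := by
    rw [← mul_pow]
    exact pow_le_pow_left₀ hx0 hx1 2
  calc _ ≤ |Real.log (1 + x) - x| + |R| +
        |∑ i, κ * e i * (Real.log (1 - (p:ℝ) ^ (-1 - s i)) + (p:ℝ) ^ (-1 - s i))| := abs_add_three _ _ _
    _ ≤ (κ ^ 2 + C0 κ) ^ 2 * y ^ 2 + C0 κ * y ^ 2 + 2 * κ ^ 2 * y ^ 2 := by
        rw [abs_of_nonneg hR0]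
        gcongr
        exact hlog.trans e6
    _ = C1 κ * y ^ 2 := by unfold C1; ring

end

end

end Pool.Agent.H306R2
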