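import Mathlib

set_option autoImplicit false

/-! Admissible parameters and the constant in the lower bound. -/

namespace Pool.Agent.H306R2

/-- the constant in the lower bound (without the arithmetic factor), `κ = k/2`. -/
noncomputable def mB {n : ℕ} (κ : ℝ) (j : ℕ) (q : Fin n → ℕ) (β : Fin n → ℝ) : ℝ :=
  ((∏ i, (β i) ^ (κ ^ 2 / q i) / Real.Gamma (κ ^ 2 / q i + 1)) *
    (1 - ∑ i, β i * (κ ^ 2 / q i / (κ ^ 2 / q i + 1))) ^ (2 * (κ * j)) *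
    Real.Gamma (κ ^ 2 + 1) / Real.Gamma (κ * j + 1) ^ 2) ^ (κ / j)

/-- admissible parameters for the exponent `k` -/
structure Adm (k : ℕ) {n : ℕ} (j : ℕ) (q : Fin n → ℕ) (β : Fin n → ℝ) : Prop where
  hj : 1 ≤ j
  hq : ∀ i, 2 ≤ q i
  hsum : 2 * (j : ℝ) / k + ∑ i, 1 / (q i : ℝ) = 1
  hβ : ∀ i, 0 < β i
  hβq : ∀ i, β i ≤ 1 / (q i : ℝ)
  hβs : ∑ i, β i ≤ 1
  hm : 1 ≤ (k : ℝ) / 2 * j

end Pool.Agent.H306R2
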