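import Pool.Agent.H306R2.Master

set_option autoImplicit false

/-! The master lower bound: assembly. -/

namespace Pool.Agent.H306R2

open Finset Filter Topology MeasureTheory

noncomputable section

/-- lower bound with fixed parameters -/
theorem lower_fixed {n : ℕ} (k j : ℕ) (hk : 1 ≤ k) (q : Fin n → ℕ) (β : Fin n → ℝ) (hA : Adm k j q β)
    (N S : ℝ) (K : Fin n → ℝ) (hN : 0 < N)
    (hNV : N < aF ((k:ℝ) / 2) * ((∏ i : Fin n, (β i) ^ (((k:ℝ) / 2) ^ 2 / q i) /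
        Real.Gamma (((k:ℝ) / 2) ^ 2 / q i + 1)) *
      ((1 - ∑ i : Fin n, β i * (((k:ℝ) / 2) ^ 2 / q i / (((k:ℝ) / 2) ^ 2 / q i + 1))) ^
        (((k:ℝ) / 2) * j) / Real.Gamma (((k:ℝ) / 2) * j + 1))))
    (hSV : aF ((k:ℝ) / 2) / Real.Gamma (((k:ℝ) / 2) ^ 2 + 1) < S)
    (hKV : ∀ i, aF ((k:ℝ) / 2) * ((β i) ^ (((k:ℝ) / 2) ^ 2 / q i) /
        Real.Gamma (((k:ℝ) / 2) ^ 2 / q i + 1)) ^ (q i) < K i)
    (x : ℝ) (hx : 0 < x) (hx2 : x < 1 / 4) :
    ∀ᶠ T : ℝ in atTop,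
      (N / (S ^ (1 / 2 : ℝ) * ∏ i, K i ^ (1 / (2 * (q i : ℝ))))) ^ ((k:ℝ) / j) *
        ((1 - 2 * x) * (1 - 2 * x) ^ (((k:ℝ) / 2) ^ 2)) * (T * Real.log T ^ (((k:ℝ) / 2) ^ 2)) ≤
      ∫ t in (0:ℝ)..T, ‖riemannZeta (1 / 2 + t * Complex.I)‖ ^ k := by
  have hk0 : (0:ℝ) < k := by exact_mod_cast hk
  have hj0 : (0:ℝ) < j := by exact_mod_cast hA.hj
  have hq0 : ∀ i, (0:ℝ) < q i := fun i => by exact_mod_cast (by linarith [hA.hq i] : 0 < q i)
  set κ : ℝ := (k:ℝ) / 2 with hκ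
  have hκ0 : 0 < κ := by positivity
  have hS0 : 0 < S := lt_trans (div_pos (aF_pos hκ0) (Real.Gamma_pos_of_pos (by positivity))) hSV
  have hV0 : ∀ i, 0 < (β i) ^ (κ ^ 2 / q i) / Real.Gamma (κ ^ 2 / q i + 1) := fun i => by
    have h1 := hA.hβ i
    have h2 := hq0 i
    have h3 := Real.Gamma_pos_of_pos (by positivity : 0 < κ ^ 2 / q i + 1)
    positivity
  have hK0 : ∀ i, 0 < K i := fun i =>
    lt_trans (mul_pos (aF_pos hκ0) (pow_pos (hV0 i) _)) (hKV i)
  -- exponents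
  have hsumq : (j:ℝ) + ∑ i, κ / q i = κ := by
    have h := hA.hsum
    have h1 : ∑ i, κ / (q i:ℝ) = κ * ∑ i, 1 / (q i : ℝ) := by
      rw [mul_sum]
      exact sum_congr rfl fun i _ => by ring
    have h2 : ∑ i, 1 / (q i : ℝ) = 1 - 2 * (j:ℝ) / k := by linarith
    rw [h1, h2, hκ]
    field_simp
    ring
  have hjk : (j:ℝ) / k + 1 / 2 + ∑ i, 1 / (2 * (q i : ℝ)) = 1 := by
    have h := hA.hsum
    have h1 : ∑ i, 1 / (2 * (q i : ℝ)) = (∑ i, 1 / (q i : ℝ)) / 2 := by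
      rw [sum_div]
      exact sum_congr rfl fun i _ => by rw [div_div, mul_comm (q i : ℝ) 2]
    rw [h1]
    have h2 : ∑ i, 1 / (q i : ℝ) = 1 - 2 * (j:ℝ) / k := by linarith
    rw [h2]
    ring
  have he : ∀ i, 0 < κ / (q i : ℝ) := fun i => div_pos hκ0 (hq0 i)
  have hκe : ∀ i, κ * (κ / (q i : ℝ)) = κ ^ 2 / q i := fun i => by ring
  have hqe : ∀ i, (q i : ℝ) * (κ / (q i : ℝ)) = κ := fun i => by
    have := hq0 i
    field_simp
  have hEN := N_window j hA.hj (fun i => κ / (q i : ℝ)) he κ hsumq.symm β hA.hβ hA.hβs hA.hm N (by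
    simp only [hκe]
    exact hNV) x x hx (by linarith) hx (by linarith)
  have hES := K_window κ hκ0 1 le_rfl 1 one_pos (by norm_num) S (by
    simp only [Nat.cast_one, one_mul, Real.one_rpow, pow_one]
    rw [mul_one_div, ← pow_two]
    exact hSV) x x hx (by linarith) hx (by linarith)
  have hEK : ∀ i, ∀ᶠ T : ℝ in atTop, ∀ τ : ℝ, x * T ≤ τ → τ ≤ T →
      ∫ t in (τ - x / 2 * T)..(τ + x / 2 * T),
        ‖Dp (tr (dA (κ / (q i : ℝ))) (Yt x T ^ β i)) (Yt x T ^ β i) (1 / 2 + t * Complex.I)‖ ^ (2 * q i) *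
          gw τ (Ht x T) t ≤ K i * Real.log (Yt x T) ^ (κ ^ 2) := by
    intro i
    have h := K_window (κ / (q i : ℝ)) (he i) (q i) (by linarith [hA.hq i]) (β i) (hA.hβ i) (by
      have := hA.hβq i
      rwa [le_div_iff₀ (hq0 i)] at this) (K i) (by
      rw [hqe, hκe]
      exact hKV i) x x hx (by linarith) hx (by linarith)
    rw [hqe] at h
    exact h
  have hEK' := eventually_all.mpr hEK
  filter_upwards [hEN, hES, hEK', eventually_gt_atTop 1, (Yt_tendsto (η := x) (by linarith)).eventually_gt_atTop 0]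
    with T hT1 hT2 hT3 hT4 hT5
  have hT0 : 0 < T := by linarith
  have hH0 : 0 < Ht x T := Real.rpow_pos_of_pos hT0 _
  set Λ := Real.log (Yt x T) ^ (κ ^ 2) with hΛ
  have hΛ0 : 0 < Λ := Real.rpow_pos_of_pos hT5 _
  set D := (N / (S ^ (1 / 2 : ℝ) * ∏ i, K i ^ (1 / (2 * (q i : ℝ))))) ^ ((k:ℝ) / j) with hD
  have hD0 : 0 ≤ D := by
    have : 0 < S ^ (1 / 2 : ℝ) * ∏ i, K i ^ (1 / (2 * (q i : ℝ))) :=
      mul_pos (by positivity) (prod_pos fun i _ => Real.rpow_pos_of_pos (hK0 i) _)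
    positivity
  have hwin : ∀ τ ∈ Set.Icc (x * T) ((1 - x) * T), D * Λ ≤
      ∫ t in (τ - x / 2 * T)..(τ + x / 2 * T), ‖riemannZeta (1 / 2 + t * Complex.I)‖ ^ k *
        gw τ (Ht x T) t := by
    intro τ hτ
    have hτ2 : τ ≤ T := by
      have := hτ.2
      nlinarith
    have h := window_holder n q (fun i => by linarith [hA.hq i]) j k hA.hj hk hjk
      (fun t => riemannZeta (1 / 2 + t * Complex.I))
      (fun t => Dp (dA κ) (Yt x T) (1 / 2 + t * Complex.I))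
      (fun i t => Dp (tr (dA (κ / (q i : ℝ))) (Yt x T ^ β i)) (Yt x T ^ β i) (1 / 2 + t * Complex.I))
      zeta_line_continuous (Dp_line_continuous _ _) (fun i => Dp_line_continuous _ _)
      (gw τ (Ht x T)) (gw_continuous _ _) (fun t => gw_nonneg _ _ _ hH0)
      (τ - x / 2 * T) (τ + x / 2 * T) (by nlinarith) (N * Λ) (S * Λ) (fun i => K i * Λ)
      (by positivity) (by positivity) (fun i => mul_pos (hK0 i) hΛ0)
      (hT1 τ hτ.1 hτ2)
      (by
        have := hT2 τ hτ.1 hτ2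
        simp only [Real.rpow_one, Nat.cast_one, one_mul, mul_one, Dp_trunc] at this
        exact this)
      (fun i => hT3 i τ hτ.1 hτ2)
    rw [pull q hA.hq j k hA.hj hk hjk N S K Λ hN hS0 hK0 hΛ0] at h
    exact h
  have hfin := window_sum (fun t => ‖riemannZeta (1 / 2 + t * Complex.I)‖ ^ k)
    (zeta_line_continuous.norm.pow k) (fun t => by positivity)
    (fun τ t => gw τ (Ht x T) t) (by unfold gw; fun_prop) (fun τ t => gw_nonneg _ _ _ hH0)
    (by
      intro t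
      have h1 : ∀ τ, gw τ (Ht x T) t = gw t (Ht x T) τ := fun τ => gw_symm _ _ _
      simp only [h1]
      rw [← ofReal_integral_eq_lintegral_ofReal (gw_integrable _ _ hH0)
        (Eventually.of_forall fun τ => gw_nonneg _ _ _ hH0), gw_integral _ _ hH0]
      simp)
    T (x * T) ((1 - x) * T) (x / 2 * T) (D * Λ) (by nlinarith) (by positivity) (by nlinarith)
    (by nlinarith) (by positivity) hwin
  refine le_trans (le_of_eq ?_) hfin
  have hlog : Real.log (Yt x T) = (1 - 2 * x) * Real.log T := by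
    unfold Yt
    rw [Real.log_rpow hT0]
  rw [hΛ, hlog, Real.mul_rpow (by linarith) (Real.log_nonneg hT4.le)]
  ring

/-- **Master lower bound.** -/
theorem master {n : ℕ} (k j : ℕ) (hk : 1 ≤ k) (q : Fin n → ℕ) (β : Fin n → ℝ) (hA : Adm k j q β)
    (c : ℝ) (hc : c < aF ((k:ℝ) / 2) * mB ((k:ℝ) / 2) j q β) :
    ∀ᶠ T : ℝ in atTop, c * (T * Real.log T ^ ((k:ℝ) ^ 2 / 4)) ≤
      ∫ t in (0:ℝ)..T, ‖riemannZeta (1 / 2 + t * Complex.I)‖ ^ k := by
  have hk0 : (0:ℝ) < k := by exact_mod_cast hk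
  have hj0 : (0:ℝ) < j := by exact_mod_cast hA.hj
  have hq0 : ∀ i, (0:ℝ) < q i := fun i => by exact_mod_cast (by linarith [hA.hq i] : 0 < q i)
  have hjk : (j:ℝ) / k + 1 / 2 + ∑ i, 1 / (2 * (q i : ℝ)) = 1 := by
    have h := hA.hsum
    have h1 : ∑ i, 1 / (2 * (q i : ℝ)) = (∑ i, 1 / (q i : ℝ)) / 2 := by
      rw [sum_div]
      exact sum_congr rfl fun i _ => by rw [div_div, mul_comm (q i : ℝ) 2]
    rw [h1]
    have h2 : ∑ i, 1 / (q i : ℝ) = 1 - 2 * (j:ℝ) / k := by linarith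
    rw [h2]
    ring
  set κ : ℝ := (k:ℝ) / 2 with hκ
  have hκ0 : 0 < κ := by positivity
  have hκ2 : (k:ℝ) ^ 2 / 4 = κ ^ 2 := by rw [hκ]; ring
  set a := aF κ with ha
  have ha0 : 0 < a := aF_pos hκ0
  set V : Fin n → ℝ := fun i => (β i) ^ (κ ^ 2 / q i) / Real.Gamma (κ ^ 2 / q i + 1) with hV
  have hV0 : ∀ i, 0 < V i := fun i => by
    have h1 := hA.hβ i
    have h2 := hq0 i
    have h3 := Real.Gamma_pos_of_pos (by positivity : 0 < κ ^ 2 / q i + 1)
    rw [hV]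
    positivity
  set t := 1 - ∑ i, β i * (κ ^ 2 / q i / (κ ^ 2 / q i + 1)) with ht
  have ht0 : 0 < t := by
    rcases Nat.eq_zero_or_pos n with h0 | h0
    · subst h0
      rw [ht]; simp
    · have : ∑ i, β i * (κ ^ 2 / q i / (κ ^ 2 / q i + 1)) < ∑ i, β i := by
        have hne : (univ : Finset (Fin n)).Nonempty := ⟨⟨0, h0⟩, mem_univ _⟩
        refine sum_lt_sum_of_nonempty hne fun i _ => ?_
        have h1 := hA.hβ i
        have h2 := hq0 i
        have h4 : 0 < κ ^ 2 / q i := by positivity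
        have h3 : κ ^ 2 / q i / (κ ^ 2 / q i + 1) < 1 := by rw [div_lt_one (by linarith)]; linarith
        nlinarith
      have := hA.hβs
      linarith
  set G := Real.Gamma (κ ^ 2 + 1) with hG
  have hG0 : 0 < G := Real.Gamma_pos_of_pos (by positivity)
  set G0 := Real.Gamma (κ * j + 1) with hG0d
  have hG00 : 0 < G0 := Real.Gamma_pos_of_pos (by positivity)
  have hPV : 0 < ∏ i, V i := prod_pos fun i _ => hV0 i
  set N0 := a * ((∏ i, V i) * (t ^ (κ * j) / G0)) with hN0d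
  have hN0 : 0 < N0 := by positivity
  have hconst : (N0 / ((a / G) ^ (1 / 2 : ℝ) * ∏ i, (a * V i ^ (q i)) ^ (1 / (2 * (q i : ℝ))))) ^
      ((k:ℝ) / j) = a * mB κ j q β := by
    rw [hN0d, const_eq q hA.hq j k hA.hj hk hjk a ha0 V hV0 t (κ * j) G G0 ht0 hG0 hG00]
    rfl
  -- perturbation
  set f : ℝ → ℝ := fun x => (((1 - x) * N0) / (((1 + x) * (a / G)) ^ (1 / 2 : ℝ) *
      ∏ i, ((1 + x) * (a * V i ^ (q i))) ^ (1 / (2 * (q i : ℝ))))) ^ ((k:ℝ) / j) *
        ((1 - 2 * x) * (1 - 2 * x) ^ (κ ^ 2)) with hf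
  have hf0 : f 0 = a * mB κ j q β := by
    rw [hf]
    simp only [sub_zero, one_mul, add_zero, mul_zero, Real.one_rpow, mul_one]
    exact hconst
  have hlim : Tendsto f (𝓝[>] 0) (𝓝 (f 0)) := by
    have h1 : ContinuousAt f 0 := by
      rw [hf]
      have hprod : ContinuousAt (fun x : ℝ => ∏ i, ((1 + x) * (a * V i ^ (q i))) ^ (1 / (2 * (q i : ℝ)))) 0 := by
        refine tendsto_finsetProd _ fun i _ => ?_
        have hc : ContinuousAt (fun x : ℝ => ((1 + x) * (a * V i ^ (q i))) ^ (1 / (2 * (q i : ℝ)))) 0 := by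
          refine ContinuousAt.rpow_const (by fun_prop) (Or.inl ?_)
          have := hV0 i
          simp only [add_zero, one_mul]
          positivity
        exact hc
      have hD0 : ((1 + (0:ℝ)) * (a / G)) ^ (1 / 2 : ℝ) *
          ∏ i, ((1 + (0:ℝ)) * (a * V i ^ (q i))) ^ (1 / (2 * (q i : ℝ))) ≠ 0 := by
        simp only [add_zero, one_mul]
        have h1 : 0 < ∏ i, (a * V i ^ (q i)) ^ (1 / (2 * (q i : ℝ))) :=
          prod_pos fun i _ => Real.rpow_pos_of_pos (mul_pos ha0 (pow_pos (hV0 i) _)) _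
        positivity
      have hS : ContinuousAt (fun x : ℝ => ((1 + x) * (a / G)) ^ (1 / 2 : ℝ)) 0 := by
        refine ContinuousAt.rpow_const (by fun_prop) (Or.inl ?_)
        simp only [add_zero, one_mul]
        positivity
      refine ContinuousAt.mul (ContinuousAt.rpow_const (ContinuousAt.div (by fun_prop)
        (hS.mul hprod) hD0) (Or.inl ?_)) (ContinuousAt.mul (by fun_prop)
          (ContinuousAt.rpow_const (by fun_prop) (Or.inl (by norm_num))))
      have h1 : 0 < ∏ i, (a * V i ^ (q i)) ^ (1 / (2 * (q i : ℝ))) :=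
        prod_pos fun i _ => Real.rpow_pos_of_pos (mul_pos ha0 (pow_pos (hV0 i) _)) _
      simp only [sub_zero, add_zero, one_mul]
      positivity
    exact h1.tendsto.mono_left nhdsWithin_le_nhds
  rw [hf0] at hlim
  obtain ⟨x, hxc, hx0, hx4⟩ := ((hlim.eventually_const_lt hc).and
    (Ioo_mem_nhdsGT (by norm_num : (0:ℝ) < 1 / 4))).exists
  have hmain := lower_fixed k j hk q β hA ((1 - x) * N0) ((1 + x) * (a / G))
    (fun i => (1 + x) * (a * V i ^ (q i))) (mul_pos (by linarith) hN0)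
    (by
      have : (1 - x) * N0 < N0 := by nlinarith
      exact this)
    (by
      have : a / G < (1 + x) * (a / G) := by
        have : 0 < a / G := by positivity
        nlinarith
      exact this)
    (fun i => by
      have h1 : 0 < a * V i ^ (q i) := mul_pos ha0 (pow_pos (hV0 i) _)
      have : a * V i ^ (q i) < (1 + x) * (a * V i ^ (q i)) := by nlinarith
      exact this) x hx0 hx4
  rw [hκ2]
  filter_upwards [hmain, eventually_gt_atTop 1] with T hT hT1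
  refine le_trans ?_ hT
  have hlog : 0 ≤ Real.log T := Real.log_nonneg hT1.le
  have : 0 ≤ T * Real.log T ^ (κ ^ 2) := by positivity
  exact mul_le_mul_of_nonneg_right hxc.le this

end

end Pool.Agent.H306R2
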