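import Pool.Agent.H306R2.NW
import Pool.Agent.H306R2.MB

set_option autoImplicit false

/-! The master lower bound. -/

namespace Pool.Agent.H306R2

open Finset Filter Topology MeasureTheory

noncomputable section

/-- pulling out the common factor -/
lemma pull {n : ℕ} (q : Fin n → ℕ) (hq : ∀ i, 2 ≤ q i) (j k : ℕ) (hj : 1 ≤ j) (hk : 1 ≤ k)
    (hjk : (j:ℝ) / k + 1 / 2 + ∑ i, 1 / (2 * (q i : ℝ)) = 1) (N S : ℝ) (K : Fin n → ℝ) (Λ : ℝ)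
    (hN : 0 < N) (hS : 0 < S) (hK : ∀ i, 0 < K i) (hΛ : 0 < Λ) :
    ((N * Λ) / ((S * Λ) ^ (1 / 2 : ℝ) * ∏ i, (K i * Λ) ^ (1 / (2 * (q i : ℝ))))) ^ ((k:ℝ) / j) =
    (N / (S ^ (1 / 2 : ℝ) * ∏ i, K i ^ (1 / (2 * (q i : ℝ))))) ^ ((k:ℝ) / j) * Λ := by
  have hj0 : (0:ℝ) < j := by exact_mod_cast hj
  have hk0 : (0:ℝ) < k := by exact_mod_cast hk
  have h1 : (S * Λ) ^ (1 / 2 : ℝ) * ∏ i, (K i * Λ) ^ (1 / (2 * (q i : ℝ))) =
      (S ^ (1 / 2 : ℝ) * ∏ i, K i ^ (1 / (2 * (q i : ℝ)))) * Λ ^ (1 - (j:ℝ) / k) := by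
    rw [Real.mul_rpow hS.le hΛ.le]
    have : ∏ i, (K i * Λ) ^ (1 / (2 * (q i : ℝ))) =
        (∏ i, K i ^ (1 / (2 * (q i : ℝ)))) * Λ ^ (∑ i, 1 / (2 * (q i : ℝ))) := by
      rw [Real.rpow_sum_of_pos hΛ, ← prod_mul_distrib]
      exact prod_congr rfl fun i _ => Real.mul_rpow (hK i).le hΛ.le
    rw [this, show 1 - (j:ℝ) / k = 1 / 2 + ∑ i, 1 / (2 * (q i : ℝ)) by linarith,
      Real.rpow_add hΛ]
    ring
  have hD : 0 < S ^ (1 / 2 : ℝ) * ∏ i, K i ^ (1 / (2 * (q i : ℝ))) :=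
    mul_pos (by positivity) (prod_pos fun i _ => Real.rpow_pos_of_pos (hK i) _)
  set D := S ^ (1 / 2 : ℝ) * ∏ i, K i ^ (1 / (2 * (q i : ℝ))) with hDdef
  have h2 : (N * Λ) / (D * Λ ^ (1 - (j:ℝ) / k)) = (N / D) * Λ ^ ((j:ℝ) / k) := by
    rw [Real.rpow_sub hΛ, Real.rpow_one]
    have : 0 < Λ ^ ((j:ℝ) / k) := by positivity
    field_simp
  rw [h1, h2, Real.mul_rpow (by positivity) (by positivity), ← Real.rpow_mul hΛ.le,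
    show (j:ℝ) / k * ((k:ℝ) / j) = 1 by field_simp, Real.rpow_one]

/-- value of the constant at the limit point -/
lemma const_eq {n : ℕ} (q : Fin n → ℕ) (hq : ∀ i, 2 ≤ q i) (j k : ℕ) (hj : 1 ≤ j) (hk : 1 ≤ k)
    (hjk : (j:ℝ) / k + 1 / 2 + ∑ i, 1 / (2 * (q i : ℝ)) = 1) (a : ℝ) (ha : 0 < a)
    (V : Fin n → ℝ) (hV : ∀ i, 0 < V i) (t m0 G G0 : ℝ) (ht : 0 < t) (hG : 0 < G) (hG0 : 0 < G0) :
    ((a * ((∏ i, V i) * (t ^ m0 / G0))) /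
      ((a / G) ^ (1 / 2 : ℝ) * ∏ i, (a * V i ^ (q i)) ^ (1 / (2 * (q i : ℝ))))) ^ ((k:ℝ) / j) =
    a * ((∏ i, V i) * t ^ (2 * m0) * G / G0 ^ 2) ^ ((k:ℝ) / 2 / j) := by
  have hj0 : (0:ℝ) < j := by exact_mod_cast hj
  have hk0 : (0:ℝ) < k := by exact_mod_cast hk
  have hP : 0 < ∏ i, V i := prod_pos fun i _ => hV i
  have h1 : ∏ i, (a * V i ^ (q i)) ^ (1 / (2 * (q i : ℝ))) =
      (∏ i, V i) ^ (1 / 2 : ℝ) * a ^ (∑ i, 1 / (2 * (q i : ℝ))) := by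
    rw [Real.rpow_sum_of_pos ha, ← Real.finsetProd_rpow _ _ fun i _ => (hV i).le, ← prod_mul_distrib]
    refine prod_congr rfl fun i _ => ?_
    have hqi : (0:ℝ) < q i := by exact_mod_cast (by linarith [hq i] : 0 < q i)
    rw [Real.mul_rpow ha.le (by have := hV i; positivity), ← Real.rpow_natCast (V i) (q i),
      ← Real.rpow_mul (hV i).le]
    rw [show (q i : ℝ) * (1 / (2 * (q i : ℝ))) = 1 / 2 by field_simp]
    ring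
  have h2 : (a / G) ^ (1 / 2 : ℝ) = a ^ (1 / 2 : ℝ) / G ^ (1 / 2 : ℝ) := Real.div_rpow ha.le hG.le _
  have h3 : (a / G) ^ (1 / 2 : ℝ) * ∏ i, (a * V i ^ (q i)) ^ (1 / (2 * (q i : ℝ))) =
      a ^ (1 - (j:ℝ) / k) * ((∏ i, V i) ^ (1 / 2 : ℝ) / G ^ (1 / 2 : ℝ)) := by
    rw [h1, h2, show 1 - (j:ℝ) / k = 1 / 2 + ∑ i, 1 / (2 * (q i : ℝ)) by linarith, Real.rpow_add ha]
    ring
  have h4 : (a * ((∏ i, V i) * (t ^ m0 / G0))) / (a ^ (1 - (j:ℝ) / k) *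
      ((∏ i, V i) ^ (1 / 2 : ℝ) / G ^ (1 / 2 : ℝ))) =
      a ^ ((j:ℝ) / k) * ((∏ i, V i) * t ^ (2 * m0) * G / G0 ^ 2) ^ (1 / 2 : ℝ) := by
    have e1 : ((∏ i, V i) * t ^ (2 * m0) * G / G0 ^ 2) ^ (1 / 2 : ℝ) =
        (∏ i, V i) ^ (1 / 2 : ℝ) * t ^ m0 * G ^ (1 / 2 : ℝ) / G0 := by
      rw [Real.div_rpow (by positivity) (by positivity), Real.mul_rpow (by positivity) hG.le,
        Real.mul_rpow hP.le (by positivity), ← Real.rpow_mul ht.le,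
        show 2 * m0 * (1 / 2) = m0 by ring]
      congr 1
      rw [← Real.sqrt_eq_rpow, Real.sqrt_sq hG0.le]
    have e2 : ∏ i, V i = (∏ i, V i) ^ (1 / 2 : ℝ) * (∏ i, V i) ^ (1 / 2 : ℝ) := by
      rw [← Real.rpow_add hP]; norm_num
    rw [e1, Real.rpow_sub ha, Real.rpow_one]
    have p1 : 0 < (∏ i, V i) ^ (1 / 2 : ℝ) := by positivity
    have p2 : 0 < G ^ (1 / 2 : ℝ) := by positivity
    have p3 : 0 < a ^ ((j:ℝ) / k) := by positivity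
    rw [e2]
    rw [← e2]
    field_simp
    nlinarith [e2]
  rw [h3, h4, Real.mul_rpow (by positivity) (by positivity), ← Real.rpow_mul ha.le,
    show (j:ℝ) / k * ((k:ℝ) / j) = 1 by field_simp, Real.rpow_one, ← Real.rpow_mul (by positivity)]
  congr 2
  field_simp

end

end Pool.Agent.H306R2
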