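import Pool.Agent.H306R2.KW

set_option autoImplicit false

/-! The twisted first moment and the window integrals. -/

namespace Pool.Agent.H306R2

open Finset Filter Topology MeasureTheory

noncomputable section

/-- product of truncated functions -/
def PA {n : ℕ} (e : Fin n → ℝ) (X : Fin n → ℝ) : ArithmeticFunction ℝ := ∏ i, tr (dA (e i)) (X i)

lemma N_sum {n : ℕ} (j : ℕ) (hj : 1 ≤ j) (e : Fin n → ℝ) (he : ∀ i, 0 < e i) (κ : ℝ)
    (hκ : κ = j + ∑ i, e i) (β : Fin n → ℝ) (hβ : ∀ i, 0 < β i) (hβs : ∑ i, β i ≤ 1)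
    (hm0 : 1 ≤ κ * j) (c : ℝ)
    (hc : c < aF κ * ((∏ i : Fin n, (β i) ^ (κ * e i) / Real.Gamma (κ * e i + 1)) *
      ((1 - ∑ i : Fin n, β i * (κ * e i / (κ * e i + 1))) ^ (κ * j) / Real.Gamma (κ * j + 1))))
    (η : ℝ) (hη2 : η < 1 / 2) :
    ∀ᶠ T : ℝ in atTop, c * Real.log (Yt η T) ^ (κ ^ 2) ≤
      ∑ m ∈ Icc 1 ⌊Yt η T⌋₊, (zR ^ j * PA e (fun i => Yt η T ^ β i)) m * dA κ m / m := by
  have hj0 : (0:ℝ) < j := by exact_mod_cast hj
  set e' : Fin (n + 1) → ℝ := Fin.cons (j:ℝ) e with he'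
  have hs' : ∑ i, e' i = κ := by
    rw [Fin.sum_univ_succ, he']
    simp only [Fin.cons_zero, Fin.cons_succ]
    exact hκ.symm
  have hep : ∀ i, 0 < e' i := by
    intro i
    refine Fin.cases ?_ (fun i => ?_) i
    · rw [he', Fin.cons_zero]; exact hj0
    · rw [he', Fin.cons_succ]; exact he i
  have hκ0 : 0 < κ := by
    rw [← hs']
    exact sum_pos (fun i _ => hep i) ⟨0, mem_univ _⟩
  have hLo := wt_lower e' hep β hβ hβs (by rw [hs', he', Fin.cons_zero]; exact hm0) c (by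
    rw [hs', he']
    simp only [Fin.cons_zero, Fin.cons_succ]
    exact hc)
  rw [hs'] at hLo
  filter_upwards [(Yt_tendsto hη2).eventually hLo, (Yt_tendsto hη2).eventually_gt_atTop 0,
    eventually_gt_atTop 0] with T hT hL hT0
  set Y := Yt η T with hYdef
  have hY0 : 0 < Y := Yt_pos hT0
  have hY1 : 1 < Y := by
    by_contra h
    have := Real.log_nonpos hY0.le (not_lt.mp h)
    linarith
  set g : Fin (n + 1) → ArithmeticFunction ℝ :=
    Fin.cons (dA j) (fun i => tr (dA (e i)) (Y ^ β i)) with hg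
  have hg0 : g 0 = dA j := by rw [hg, Fin.cons_zero]
  have hgs : ∀ i : Fin n, g i.succ = tr (dA (e i)) (Y ^ β i) := by
    intro i
    rw [hg, Fin.cons_succ]
  have hgn : ∀ i n, 0 ≤ g i n := by
    intro i
    refine Fin.cases ?_ (fun i => ?_) i
    · intro n; rw [hg0]; exact dv_nonneg hj0.le n
    · intro n; rw [hgs]; exact tr_nonneg (fun m => dv_nonneg (he i).le m) _ n
  have hprod : ∏ i, g i = zR ^ j * PA e (fun i => Y ^ β i) := by
    rw [Fin.prod_univ_succ, hg0, dA_nat]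
    unfold PA
    simp only [hgs]
  have hs := Fb_hasSum hκ0.le Y g hgn
  have h1 := hT (Fb κ Y g) hs.summable ?_ ?_
  · rw [hs.tsum_eq, hprod] at h1
    exact h1
  · intro b
    unfold Fb
    refine mul_nonneg ?_ (prod_nonneg fun i _ => hgn i _)
    split_ifs
    · exact div_nonneg (dv_nonneg hκ0.le _) (by positivity)
    · exact le_refl _
  · intro b hb1 hb2
    by_cases hz : ∃ i, b i = 0
    · obtain ⟨i, hi⟩ := hz
      have h2 : wt κ e' b = 0 := by
        unfold wt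
        rw [prod_eq_zero (mem_univ i) hi]
        simp [dv]
      have h3 : Fb κ Y g b = 0 := by
        have hp : ∏ i, g i (b i) = 0 :=
          prod_eq_zero (mem_univ i) (by rw [hi, ArithmeticFunction.map_zero])
        unfold Fb
        rw [hp, mul_zero]
      rw [h2, h3]
    · push Not at hz
      have hpr : ((∏ i, b i : ℕ) : ℝ) ≤ Y := by
        have h2 : ∏ i, b i ≠ 0 := prod_ne_zero_iff.mpr fun i _ => hz i
        have h3 := (le_rpow_iff_pos hY1 h2 1).mpr (by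
          rw [Nat.cast_prod, Real.log_prod fun i _ => by exact_mod_cast hz i, sum_div]
          exact hb1)
        rwa [Real.rpow_one] at h3
      refine (Fb_eq_wt κ Y e' g b hpr ?_).ge
      intro i
      revert i
      refine Fin.cases ?_ (fun i => ?_)
      · rw [hg0, he', Fin.cons_zero]; rfl
      · rw [hgs, he', Fin.cons_succ, tr_apply,
          if_pos ((le_rpow_iff_pos hY1 (hz i.succ) (β i)).mpr (hb2 i)), dA_apply]

lemma PA_PB {n : ℕ} {e : Fin n → ℝ} (he : ∀ i, 0 ≤ e i) (X : Fin n → ℝ) {J : ℕ}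
    (hJ : ∑ i, e i ≤ J) : PB (PA e X) J := by
  intro m
  have h0 : 0 ≤ (PA e X) m :=
    prod_nonneg_af _ _ (fun i n => tr_nonneg (fun m => dv_nonneg (he i) m) _ n) m
  have h1 : (PA e X) m ≤ dA (∑ i, e i) m := by
    have h2 : ∏ i, dA (e i) = dA (∑ i, e i) := by
      have := prod_tw_const (univ : Finset (Fin n)) e 0
      simpa only [tw_zero] using this
    rw [← h2]
    exact prod_mono_af _ _ _ (fun i n => tr_nonneg (fun m => dv_nonneg (he i) m) _ n)
      (fun i n => tr_le (fun m => dv_nonneg (he i) m) _ n) m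
  rw [abs_of_nonneg h0]
  refine h1.trans ((le_abs_self _).trans ?_)
  exact PB_dA (sum_nonneg fun i _ => he i) hJ m

/-- support and factorisation of the product of Dirichlet polynomials -/
lemma Dp_prod {ι : Type*} (S : Finset ι) (A : ι → ArithmeticFunction ℝ) (X : ι → ℝ)
    (hX1 : ∀ i, 1 ≤ X i) (hX : ∀ i (n : ℕ), X i < n → A i n = 0) (s : ℂ) :
    (∀ n : ℕ, ∏ i ∈ S, X i < n → (∏ i ∈ S, A i) n = 0) ∧
      Dp (∏ i ∈ S, A i : ArithmeticFunction ℝ) (∏ i ∈ S, X i) s = ∏ i ∈ S, Dp (A i) (X i) s := by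
  classical
  induction S using Finset.induction_on with
  | empty =>
    simp only [prod_empty]
    constructor
    · intro n hn
      rw [ArithmeticFunction.one_apply_ne]
      rintro rfl
      simp at hn
    · unfold Dp
      simp
  | insert a S ha ih =>
    rw [prod_insert ha, prod_insert ha, prod_insert ha]
    have hp : 0 ≤ ∏ i ∈ S, X i := prod_nonneg fun i _ => by linarith [hX1 i]
    have := Dp_mul (A a) (∏ i ∈ S, A i) (X a) (∏ i ∈ S, X i) (by linarith [hX1 a]) hp (hX a) ih.1 s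
    rw [ih.2] at this
    exact this

lemma Dp_trunc (A : ArithmeticFunction ℝ) (X : ℝ) (s : ℂ) : Dp (tr A X) X s = Dp A X s := by
  unfold Dp
  refine sum_congr rfl fun n hn => ?_
  rw [mem_Icc] at hn
  rw [tr_apply, if_pos ((Nat.le_floor_iff' (by omega)).mp hn.2)]

/-- the window integral of the numerator -/
theorem N_window {n : ℕ} (j : ℕ) (hj : 1 ≤ j) (e : Fin n → ℝ) (he : ∀ i, 0 < e i) (κ : ℝ)
    (hκ : κ = j + ∑ i, e i) (β : Fin n → ℝ) (hβ : ∀ i, 0 < β i) (hβs : ∑ i, β i ≤ 1)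
    (hm0 : 1 ≤ κ * j) (c : ℝ)
    (hc : c < aF κ * ((∏ i : Fin n, (β i) ^ (κ * e i) / Real.Gamma (κ * e i + 1)) *
      ((1 - ∑ i : Fin n, β i * (κ * e i / (κ * e i + 1))) ^ (κ * j) / Real.Gamma (κ * j + 1))))
    (η δ : ℝ) (hη : 0 < η) (hη2 : η < 1 / 2) (hδ : 0 < δ) (hδ1 : δ ≤ 1) :
    ∀ᶠ T : ℝ in atTop, ∀ τ : ℝ, δ * T ≤ τ → τ ≤ T →
      c * Real.log (Yt η T) ^ (κ ^ 2) ≤
      ‖∫ t in (τ - δ / 2 * T)..(τ + δ / 2 * T), (riemannZeta (1 / 2 + t * Complex.I) ^ j *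
          ∏ i, Dp (tr (dA (e i)) (Yt η T ^ β i)) (Yt η T ^ β i) (1 / 2 + t * Complex.I)) *
        (starRingEnd ℂ) (Dp (dA κ) (Yt η T) (1 / 2 + t * Complex.I)) * (gw τ (Ht η T) t : ℂ)‖ := by
  obtain ⟨c', hc1, hc2⟩ := exists_between hc
  have hκ0 : 0 < κ := by
    have h1 : 0 ≤ ∑ i, e i := sum_nonneg fun i _ => (he i).le
    have h2 : (0:ℝ) < j := by exact_mod_cast hj
    linarith
  have hN := N_sum j hj e he κ hκ β hβ hβs hm0 c' hc2 η hη2
  obtain ⟨J, hJ⟩ := exists_nat_ge κ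
  have hJ' : ∑ i, e i ≤ J := by
    have h2 : (0:ℝ) < j := by exact_mod_cast hj
    linarith
  have hcore := core_ev j J η δ hη hη2 hδ hδ1
  have hbig : ∀ᶠ T : ℝ in atTop, 1 ≤ (c' - c) * Real.log (Yt η T) ^ (κ ^ 2) := by
    have h1 : Tendsto (fun T : ℝ => (c' - c) * Real.log (Yt η T) ^ (κ ^ 2)) atTop atTop :=
      Tendsto.const_mul_atTop (by linarith)
        ((tendsto_rpow_atTop (by positivity)).comp (Yt_tendsto hη2))
    exact h1.eventually_ge_atTop 1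
  filter_upwards [hN, hcore, hbig, eventually_ge_atTop 1] with T hT1 hT2 hT3 hT4 τ hτ1 hτ2
  have hT0 : 0 < T := by linarith
  set Y := Yt η T with hYdef
  have hY1 : 1 ≤ Y := one_le_Yt hη2 hT4
  have hYT : Y ≤ T := Yt_le hη hT4
  have hXs : ∏ i, Y ^ β i ≤ Y := by
    rw [← Real.rpow_sum_of_pos (by linarith)]
    calc Y ^ (∑ i, β i) ≤ Y ^ (1:ℝ) := Real.rpow_le_rpow_of_exponent_le hY1 hβs
      _ = Y := Real.rpow_one Y
  have hD := fun s => Dp_prod univ (fun i => tr (dA (e i)) (Y ^ β i)) (fun i => Y ^ β i)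
    (fun i => Real.one_le_rpow hY1 (hβ i).le) (fun i n hn => tr_supp _ _ n hn) s
  have hsupp : ∀ n : ℕ, T < n → PA e (fun i => Y ^ β i) n = 0 := fun n hn =>
    (hD 0).1 n (by linarith)
  have h := hT2 τ hτ1 hτ2 (PA e (fun i => Y ^ β i)) (dA κ) (PA_PB (fun i => (he i).le) _ hJ')
    hsupp (PB_dA hκ0.le hJ)
  have hDp : ∀ s, Dp (PA e (fun i => Y ^ β i)) T s = ∏ i, Dp (tr (dA (e i)) (Y ^ β i)) (Y ^ β i) s := by
    intro s
    rw [Dp_mono (PA e (fun i => Y ^ β i)) (∏ i, Y ^ β i) T (by linarith) (hD s).1]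
    exact (hD s).2
  simp only [hDp] at h
  have h2 := norm_sub_norm_le (((∑ m ∈ Icc 1 ⌊Y⌋₊, (zR ^ j * PA e (fun i => Y ^ β i)) m * dA κ m / m : ℝ) : ℂ))
    (∫ t in (τ - δ / 2 * T)..(τ + δ / 2 * T), (riemannZeta (1 / 2 + t * Complex.I) ^ j *
          ∏ i, Dp (tr (dA (e i)) (Y ^ β i)) (Y ^ β i) (1 / 2 + t * Complex.I)) *
        (starRingEnd ℂ) (Dp (dA κ) Y (1 / 2 + t * Complex.I)) * (gw τ (Ht η T) t : ℂ))
  rw [norm_sub_rev] at h2
  rw [Complex.norm_real] at h2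
  have h3 := Real.le_norm_self (∑ m ∈ Icc 1 ⌊Y⌋₊, (zR ^ j * PA e (fun i => Y ^ β i)) m * dA κ m / m)
  linarith

/-- the window integrals of the auxiliary polynomials -/
theorem K_window (e : ℝ) (he : 0 < e) (q : ℕ) (hq : 1 ≤ q) (β : ℝ) (hβ : 0 < β)
    (hβq : β * q ≤ 1) (C : ℝ)
    (hC : aF (q * e) * (β ^ ((q * e) * e) / Real.Gamma ((q * e) * e + 1)) ^ q < C)
    (η δ : ℝ) (hη : 0 < η) (hη2 : η < 1 / 2) (hδ : 0 < δ) (hδ1 : δ ≤ 1) :
    ∀ᶠ T : ℝ in atTop, ∀ τ : ℝ, δ * T ≤ τ → τ ≤ T →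
      ∫ t in (τ - δ / 2 * T)..(τ + δ / 2 * T),
        ‖Dp (tr (dA e) (Yt η T ^ β)) (Yt η T ^ β) (1 / 2 + t * Complex.I)‖ ^ (2 * q) * gw τ (Ht η T) t ≤
        C * Real.log (Yt η T) ^ ((q * e) ^ 2) := by
  obtain ⟨C', hC1, hC2⟩ := exists_between hC
  have hκ0 : 0 < (q:ℝ) * e := by
    have : (0:ℝ) < q := by exact_mod_cast hq
    positivity
  have hK := K_sum e he q hq β hβ C' hC1 η hη2
  obtain ⟨J, hJ⟩ := exists_nat_ge ((q:ℝ) * e)
  have hcore := core_ev 0 J η δ hη hη2 hδ hδ1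
  have hbig : ∀ᶠ T : ℝ in atTop, 1 ≤ (C - C') * Real.log (Yt η T) ^ (((q:ℝ) * e) ^ 2) := by
    have h1 : Tendsto (fun T : ℝ => (C - C') * Real.log (Yt η T) ^ (((q:ℝ) * e) ^ 2)) atTop atTop :=
      Tendsto.const_mul_atTop (by linarith)
        ((tendsto_rpow_atTop (by positivity)).comp (Yt_tendsto hη2))
    exact h1.eventually_ge_atTop 1
  filter_upwards [hK, hcore, hbig, eventually_ge_atTop 1] with T hT1 hT2 hT3 hT4 τ hτ1 hτ2
  have hT0 : 0 < T := by linarith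
  set Y := Yt η T with hYdef
  have hY1 : 1 ≤ Y := one_le_Yt hη2 hT4
  have hYT : Y ≤ T := Yt_le hη hT4
  set X := Y ^ β with hX
  have hX1 : 1 ≤ X := Real.one_le_rpow hY1 hβ.le
  have hXq : X ^ q ≤ Y := by
    rw [hX, ← Real.rpow_natCast, ← Real.rpow_mul (by linarith)]
    calc Y ^ (β * q) ≤ Y ^ (1:ℝ) := Real.rpow_le_rpow_of_exponent_le hY1 hβq
      _ = Y := Real.rpow_one Y
  set B := tr (dA e) X with hB
  have hD := fun s => Dp_pow B X hX1 (fun n hn => tr_supp _ _ n hn) s q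
  have hPB : PB (B ^ q) J := by
    intro m
    have h0 := tr_pow_nonneg he.le X q m
    have h1 := tr_pow_le he.le X q m
    rw [abs_of_nonneg h0]
    refine h1.trans ((le_abs_self _).trans ?_)
    exact PB_dA hκ0.le hJ m
  have h := hT2 τ hτ1 hτ2 (B ^ q) (B ^ q) hPB (fun n hn => (hD 0).1 n (by linarith)) hPB
  have hDT : ∀ s, Dp (B ^ q : ArithmeticFunction ℝ) T s = Dp B X s ^ q := by
    intro s
    rw [Dp_mono (B ^ q) (X ^ q) T (by linarith) (hD s).1]
    exact (hD s).2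
  have hDY : ∀ s, Dp (B ^ q : ArithmeticFunction ℝ) Y s = Dp B X s ^ q := by
    intro s
    rw [Dp_mono (B ^ q) (X ^ q) Y hXq (hD s).1]
    exact (hD s).2
  simp only [hDT, hDY, pow_zero, one_mul] at h
  have hint : ∀ t : ℝ, Dp B X (1 / 2 + t * Complex.I) ^ q *
      (starRingEnd ℂ) (Dp B X (1 / 2 + t * Complex.I) ^ q) * (gw τ (Ht η T) t : ℂ) =
      ((‖Dp B X (1 / 2 + t * Complex.I)‖ ^ (2 * q) * gw τ (Ht η T) t : ℝ) : ℂ) := by
    intro t
    rw [Complex.mul_conj, Complex.normSq_eq_norm_sq, norm_pow, ← pow_mul, mul_comm q 2]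
    push_cast
    ring
  simp only [hint] at h
  rw [intervalIntegral.integral_ofReal, ← Complex.ofReal_sub, Complex.norm_real] at h
  have h3 := (Real.le_norm_self _).trans h
  linarith

end

end Pool.Agent.H306R2
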