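import Pool.Agent.H306R2.Core

set_option autoImplicit false

namespace Pool.Agent.H306R2

open MeasureTheory Filter Topology Finset

noncomputable section

/-- `Σ 1/n²` -/
def Z2 : ℝ := ∑' n : ℕ, 1 / (n : ℝ) ^ 2

lemma Z2_summable : Summable (fun n : ℕ => 1 / (n : ℝ) ^ 2) :=
  Real.summable_one_div_nat_pow.mpr (by norm_num)

lemma Z2_nonneg : 0 ≤ Z2 := tsum_nonneg fun n => by positivity

/-- single Gaussian integral -/
lemma term_integral (τ H : ℝ) (hH : 0 < H) (ρ : ℝ) (n m : ℕ) (hn : 1 ≤ n) (hm : 1 ≤ m) :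
    ∫ y : ℝ, (n : ℂ) ^ (-(((1 / 2 + ρ : ℝ) : ℂ) + y * Complex.I)) *
      (m : ℂ) ^ ((((1 / 2 + ρ : ℝ) : ℂ) + y * Complex.I) - 1) *
      Wa τ H (((1 / 2 + ρ : ℝ) : ℂ) + y * Complex.I) =
    Complex.exp ((1 / 2 + τ * Complex.I) * ((Real.log m - Real.log n : ℝ) : ℂ)) *
      (Real.exp (-(H ^ 2 * (Real.log m - Real.log n) ^ 2 / 4)) : ℝ) * (m : ℂ)⁻¹ := by
  rw [← gauss_exp τ H hH ρ (Real.log m - Real.log n), ← integral_mul_const]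
  congr 1
  ext y
  have hm0 : (m : ℂ) ≠ 0 := by exact_mod_cast (by omega : m ≠ 0)
  have h1 : (m : ℂ) ^ ((((1 / 2 + ρ : ℝ) : ℂ) + y * Complex.I) - 1) =
      (m : ℂ) ^ (((1 / 2 + ρ : ℝ) : ℂ) + y * Complex.I) * (m : ℂ)⁻¹ := by
    rw [Complex.cpow_sub _ _ hm0, Complex.cpow_one, div_eq_mul_inv]
  rw [h1, ncpow_exp n hn, ncpow_exp m hm, ← mul_assoc, ← Complex.exp_add]
  have h2 : -(((1 / 2 + ρ : ℝ) : ℂ) + y * Complex.I) * ((Real.log n : ℝ) : ℂ) +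
      (((1 / 2 + ρ : ℝ) : ℂ) + y * Complex.I) * ((Real.log m : ℝ) : ℂ) =
      (((1 / 2 + ρ : ℝ) : ℂ) + y * Complex.I) * ((Real.log m - Real.log n : ℝ) : ℂ) := by
    push_cast; ring
  rw [h2]
  ring

lemma term_norm (τ : ℝ) (n m : ℕ) (hn : 1 ≤ n) (hm : 1 ≤ m) :
    ‖Complex.exp ((1 / 2 + τ * Complex.I) * ((Real.log m - Real.log n : ℝ) : ℂ)) * (m : ℂ)⁻¹‖ ≤ 1 := by
  have hn0 : (0:ℝ) < n := by exact_mod_cast hn
  have hm0 : (0:ℝ) < m := by exact_mod_cast hm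
  rw [norm_mul, Complex.norm_exp, norm_inv, Complex.norm_natCast]
  have h1 : ((1 / 2 + τ * Complex.I) * ((Real.log m - Real.log n : ℝ) : ℂ)).re =
      (Real.log m - Real.log n) / 2 := by
    rw [Complex.re_mul_ofReal]
    simp
    ring
  rw [h1]
  have hln : 0 ≤ Real.log n := Real.log_natCast_nonneg n
  have hlm : 0 ≤ Real.log m := Real.log_natCast_nonneg m
  have h2 : Real.exp ((Real.log m - Real.log n) / 2) ≤ Real.exp (Real.log m) := by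
    apply Real.exp_le_exp.mpr; linarith
  rw [Real.exp_log hm0] at h2
  rw [mul_inv_le_iff₀ hm0]
  linarith

/-- the summand on the right line -/
def Fr (f g : ℕ → ℝ) (Y τ H ρ : ℝ) (n : ℕ) (y : ℝ) : ℂ :=
  (f n : ℂ) * (n : ℂ) ^ (-(((1 / 2 + ρ : ℝ) : ℂ) + y * Complex.I)) *
    Gp g Y (((1 / 2 + ρ : ℝ) : ℂ) + y * Complex.I) * Wa τ H (((1 / 2 + ρ : ℝ) : ℂ) + y * Complex.I)

lemma Fr_continuous (f g : ℕ → ℝ) (Y τ H ρ : ℝ) (n : ℕ) (hn : 1 ≤ n) :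
    Continuous (Fr f g Y τ H ρ n) := by
  unfold Fr
  have h0 : (n : ℂ) ≠ 0 := by exact_mod_cast (by omega : n ≠ 0)
  have h1 : Continuous (fun y : ℝ => (((1 / 2 + ρ : ℝ) : ℂ) + y * Complex.I)) := by fun_prop
  have h2 : Continuous (fun y : ℝ => (n : ℂ) ^ (-(((1 / 2 + ρ : ℝ) : ℂ) + y * Complex.I))) := by
    exact Continuous.const_cpow h1.neg (Or.inl h0)
  have h3 := (Gp_differentiable g Y).continuous.comp h1
  have h4 := (Wa_differentiable τ H).continuous.comp h1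
  exact ((continuous_const.mul h2).mul h3).mul h4

lemma Fr_norm (f g : ℕ → ℝ) (Y τ H : ℝ) (hY : 1 ≤ Y) (hH : 0 < H) (c : ℕ)
    (hf : ∀ n, |f n| ≤ (n : ℝ) ^ c) (hg : ∀ n, |g n| ≤ (n : ℝ) ^ c) (n : ℕ) (hn : 1 ≤ n) (y : ℝ) :
    ‖Fr f g Y τ H ((c:ℝ) + 2) n y‖ ≤
      1 / (n:ℝ) ^ 2 * (Y ^ (2 * c + 3) * Real.exp (((c:ℝ) + 2) ^ 2 / H ^ 2)) * gw τ H y := by
  unfold Fr
  have hn1 : (1:ℝ) ≤ n := by exact_mod_cast hn
  have hn0 : (0:ℝ) < n := by linarith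
  rw [norm_mul, norm_mul, norm_mul, norm_Wa τ H hH, Complex.norm_real, Real.norm_eq_abs,
    norm_ncpow n hn]
  have h1 : (-(((1 / 2 + ((c:ℝ) + 2) : ℝ) : ℂ) + y * Complex.I)).re = -(c:ℝ) - 5 / 2 := by
    simp; ring
  rw [h1]
  have h2 : ‖Gp g Y (((1 / 2 + ((c:ℝ) + 2) : ℝ) : ℂ) + y * Complex.I)‖ ≤ Y ^ (c + (c + 2) + 1) := by
    apply norm_Gp_le g Y hY c hg
    simp
    linarith
  have h3 : |f n| * (n:ℝ) ^ (-(c:ℝ) - 5 / 2) ≤ 1 / (n:ℝ) ^ 2 := by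
    have h4 : (n:ℝ) ^ (-(c:ℝ) - 5 / 2) = ((n:ℝ) ^ c)⁻¹ * ((n:ℝ) ^ (5/2 : ℝ))⁻¹ := by
      rw [sub_eq_add_neg, Real.rpow_add hn0, Real.rpow_neg hn0.le, Real.rpow_neg hn0.le,
        Real.rpow_natCast]
    rw [h4]
    have h5 : (n:ℝ) ^ 2 ≤ (n:ℝ) ^ (5/2 : ℝ) := by
      rw [← Real.rpow_natCast]
      exact Real.rpow_le_rpow_of_exponent_le hn1 (by norm_num)
    have h6 : |f n| * ((n:ℝ) ^ c)⁻¹ ≤ 1 := by
      rw [mul_inv_le_iff₀ (by positivity)]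
      linarith [hf n]
    calc |f n| * (((n:ℝ) ^ c)⁻¹ * ((n:ℝ) ^ (5/2 : ℝ))⁻¹) =
        (|f n| * ((n:ℝ) ^ c)⁻¹) * ((n:ℝ) ^ (5/2 : ℝ))⁻¹ := by ring
      _ ≤ 1 * ((n:ℝ) ^ 2)⁻¹ := by
          gcongr
      _ = 1 / (n:ℝ) ^ 2 := by rw [one_mul, one_div]
  have h7 := gw_nonneg τ H y hH
  have e : c + (c + 2) + 1 = 2 * c + 3 := by ring
  rw [e] at h2
  calc |f n| * (n:ℝ) ^ (-(c:ℝ) - 5 / 2) *
        ‖Gp g Y (((1 / 2 + ((c:ℝ) + 2) : ℝ) : ℂ) + y * Complex.I)‖ *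
        (Real.exp (((c:ℝ) + 2) ^ 2 / H ^ 2) * gw τ H y)
      ≤ 1 / (n:ℝ) ^ 2 * Y ^ (2 * c + 3) * (Real.exp (((c:ℝ) + 2) ^ 2 / H ^ 2) * gw τ H y) := by
        gcongr
    _ = _ := by ring

lemma Fr_zero (f g : ℕ → ℝ) (Y τ H ρ : ℝ) (hf0 : f 0 = 0) (y : ℝ) : Fr f g Y τ H ρ 0 y = 0 := by
  unfold Fr; rw [hf0]; simp

lemma Fr_norm' (f g : ℕ → ℝ) (Y τ H : ℝ) (hY : 1 ≤ Y) (hH : 0 < H) (c : ℕ) (hf0 : f 0 = 0)
    (hf : ∀ n, |f n| ≤ (n : ℝ) ^ c) (hg : ∀ n, |g n| ≤ (n : ℝ) ^ c) (n : ℕ) (y : ℝ) :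
    ‖Fr f g Y τ H ((c:ℝ) + 2) n y‖ ≤
      1 / (n:ℝ) ^ 2 * (Y ^ (2 * c + 3) * Real.exp (((c:ℝ) + 2) ^ 2 / H ^ 2)) * gw τ H y := by
  rcases Nat.eq_zero_or_pos n with h | h
  · subst h
    rw [Fr_zero f g Y τ H _ hf0]
    simp
  · exact Fr_norm f g Y τ H hY hH c hf hg n h y

lemma Fr_integrable (f g : ℕ → ℝ) (Y τ H : ℝ) (hY : 1 ≤ Y) (hH : 0 < H) (c : ℕ) (hf0 : f 0 = 0)
    (hf : ∀ n, |f n| ≤ (n : ℝ) ^ c) (hg : ∀ n, |g n| ≤ (n : ℝ) ^ c) (n : ℕ) :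
    Integrable (Fr f g Y τ H ((c:ℝ) + 2) n) := by
  rcases Nat.eq_zero_or_pos n with h | h
  · subst h
    have : Fr f g Y τ H ((c:ℝ) + 2) 0 = fun _ => 0 := by
      ext y; exact Fr_zero f g Y τ H _ hf0 y
    rw [this]
    exact integrable_zero _ _ _
  · refine Integrable.mono' ((gw_integrable τ H hH).const_mul
      (1 / (n:ℝ) ^ 2 * (Y ^ (2 * c + 3) * Real.exp (((c:ℝ) + 2) ^ 2 / H ^ 2))))
      (Fr_continuous f g Y τ H _ n h).aestronglyMeasurable ?_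
    exact Eventually.of_forall fun y => Fr_norm f g Y τ H hY hH c hf hg n h y

/-- the right line integral, expanded. -/
lemma right_hasSum (f g : ℕ → ℝ) (Y τ H : ℝ) (hY : 1 ≤ Y) (hH : 0 < H) (c : ℕ) (hf0 : f 0 = 0)
    (hf : ∀ n, |f n| ≤ (n : ℝ) ^ c) (hg : ∀ n, |g n| ≤ (n : ℝ) ^ c) :
    HasSum (fun n => ∫ y, Fr f g Y τ H ((c:ℝ) + 2) n y)
      (∫ y, ∑' n, Fr f g Y τ H ((c:ℝ) + 2) n y) := by
  refine hasSum_integral_of_summable_integral_norm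
    (fun n => Fr_integrable f g Y τ H hY hH c hf0 hf hg n) ?_
  refine Summable.of_nonneg_of_le (fun n => integral_nonneg fun y => norm_nonneg _) (fun n => ?_)
    (Z2_summable.mul_right (Y ^ (2 * c + 3) * Real.exp (((c:ℝ) + 2) ^ 2 / H ^ 2)))
  calc ∫ y, ‖Fr f g Y τ H ((c:ℝ) + 2) n y‖ ≤
      ∫ y, 1 / (n:ℝ) ^ 2 * (Y ^ (2 * c + 3) * Real.exp (((c:ℝ) + 2) ^ 2 / H ^ 2)) * gw τ H y := by
        refine integral_mono (Fr_integrable f g Y τ H hY hH c hf0 hf hg n).norm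
          ((gw_integrable τ H hH).const_mul _) fun y => ?_
        exact Fr_norm' f g Y τ H hY hH c hf0 hf hg n y
    _ = _ := by rw [integral_const_mul, gw_integral τ H hH, mul_one]

/-- value of each term -/
lemma Fr_integral (f g : ℕ → ℝ) (Y τ H : ℝ) (hH : 0 < H) (ρ : ℝ) (n : ℕ) (hn : 1 ≤ n) :
    ∫ y, Fr f g Y τ H ρ n y = ∑ m ∈ Icc 1 ⌊Y⌋₊, ((f n * g m : ℝ) : ℂ) *
      (Complex.exp ((1 / 2 + τ * Complex.I) * ((Real.log m - Real.log n : ℝ) : ℂ)) *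
      (Real.exp (-(H ^ 2 * (Real.log m - Real.log n) ^ 2 / 4)) : ℝ) * (m : ℂ)⁻¹) := by
  have h1 : ∀ y, Fr f g Y τ H ρ n y = ∑ m ∈ Icc 1 ⌊Y⌋₊, ((f n * g m : ℝ) : ℂ) *
      ((n : ℂ) ^ (-(((1 / 2 + ρ : ℝ) : ℂ) + y * Complex.I)) *
      (m : ℂ) ^ ((((1 / 2 + ρ : ℝ) : ℂ) + y * Complex.I) - 1) *
      Wa τ H (((1 / 2 + ρ : ℝ) : ℂ) + y * Complex.I)) := by
    intro y
    unfold Fr Gp
    rw [mul_sum, sum_mul]
    refine sum_congr rfl fun m _ => ?_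
    push_cast
    ring
  simp_rw [h1]
  rw [integral_finsetSum]
  · refine sum_congr rfl fun m hm => ?_
    rw [mem_Icc] at hm
    rw [integral_const_mul, term_integral τ H hH ρ n m hn hm.1]
  · intro m hm
    rw [mem_Icc] at hm
    refine Integrable.const_mul ?_ _
    -- integrability
    have hn0 : (n : ℂ) ≠ 0 := by exact_mod_cast (by omega : n ≠ 0)
    have hm0 : (m : ℂ) ≠ 0 := by exact_mod_cast (by omega : m ≠ 0)
    have h1 : Continuous (fun y : ℝ => (((1 / 2 + ρ : ℝ) : ℂ) + y * Complex.I)) := by fun_prop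
    have h2 : Continuous (fun y : ℝ => (n : ℂ) ^ (-(((1 / 2 + ρ : ℝ) : ℂ) + y * Complex.I))) :=
      Continuous.const_cpow h1.neg (Or.inl hn0)
    have h3 : Continuous (fun y : ℝ => (m : ℂ) ^ ((((1 / 2 + ρ : ℝ) : ℂ) + y * Complex.I) - 1)) :=
      Continuous.const_cpow (h1.sub continuous_const) (Or.inl hm0)
    have h4 := (Wa_differentiable τ H).continuous.comp h1
    refine Integrable.mono' ((gw_integrable τ H hH).const_mul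
      ((n:ℝ) ^ (-(1 / 2 + ρ)) * (m:ℝ) ^ (1 / 2 + ρ - 1) * Real.exp (ρ ^ 2 / H ^ 2)))
      ((h2.mul h3).mul h4).aestronglyMeasurable ?_
    refine Eventually.of_forall fun y => ?_
    rw [norm_mul, norm_mul, norm_ncpow n hn, norm_ncpow m hm.1]
    rw [norm_Wa τ H hH]
    have e1 : (-(((1 / 2 + ρ : ℝ) : ℂ) + y * Complex.I)).re = -(1 / 2 + ρ) := by simp
    have e2 : ((((1 / 2 + ρ : ℝ) : ℂ) + y * Complex.I) - 1).re = 1 / 2 + ρ - 1 := by simp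
    rw [e1, e2]
    apply le_of_eq
    ring

/-- the right line: diagonal plus tiny. -/
theorem right_line (f g : ℕ → ℝ) (Y τ H : ℝ) (hY : 1 ≤ Y) (hH : 0 < H) (c : ℕ) (hf0 : f 0 = 0)
    (hf : ∀ n, |f n| ≤ (n : ℝ) ^ c) (hg : ∀ n, |g n| ≤ (n : ℝ) ^ c)
    (hK : 16 * (2 * c + 3) * Y ≤ H ^ 2) :
    ‖(∫ y, ∑' n, Fr f g Y τ H ((c:ℝ) + 2) n y) -
      ((∑ m ∈ Icc 1 ⌊Y⌋₊, f m * g m / m : ℝ) : ℂ)‖ ≤
      Z2 * (Y ^ (3 * c + 4) * Real.exp (-(H ^ 2 / (32 * Y ^ 2)))) := by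
  have hs := right_hasSum f g Y τ H hY hH c hf0 hf hg
  -- diagonal as a sum over n
  set D : ℕ → ℂ := fun n => if n ∈ Icc 1 ⌊Y⌋₊ then ((f n * g n / n : ℝ) : ℂ) else 0 with hD
  have hD1 : HasSum D ((∑ m ∈ Icc 1 ⌊Y⌋₊, f m * g m / m : ℝ) : ℂ) := by
    have h1 : HasSum D (∑ n ∈ Icc 1 ⌊Y⌋₊, D n) := by
      apply hasSum_sum_of_ne_finset_zero
      intro n hn
      simp only [hD, if_neg hn]
    have h2 : ∑ n ∈ Icc 1 ⌊Y⌋₊, D n = ((∑ m ∈ Icc 1 ⌊Y⌋₊, f m * g m / m : ℝ) : ℂ) := by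
      rw [Complex.ofReal_sum]
      refine sum_congr rfl fun n hn => ?_
      simp only [hD, if_pos hn]
    rwa [h2] at h1
  have hsub := hs.sub hD1
  rw [← hsub.tsum_eq]
  have hbound : ∀ n, ‖(∫ y, Fr f g Y τ H ((c:ℝ) + 2) n y) - D n‖ ≤
      1 / (n:ℝ) ^ 2 * (Y ^ (3 * c + 4) * Real.exp (-(H ^ 2 / (32 * Y ^ 2)))) := by
    intro n
    rcases Nat.eq_zero_or_pos n with h0 | hn
    · subst h0
      have e1 : ∀ y, Fr f g Y τ H ((c:ℝ) + 2) 0 y = 0 := Fr_zero f g Y τ H _ hf0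
      simp [e1, hD]
    have hn1 : (1:ℝ) ≤ n := by exact_mod_cast hn
    have hn0 : (0:ℝ) < n := by linarith
    rw [Fr_integral f g Y τ H hH _ n hn]
    have hDn : D n = ∑ m ∈ Icc 1 ⌊Y⌋₊, if m = n then ((f n * g n / n : ℝ) : ℂ) else 0 := by
      rw [sum_ite_eq']
    rw [hDn, ← sum_sub_distrib]
    have hterm : ∀ m ∈ Icc 1 ⌊Y⌋₊, ‖((f n * g m : ℝ) : ℂ) *
      (Complex.exp ((1 / 2 + τ * Complex.I) * ((Real.log m - Real.log n : ℝ) : ℂ)) *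
      (Real.exp (-(H ^ 2 * (Real.log m - Real.log n) ^ 2 / 4)) : ℝ) * (m : ℂ)⁻¹) -
      (if m = n then ((f n * g n / n : ℝ) : ℂ) else 0)‖ ≤
        1 / (n:ℝ) ^ 2 * (Y ^ (3 * c + 3) * Real.exp (-(H ^ 2 / (32 * Y ^ 2)))) := by
      intro m hm
      rw [mem_Icc] at hm
      have hm1 : (1:ℝ) ≤ m := by exact_mod_cast hm.1
      have hm0 : (0:ℝ) < m := by linarith
      have hmY : (m:ℝ) ≤ Y := (Nat.cast_le.mpr hm.2).trans (Nat.floor_le (by linarith))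
      by_cases hmn : m = n
      · subst hmn
        rw [if_pos rfl]
        have : ((f m * g m : ℝ) : ℂ) *
          (Complex.exp ((1 / 2 + τ * Complex.I) * ((Real.log m - Real.log m : ℝ) : ℂ)) *
          (Real.exp (-(H ^ 2 * (Real.log m - Real.log m) ^ 2 / 4)) : ℝ) * (m : ℂ)⁻¹) -
          ((f m * g m / m : ℝ) : ℂ) = 0 := by
          simp only [sub_self, Complex.ofReal_zero, mul_zero, Complex.exp_zero, one_mul]
          norm_num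
          field_simp
          ring
        rw [this, norm_zero]
        positivity
      · rw [if_neg hmn, sub_zero]
        have h1 := off_diag Y H hY c hK n m hn hm.1 hmY (Ne.symm hmn)
        have h2 := term_norm τ n m hn hm.1
        have h3 : ((f n * g m : ℝ) : ℂ) *
          (Complex.exp ((1 / 2 + τ * Complex.I) * ((Real.log m - Real.log n : ℝ) : ℂ)) *
          (Real.exp (-(H ^ 2 * (Real.log m - Real.log n) ^ 2 / 4)) : ℝ) * (m : ℂ)⁻¹) =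
          ((f n * g m * Real.exp (-(H ^ 2 * (Real.log m - Real.log n) ^ 2 / 4)) : ℝ) : ℂ) *
          (Complex.exp ((1 / 2 + τ * Complex.I) * ((Real.log m - Real.log n : ℝ) : ℂ)) *
            (m : ℂ)⁻¹) := by
          push_cast; ring
        rw [h3, norm_mul, Complex.norm_real, Real.norm_eq_abs, abs_mul, abs_mul,
          abs_of_pos (Real.exp_pos _)]
        have h4 : (n:ℝ) ^ c * (m:ℝ) ^ c * ((m:ℝ) / n) ^ (2 * c + 3) ≤
            1 / (n:ℝ) ^ 2 * Y ^ (3 * c + 3) := by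
          have e1 : (n:ℝ) ^ c * (m:ℝ) ^ c * ((m:ℝ) / n) ^ (2 * c + 3) =
              (m:ℝ) ^ (3 * c + 3) * ((n:ℝ) ^ (c + 3))⁻¹ := by
            rw [div_pow]
            field_simp
            ring
          rw [e1, mul_comm, one_div]
          have e2 : ((n:ℝ) ^ (c + 3))⁻¹ ≤ ((n:ℝ) ^ 2)⁻¹ :=
            inv_anti₀ (by positivity) (pow_le_pow_right₀ hn1 (by omega))
          gcongr
        calc |f n| * |g m| * Real.exp (-(H ^ 2 * (Real.log m - Real.log n) ^ 2 / 4)) *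
            ‖Complex.exp ((1 / 2 + τ * Complex.I) * ((Real.log m - Real.log n : ℝ) : ℂ)) *
              (m : ℂ)⁻¹‖ ≤ ((n:ℝ) ^ c * (m:ℝ) ^ c *
              (Real.exp (-(H ^ 2 / (32 * Y ^ 2))) * ((m:ℝ) / n) ^ (2 * c + 3))) * 1 := by
              have a1 := hf n
              have a2 := hg m
              gcongr
          _ = ((n:ℝ) ^ c * (m:ℝ) ^ c * ((m:ℝ) / n) ^ (2 * c + 3)) *
              Real.exp (-(H ^ 2 / (32 * Y ^ 2))) := by ring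
          _ ≤ (1 / (n:ℝ) ^ 2 * Y ^ (3 * c + 3)) * Real.exp (-(H ^ 2 / (32 * Y ^ 2))) := by
              gcongr
          _ = _ := by ring
    refine (norm_sum_le_of_le _ hterm).trans ?_
    rw [sum_const, Nat.card_Icc, add_tsub_cancel_right, nsmul_eq_mul]
    have hfl : (⌊Y⌋₊ : ℝ) ≤ Y := Nat.floor_le (by linarith)
    calc (⌊Y⌋₊ : ℝ) * (1 / (n:ℝ) ^ 2 * (Y ^ (3 * c + 3) * Real.exp (-(H ^ 2 / (32 * Y ^ 2))))) ≤
        Y * (1 / (n:ℝ) ^ 2 * (Y ^ (3 * c + 3) * Real.exp (-(H ^ 2 / (32 * Y ^ 2))))) := by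
          gcongr
      _ = _ := by rw [pow_succ (Y) (3 * c + 3)]; ring
  calc ‖∑' n, ((∫ y, Fr f g Y τ H ((c:ℝ) + 2) n y) - D n)‖ ≤
      ∑' n : ℕ, 1 / (n:ℝ) ^ 2 * (Y ^ (3 * c + 4) * Real.exp (-(H ^ 2 / (32 * Y ^ 2)))) :=
        tsum_of_norm_bounded (Z2_summable.mul_right _).hasSum hbound
    _ = _ := by rw [tsum_mul_right]; rfl

end

end Pool.Agent.H306R2
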