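import Pool.Agent.H306R2.Arith

set_option autoImplicit false

/-! Twisted generalised divisor functions and their convolutions. -/

namespace Pool.Agent.H306R2

open Finset Filter Topology

noncomputable section

/-- `d_α(n) n^{-σ}` -/
def tw (α σ : ℝ) : ArithmeticFunction ℝ := ⟨fun n => dv α n * (n : ℝ) ^ (-σ), by simp [dv]⟩

lemma tw_apply (α σ : ℝ) (n : ℕ) : tw α σ n = dv α n * (n : ℝ) ^ (-σ) := rfl

lemma tw_zero (α : ℝ) : tw α 0 = dA α := by
  ext n
  rw [tw_apply, dA_apply]; simp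

lemma tw_mult (α σ : ℝ) : (tw α σ).IsMultiplicative := by
  refine ⟨by rw [tw_apply, dv_one]; simp, fun {m n} hmn => ?_⟩
  rw [tw_apply, tw_apply, tw_apply]
  have := (dA_mult α).map_mul_of_coprime hmn
  rw [dA_apply, dA_apply, dA_apply] at this
  rw [this]
  push_cast
  rw [Real.mul_rpow (by positivity) (by positivity)]
  ring

/-- product of twisted functions -/
def Gs {ι : Type*} [Fintype ι] (e s : ι → ℝ) : ArithmeticFunction ℝ := ∏ i, tw (e i) (s i)

lemma prod_mult {ι : Type*} (S : Finset ι) (f : ι → ArithmeticFunction ℝ)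
    (hf : ∀ i, (f i).IsMultiplicative) : (∏ i ∈ S, f i).IsMultiplicative := by
  classical
  induction S using Finset.induction_on with
  | empty => simpa using ArithmeticFunction.isMultiplicative_one
  | insert a S ha ih =>
    rw [prod_insert ha]
    exact (hf a).mul ih

lemma Gs_mult {ι : Type*} [Fintype ι] (e s : ι → ℝ) : (Gs e s).IsMultiplicative :=
  prod_mult _ _ fun i => tw_mult _ _

lemma mul_nonneg_af {A B : ArithmeticFunction ℝ} (hA : ∀ n, 0 ≤ A n) (hB : ∀ n, 0 ≤ B n) (n : ℕ) :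
    0 ≤ (A * B) n := by
  rw [ArithmeticFunction.mul_apply]
  exact sum_nonneg fun x _ => mul_nonneg (hA _) (hB _)

lemma prod_nonneg_af {ι : Type*} (S : Finset ι) (f : ι → ArithmeticFunction ℝ)
    (hf : ∀ i n, 0 ≤ f i n) (n : ℕ) : 0 ≤ (∏ i ∈ S, f i) n := by
  classical
  induction S using Finset.induction_on generalizing n with
  | empty =>
    rw [prod_empty, ArithmeticFunction.one_apply]
    split_ifs <;> norm_num
  | insert a S ha ih =>
    rw [prod_insert ha]
    exact mul_nonneg_af (hf a) (fun n => ih n) n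

lemma mul_mono_af {A B C D : ArithmeticFunction ℝ} (hA : ∀ n, 0 ≤ A n) (hD : ∀ n, 0 ≤ D n)
    (hAC : ∀ n, A n ≤ C n) (hBD : ∀ n, B n ≤ D n) (n : ℕ) :
    (A * B) n ≤ (C * D) n := by
  rw [ArithmeticFunction.mul_apply, ArithmeticFunction.mul_apply]
  exact sum_le_sum fun x _ => (mul_le_mul_of_nonneg_left (hBD _) (hA _)).trans
    (mul_le_mul_of_nonneg_right (hAC _) (hD _))

lemma prod_mono_af {ι : Type*} (S : Finset ι) (f g : ι → ArithmeticFunction ℝ)
    (hf : ∀ i n, 0 ≤ f i n) (hfg : ∀ i n, f i n ≤ g i n) (n : ℕ) :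
    (∏ i ∈ S, f i) n ≤ (∏ i ∈ S, g i) n := by
  classical
  induction S using Finset.induction_on generalizing n with
  | empty => simp
  | insert a S ha ih =>
    rw [prod_insert ha, prod_insert ha]
    refine mul_mono_af (hf a) (fun n => ?_) (hfg a) (fun n => ih n) n
    exact prod_nonneg_af S g (fun i n => (hf i n).trans (hfg i n)) n

lemma tw_nonneg {α : ℝ} (hα : 0 ≤ α) (σ : ℝ) (n : ℕ) : 0 ≤ tw α σ n := by
  rw [tw_apply]
  have := dv_nonneg hα n
  positivity

lemma Gs_nonneg {ι : Type*} [Fintype ι] {e : ι → ℝ} (he : ∀ i, 0 ≤ e i) (s : ι → ℝ) (n : ℕ) :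
    0 ≤ Gs e s n := prod_nonneg_af _ _ (fun i n => tw_nonneg (he i) _ n) n

lemma tw_mul (α β σ : ℝ) : tw α σ * tw β σ = tw (α + β) σ := by
  ext n
  rw [ArithmeticFunction.mul_apply, tw_apply, ← dA_apply, ← dA_mul, ArithmeticFunction.mul_apply,
    sum_mul]
  refine sum_congr rfl fun x hx => ?_
  rw [Nat.mem_divisorsAntidiagonal] at hx
  rw [tw_apply, tw_apply, dA_apply, dA_apply, ← hx.1]
  push_cast
  rw [Real.mul_rpow (by positivity) (by positivity)]
  ring

lemma prod_tw_const {ι : Type*} (S : Finset ι) (e : ι → ℝ) (σ : ℝ) :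
    ∏ i ∈ S, tw (e i) σ = tw (∑ i ∈ S, e i) σ := by
  classical
  induction S using Finset.induction_on with
  | empty =>
    rw [prod_empty, sum_empty]
    ext n
    rw [tw_apply, ← dA_apply, dA_zero, ArithmeticFunction.one_apply]
    split_ifs with h
    · subst h; simp
    · simp
  | insert a S ha ih =>
    rw [prod_insert ha, sum_insert ha, ih, tw_mul]

lemma tw_le {α : ℝ} (hα : 0 ≤ α) {σ τ : ℝ} (h : σ ≤ τ) (n : ℕ) : tw α τ n ≤ tw α σ n := by
  rw [tw_apply, tw_apply]
  rcases Nat.eq_zero_or_pos n with h0 | h0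
  · subst h0; simp [dv]
  · have hn1 : (1:ℝ) ≤ n := by exact_mod_cast h0
    exact mul_le_mul_of_nonneg_left (Real.rpow_le_rpow_of_exponent_le hn1 (by linarith))
      (dv_nonneg hα n)

lemma Gs_le {ι : Type*} [Fintype ι] {e : ι → ℝ} (he : ∀ i, 0 ≤ e i) {s : ι → ℝ} {σ : ℝ}
    (hs : ∀ i, σ ≤ s i) (n : ℕ) : Gs e s n ≤ dv (∑ i, e i) n * (n : ℝ) ^ (-σ) := by
  rw [← tw_apply, ← prod_tw_const]
  exact prod_mono_af _ _ _ (fun i n => tw_nonneg (he i) _ n) (fun i n => tw_le (he i) (hs i) n) n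

lemma mul_prime (A B : ArithmeticFunction ℝ) {p : ℕ} (hp : p.Prime) :
    (A * B) p = A p * B 1 + A 1 * B p := by
  have := mul_prime_pow A B hp 1
  rw [pow_one] at this
  rw [this]
  rw [show antidiagonal 1 = {(0, 1), (1, 0)} from rfl]
  rw [sum_pair (by simp)]
  simp
  ring

lemma prod_prime {ι : Type*} (S : Finset ι) (f : ι → ArithmeticFunction ℝ)
    (hf : ∀ i, f i 1 = 1) {p : ℕ} (hp : p.Prime) :
    (∏ i ∈ S, f i) 1 = 1 ∧ (∏ i ∈ S, f i) p = ∑ i ∈ S, f i p := by
  classical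
  induction S using Finset.induction_on with
  | empty =>
    refine ⟨by simp, ?_⟩
    rw [prod_empty, sum_empty, ArithmeticFunction.one_apply_ne hp.one_lt.ne']
  | insert a S ha ih =>
    rw [prod_insert ha, sum_insert ha]
    refine ⟨?_, ?_⟩
    · rw [ArithmeticFunction.mul_apply]
      simp [hf, ih.1]
    · rw [mul_prime _ _ hp, ih.1, ih.2, hf]
      ring

lemma Gs_prime {ι : Type*} [Fintype ι] (e s : ι → ℝ) {p : ℕ} (hp : p.Prime) :
    Gs e s p = ∑ i, e i * (p : ℝ) ^ (-(s i)) := by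
  have h := (prod_prime univ (fun i => tw (e i) (s i)) (fun i => (tw_mult _ _).map_one) hp).2
  unfold Gs
  rw [h]
  refine sum_congr rfl fun i _ => ?_
  rw [tw_apply]
  have := dv_prime_pow (e i) hp 1
  rw [pow_one] at this
  rw [this, lc_one]

lemma Gs_one {ι : Type*} [Fintype ι] (e s : ι → ℝ) : Gs e s 1 = 1 := (Gs_mult e s).map_one

lemma prod_tendsto_af {ι β : Type*} (l : Filter β) (S : Finset ι)
    (f : β → ι → ArithmeticFunction ℝ) (g : ι → ArithmeticFunction ℝ)
    (h : ∀ i n, Tendsto (fun b => f b i n) l (𝓝 (g i n))) (n : ℕ) :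
    Tendsto (fun b => (∏ i ∈ S, f b i) n) l (𝓝 ((∏ i ∈ S, g i) n)) := by
  classical
  induction S using Finset.induction_on generalizing n with
  | empty =>
    simp only [prod_empty]
    exact tendsto_const_nhds
  | insert a S ha ih =>
    simp only [prod_insert ha, ArithmeticFunction.mul_apply]
    refine tendsto_finsetSum _ fun x _ => (h a x.1).mul (ih x.2)

lemma Gs_tendsto {ι β : Type*} [Fintype ι] (l : Filter β) (e : ι → ℝ) (s : β → ι → ℝ) (s0 : ι → ℝ)
    (h : ∀ i, Tendsto (fun b => s b i) l (𝓝 (s0 i))) (n : ℕ) :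
    Tendsto (fun b => Gs e (s b) n) l (𝓝 (Gs e s0 n)) := by
  unfold Gs
  apply prod_tendsto_af
  intro i n
  simp only [tw_apply]
  rcases Nat.eq_zero_or_pos n with h0 | h0
  · subst h0
    simp only [dv, if_true, zero_mul]
    exact tendsto_const_nhds
  · refine Tendsto.const_mul _ ?_
    refine Tendsto.rpow tendsto_const_nhds (h i).neg ?_
    left; positivity

lemma Gs_zero {ι : Type*} [Fintype ι] (e : ι → ℝ) : Gs e 0 = dA (∑ i, e i) := by
  unfold Gs
  simp only [Pi.zero_apply]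
  rw [prod_tw_const, tw_zero]

end

end Pool.Agent.H306R2
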