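import Mathlib

set_option autoImplicit false

/-! Stirling's formula for the real Gamma function with explicit error `0 ≤ g x ≤ 1/(12 x)`. -/

namespace Pool.Agent.H306R2.X379StirR

open Real Finset Filter Topology

/-- `φ x = x log x - x + (1/2) log (2 π x)` -/
noncomputable def φ (x : ℝ) : ℝ := x * log x - x + log (2 * π * x) / 2

/-- the error in Stirling's formula -/
noncomputable def g (x : ℝ) : ℝ := log (Gamma (x + 1)) - φ x

lemma log_low {a : ℝ} (ha : 0 < a) : 2 / (2 * a + 1) ≤ log (1 + a⁻¹) := by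
  have h := hasSum_log_one_add_inv ha
  have h1 := h.summable.sum_le_tsum (Finset.range 1) (fun i _ => by positivity)
  rw [h.tsum_eq] at h1
  simp only [Finset.sum_range_one, Nat.cast_zero, mul_zero, zero_add, pow_one] at h1
  refine le_trans (le_of_eq ?_) h1
  norm_num
  ring

lemma log_up {a : ℝ} (ha : 0 < a) : (a + 1 / 2) * log (1 + a⁻¹) ≤ 1 + 1 / (12 * a * (a + 1)) := by
  have h := hasSum_log_one_add_inv ha
  have h1 := h.mul_left (a + 1 / 2)
  obtain ⟨t, ht⟩ : ∃ t : ℝ, t = 1 / (2 * a + 1) := ⟨_, rfl⟩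
  have ht0 : 0 < t := by rw [ht]; positivity
  have ht1 : t < 1 := by rw [ht, div_lt_one (by positivity)]; linarith
  have hat : (a + 1 / 2) * 2 * t = 1 := by rw [ht]; field_simp
  rw [← ht] at h1
  -- split the first term
  have h2 : HasSum (fun k : ℕ => (a + 1 / 2) * (2 * (1 / (2 * ((k + 1 : ℕ) : ℝ) + 1)) * t ^ (2 * (k + 1) + 1)))
      ((a + 1 / 2) * log (1 + a⁻¹) - 1) := by
    have h3 := (hasSum_nat_add_iff' 1).mpr h1
    simp only [Finset.sum_range_one, Nat.cast_zero, mul_zero, zero_add, pow_one] at h3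
    have e : (a + 1 / 2) * (2 * (1 / 1) * t) = 1 := by linear_combination hat
    rw [e] at h3
    exact h3
  have hgeo : HasSum (fun k : ℕ => (1 / 3 : ℝ) * t ^ 2 * (t ^ 2) ^ k) ((1 / 3) * t ^ 2 * (1 - t ^ 2)⁻¹) := by
    apply HasSum.mul_left
    exact hasSum_geometric_of_lt_one (by positivity) (by nlinarith)
  have h4 : (a + 1 / 2) * log (1 + a⁻¹) - 1 ≤ (1 / 3) * t ^ 2 * (1 - t ^ 2)⁻¹ := by
    apply hasSum_le _ h2 hgeo
    intro k
    have e1 : (a + 1 / 2) * (2 * (1 / (2 * ((k + 1 : ℕ) : ℝ) + 1)) * t ^ (2 * (k + 1) + 1)) =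
        ((a + 1 / 2) * 2 * t) * (1 / (2 * ((k + 1 : ℕ) : ℝ) + 1)) * (t ^ 2 * (t ^ 2) ^ k) := by
      rw [pow_succ, ← pow_mul]; ring
    rw [e1, hat, one_mul]
    rw [show (1 / 3 : ℝ) * t ^ 2 * (t ^ 2) ^ k = 1 / 3 * (t ^ 2 * (t ^ 2) ^ k) by ring]
    apply mul_le_mul_of_nonneg_right _ (by positivity)
    apply div_le_div_of_nonneg_left (by norm_num) (by norm_num)
    push_cast
    have : (0 : ℝ) ≤ k := Nat.cast_nonneg k
    linarith
  have e2 : (1 / 3) * t ^ 2 * (1 - t ^ 2)⁻¹ = 1 / (12 * a * (a + 1)) := by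
    have e3 : 1 - t ^ 2 = 4 * a * (a + 1) * t ^ 2 := by
      rw [ht]; field_simp; ring
    rw [e3]
    field_simp
    norm_num
  linarith

lemma g_sub {x : ℝ} (hx : 0 < x) : g x - g (x + 1) = (x + 1 / 2) * log (1 + x⁻¹) - 1 := by
  unfold g φ
  rw [Gamma_add_one (by positivity : x + 1 ≠ 0), log_mul (by positivity)
    (Gamma_pos_of_pos (by linarith)).ne', log_mul (by positivity) hx.ne',
    log_mul (by positivity) (by positivity : x + 1 ≠ 0)]
  have : log (1 + x⁻¹) = log (x + 1) - log x := by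
    rw [← log_div (by positivity) hx.ne']; congr 1; field_simp
  rw [this]
  ring

lemma g_anti {x : ℝ} (hx : 0 < x) : g (x + 1) ≤ g x := by
  have h1 := g_sub hx
  have h2 := log_low hx
  have h3 : 1 ≤ (x + 1 / 2) * log (1 + x⁻¹) := by
    have := mul_le_mul_of_nonneg_left h2 (by linarith : 0 ≤ x + 1 / 2)
    refine le_trans (le_of_eq ?_) this
    field_simp
  linarith

lemma g_mono {x : ℝ} (hx : 0 < x) : g x - 1 / (12 * x) ≤ g (x + 1) - 1 / (12 * (x + 1)) := by
  have h1 := g_sub hx
  have h2 := log_up hx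
  have h3 : 1 / (12 * x) - 1 / (12 * (x + 1)) = 1 / (12 * x * (x + 1)) := by
    field_simp; ring
  linarith

lemma g_nat : Tendsto (fun n : ℕ => g n) atTop (𝓝 0) := by
  have h1 : Tendsto (fun n : ℕ => log (Stirling.stirlingSeq n) - log π / 2) atTop
      (𝓝 (log (√π) - log π / 2)) :=
    ((continuousAt_log (by positivity : √π ≠ 0)).tendsto.comp
      Stirling.tendsto_stirlingSeq_sqrt_pi).sub_const _
  rw [log_sqrt pi_pos.le, sub_self] at h1
  apply h1.congr'
  filter_upwards [eventually_ge_atTop 1] with n hn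
  have hn0 : (0 : ℝ) < n := by exact_mod_cast hn
  rw [Stirling.log_stirlingSeq_formula]
  unfold g φ
  rw [Gamma_nat_eq_factorial, log_div hn0.ne' (exp_pos 1).ne', log_exp,
    log_mul (by norm_num) hn0.ne', log_mul (by positivity) hn0.ne',
    log_mul (by norm_num) pi_pos.ne']
  ring

lemma gamma_feq {y : ℝ} (hy : 0 < y) :
    (log ∘ Gamma) (y + 1) = (log ∘ Gamma) y + log y := by
  simp only [Function.comp_apply]
  rw [Gamma_add_one hy.ne', log_mul hy.ne' (Gamma_pos_of_pos hy).ne', add_comm]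

lemma g_near {s : ℝ} (hs : 0 < s) (hs1 : s ≤ 1) {n : ℕ} (hn : 1 ≤ n) :
    |g (s + n) - g n| ≤ 2 / n := by
  have hn0 : (0 : ℝ) < n := by exact_mod_cast hn
  have hn1 : (1 : ℝ) ≤ n := by exact_mod_cast hn
  have h1 := BohrMollerup.f_add_nat_le convexOn_log_Gamma (fun {y} hy => gamma_feq hy)
    (n := n + 1) (by omega) hs hs1
  have h2 := BohrMollerup.f_add_nat_ge convexOn_log_Gamma (fun {y} hy => gamma_feq hy)
    (n := n + 1) (by omega) hs
  simp only [Function.comp_apply] at h1 h2
  push_cast at h1 h2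
  rw [add_sub_cancel_right] at h2
  rw [show (n : ℝ) + 1 + s = s + n + 1 by ring] at h1 h2
  have h3 : s / (n + s) ≤ log ((n + s) / n) := by
    have := one_sub_inv_le_log_of_pos (x := (n + s) / n) (by positivity)
    refine le_trans (le_of_eq ?_) this
    field_simp
    ring
  have h4 : log ((n + s) / n) ≤ s / n := by
    have := log_le_sub_one_of_pos (x := (n + s) / n) (by positivity)
    refine this.trans (le_of_eq ?_)
    field_simp
    ring
  have h5 : log ((n : ℝ) + 1) ≤ log n + 1 / n := by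
    have := log_le_sub_one_of_pos (x := ((n : ℝ) + 1) / n) (by positivity)
    rw [log_div (by positivity) hn0.ne'] at this
    have e : ((n : ℝ) + 1) / n - 1 = 1 / n := by field_simp; ring
    linarith
  have h6 : φ (s + n) - φ n = s * log n + (n + s) * log ((n + s) / n) - s +
      log ((n + s) / n) / 2 := by
    unfold φ
    rw [log_mul (by positivity) (by positivity : s + n ≠ 0), log_mul (by positivity) hn0.ne',
      log_div (by positivity) hn0.ne', add_comm s (n : ℝ)]
    ring
  have h7 : s ≤ (n + s) * log ((n + s) / n) := by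
    have := mul_le_mul_of_nonneg_left h3 (by linarith : 0 ≤ (n : ℝ) + s)
    refine le_trans (le_of_eq ?_) this
    field_simp
  have h8 : (n + s) * log ((n + s) / n) ≤ s + 1 / n := by
    have := mul_le_mul_of_nonneg_left h4 (by linarith : 0 ≤ (n : ℝ) + s)
    refine this.trans ?_
    have e : ((n : ℝ) + s) * (s / n) = s + s ^ 2 / n := by field_simp
    rw [e]
    have : s ^ 2 / n ≤ 1 / n := div_le_div_of_nonneg_right (by nlinarith) hn0.le
    linarith
  have h9 : 0 ≤ s / (n + s) := by positivity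
  have h10 : s / n ≤ 1 / n := div_le_div_of_nonneg_right hs1 hn0.le
  have h11 : s * log ((n : ℝ) + 1) ≤ s * log n + 1 / n := by
    have h12 := mul_le_mul_of_nonneg_left h5 hs.le
    have h13 : s * (1 / n) = s / n := by ring
    linarith
  have h14 : (2 : ℝ) / n = 1 / n + 1 / n := by ring
  have h15 : (0 : ℝ) ≤ 1 / n := by positivity
  unfold g
  rw [abs_le]
  constructor <;> linarith

lemma g_tendsto1 {s : ℝ} (hs : 0 < s) (hs1 : s ≤ 1) :
    Tendsto (fun n : ℕ => g (s + n)) atTop (𝓝 0) := by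
  have h1 : Tendsto (fun n : ℕ => g (s + n) - g n) atTop (𝓝 0) := by
    apply squeeze_zero_norm' (a := fun n : ℕ => 2 / (n : ℝ))
    · filter_upwards [eventually_ge_atTop 1] with n hn
      exact g_near hs hs1 hn
    · exact tendsto_const_div_atTop_nhds_zero_nat 2
  have := h1.add g_nat
  simpa using this

lemma g_tendsto {x : ℝ} (hx : 0 < x) : Tendsto (fun n : ℕ => g (x + n)) atTop (𝓝 0) := by
  set m := ⌈x⌉₊ - 1 with hm
  have h1 : 1 ≤ ⌈x⌉₊ := Nat.one_le_ceil_iff.mpr hx
  have h2 : (m : ℝ) = ⌈x⌉₊ - 1 := by rw [hm, Nat.cast_sub h1, Nat.cast_one]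
  have h3 : x ≤ ⌈x⌉₊ := Nat.le_ceil x
  have h4 : (⌈x⌉₊ : ℝ) < x + 1 := Nat.ceil_lt_add_one hx.le
  have h5 := g_tendsto1 (s := x - m) (by linarith) (by linarith)
  have h6 := (tendsto_add_atTop_iff_nat m).mpr h5
  apply h6.congr
  intro n
  push_cast
  congr 1
  ring

lemma g_nonneg {x : ℝ} (hx : 0 < x) : 0 ≤ g x := by
  have h1 : Antitone (fun n : ℕ => g (x + n)) := by
    apply antitone_nat_of_succ_le
    intro n
    have := g_anti (x := x + n) (by positivity)
    push_cast
    rwa [add_assoc] at this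
  have := h1.le_of_tendsto (g_tendsto hx) 0
  simpa using this

lemma g_le {x : ℝ} (hx : 0 < x) : g x ≤ 1 / (12 * x) := by
  have h1 : Monotone (fun n : ℕ => g (x + n) - 1 / (12 * (x + n))) := by
    apply monotone_nat_of_le_succ
    intro n
    have := g_mono (x := x + n) (by positivity)
    push_cast
    rwa [add_assoc] at this
  have h2 : Tendsto (fun n : ℕ => 1 / (12 * (x + n))) atTop (𝓝 0) := by
    apply Tendsto.div_atTop tendsto_const_nhds
    apply Tendsto.const_mul_atTop (by norm_num)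
    exact tendsto_atTop_add_const_left _ _ tendsto_natCast_atTop_atTop
  have h3 := (g_tendsto hx).sub h2
  have := h1.ge_of_tendsto h3 0
  simp only [Nat.cast_zero, add_zero, sub_zero] at this
  linarith

/-- lower bound -/
theorem log_gamma_ge {x : ℝ} (hx : 0 < x) :
    x * log x - x + log (2 * π * x) / 2 ≤ log (Gamma (x + 1)) := by
  have := g_nonneg hx
  unfold g φ at this
  linarith

/-- upper bound -/
theorem log_gamma_le {x : ℝ} (hx : 0 < x) :
    log (Gamma (x + 1)) ≤ x * log x - x + log (2 * π * x) / 2 + 1 / (12 * x) := by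
  have := g_le hx
  unfold g φ at this
  linarith

end Pool.Agent.H306R2.X379StirR
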